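import Pool.Agent.Work.MP_327059_nt.Stmts

/-! Bundle of small proof modules (one section per former module). -/

section

/-! The expansion of the entries. -/

open Polynomial

namespace GSL

namespace Exp

/-- Vandermonde for falling factorials -/
theorem vand (n i m : ℕ) : (n + i).descFactorial m =
    ∑ j ∈ Finset.range (m + 1), m.choose j * n.descFactorial j * i.descFactorial (m - j) := by
  rw [Nat.descFactorial_eq_factorial_mul_choose, Nat.add_choose_eq,
    Finset.Nat.sum_antidiagonal_eq_sum_range_succ_mk, Finset.mul_sum]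
  refine Finset.sum_congr rfl fun j hj => ?_
  have hjm : j ≤ m := Nat.lt_succ_iff.1 (Finset.mem_range.1 hj)
  have h := Nat.choose_mul_factorial_mul_factorial hjm
  simp only
  rw [Nat.descFactorial_eq_factorial_mul_choose n j,
    Nat.descFactorial_eq_factorial_mul_choose i (m - j), ← h]
  ring

theorem shift {g : ℕ → ℂ} {s : ℂ} (h : HasSum g s) (n : ℕ) :
    HasSum (fun a => if n ≤ a then g (a - n) else 0) s := by
  have hinj : Function.Injective fun i : ℕ => i + n := fun a b h => by simpa using h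
  refine (hinj.hasSum_iff (fun a ha => ?_)).1 ?_
  · rw [if_neg]
    intro hna
    exact ha ⟨a - n, by simp [hna]⟩
  · have : ((fun a => if n ≤ a then g (a - n) else 0) ∘ fun i : ℕ => i + n) = g := by
      funext i
      simp
    rw [this]
    exact h

theorem prodSum {f g : ℕ → ℂ} {s t : ℂ} (hf : HasSum f s) (hg : HasSum g t) :
    HasSum (fun p : ℕ × ℕ => f p.1 * g p.2) (s * t) :=
  hf.mul hg (summable_mul_of_summable_norm (summable_norm_iff.2 hf.summable)
    (summable_norm_iff.2 hg.summable))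

theorem expSum (x : ℂ) : HasSum (fun i : ℕ => x ^ i / (i.factorial : ℂ)) (Complex.exp x) := by
  rw [Complex.exp_eq_exp_ℂ]
  exact NormedSpace.expSeries_div_hasSum_exp x

/-- the value of the inner sum without the exponential -/
noncomputable def HH (X ζ : ℂ) (n m : ℕ) : ℂ :=
  ∑ j ∈ Finset.range (m + 1), (m.choose j : ℂ) * (n.descFactorial j : ℂ) * ζ ^ (n - j) *
    X ^ (m - j)

theorem term (X ζ : ℂ) (n m i j : ℕ) (hj : j ≤ m) :
    X ^ i / (i.factorial : ℂ) * ((n.descFactorial j : ℂ) * (i.descFactorial (m - j) : ℂ)) *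
      ζ ^ (n + i - m) = (n.descFactorial j : ℂ) * ζ ^ (n - j) * X ^ (m - j) *
        (if m - j ≤ i then (X * ζ) ^ (i - (m - j)) / ((i - (m - j)).factorial : ℂ) else 0) := by
  by_cases hn : j ≤ n
  · split_ifs with hi
    · have h1 := Nat.factorial_mul_descFactorial hi
      have h2 : ((i - (m - j)).factorial : ℂ) * (i.descFactorial (m - j) : ℂ) =
          (i.factorial : ℂ) := by exact_mod_cast h1
      have h3 : n + i - m = (n - j) + (i - (m - j)) := by omega
      have h4 : X ^ i = X ^ (m - j) * X ^ (i - (m - j)) := by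
        rw [← pow_add]; congr 1; omega
      have h5 : (i.factorial : ℂ) ≠ 0 := by exact_mod_cast i.factorial_ne_zero
      have h6 : ((i - (m - j)).factorial : ℂ) ≠ 0 := by
        exact_mod_cast (i - (m - j)).factorial_ne_zero
      rw [h3, h4, pow_add, mul_pow]
      field_simp
      rw [← h2]
      ring
    · rw [Nat.descFactorial_eq_zero_iff_lt.2 (by omega : i < m - j)]
      simp
  · rw [Nat.descFactorial_eq_zero_iff_lt.2 (by omega : n < j)]
    simp

theorem inner (X ζ : ℂ) (n m : ℕ) :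
    HasSum (fun i : ℕ => X ^ i / (i.factorial : ℂ) * ((n + i).descFactorial m : ℂ) *
      ζ ^ (n + i - m)) (HH X ζ n m * Complex.exp (X * ζ)) := by
  have h1 : ∀ j ∈ Finset.range (m + 1), HasSum (fun i : ℕ => (m.choose j : ℂ) *
      ((n.descFactorial j : ℂ) * ζ ^ (n - j) * X ^ (m - j)) *
        (if m - j ≤ i then (X * ζ) ^ (i - (m - j)) / ((i - (m - j)).factorial : ℂ) else 0))
      ((m.choose j : ℂ) * ((n.descFactorial j : ℂ) * ζ ^ (n - j) * X ^ (m - j)) *
        Complex.exp (X * ζ)) := fun j _ => (shift (expSum (X * ζ)) (m - j)).mul_left _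
  have h2 := hasSum_sum h1
  have e1 : (∑ j ∈ Finset.range (m + 1), (m.choose j : ℂ) *
      ((n.descFactorial j : ℂ) * ζ ^ (n - j) * X ^ (m - j)) * Complex.exp (X * ζ)) =
      HH X ζ n m * Complex.exp (X * ζ) := by
    rw [HH, Finset.sum_mul]
    refine Finset.sum_congr rfl fun j _ => by ring
  rw [e1] at h2
  refine h2.congr_fun ?_
  intro i
  rw [vand n i m]
  push_cast
  rw [Finset.mul_sum, Finset.sum_mul]
  refine Finset.sum_congr rfl fun j hj => ?_
  have hjm : j ≤ m := Nat.lt_succ_iff.1 (Finset.mem_range.1 hj)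
  have h3 := term X ζ n m i j hjm
  calc X ^ i / (i.factorial : ℂ) * ((m.choose j : ℂ) * (n.descFactorial j : ℂ) *
        (i.descFactorial (m - j) : ℂ)) * ζ ^ (n + i - m)
      = (m.choose j : ℂ) * (X ^ i / (i.factorial : ℂ) * ((n.descFactorial j : ℂ) *
        (i.descFactorial (m - j) : ℂ)) * ζ ^ (n + i - m)) := by ring
    _ = _ := by rw [h3]; ring

/-- the function of `(a, c)` -/
noncomputable def ff (l' s w ζ : ℂ) (lam tau a c : ℕ) : ℂ :=
  (if c ≤ lam ∧ lam - c ≤ a then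
    (lam.choose c : ℂ) * ((w * l') ^ (a - (lam - c)) / ((a - (lam - c)).factorial : ℂ)) else 0) *
  (if c ≤ tau ∧ tau - c ≤ a then
    (tau.descFactorial c : ℂ) * (1 - s) ^ c * s ^ (tau - c) *
      (a.descFactorial (tau - c) : ℂ) * ζ ^ (a - (tau - c)) else 0)

/-- the coefficient in front of the inner sum -/
noncomputable def cc (s : ℂ) (lam tau c : ℕ) : ℂ :=
  (lam.choose c : ℂ) * (tau.descFactorial c : ℂ) * (1 - s) ^ c * s ^ (tau - c)

theorem ff_sum (l' s w ζ : ℂ) (lam tau c : ℕ) :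
    HasSum (fun a => ff l' s w ζ lam tau a c)
      (cc s lam tau c * HH (w * l') ζ (lam - c) (tau - c) * Complex.exp (w * l' * ζ)) := by
  have h1 := (shift (inner (w * l') ζ (lam - c) (tau - c)) (lam - c)).mul_left (cc s lam tau c)
  rw [← mul_assoc] at h1
  refine h1.congr_fun ?_
  intro a
  unfold ff cc
  by_cases hc : c ≤ lam
  · by_cases ha : lam - c ≤ a
    · rw [if_pos ⟨hc, ha⟩, if_pos ha]
      have h3 : lam - c + (a - (lam - c)) = a := by omega
      rw [h3]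
      by_cases ht : c ≤ tau ∧ tau - c ≤ a
      · rw [if_pos ht]; ring
      · rw [if_neg ht]
        by_cases ht2 : c ≤ tau
        · rw [Nat.descFactorial_eq_zero_iff_lt.2 (by omega : a < tau - c)]
          simp
        · rw [Nat.descFactorial_eq_zero_iff_lt.2 (by omega : tau < c)]
          simp
    · rw [if_neg (fun h => ha h.2), if_neg ha]; simp
  · rw [if_neg (fun h => hc h.1), Nat.choose_eq_zero_of_lt (by omega)]
    simp

theorem gg_sum (ε' w ζ : ℂ) : HasSum (fun b : ℕ =>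
    ((starRingEnd ℂ w * ε') ^ b / (b.factorial : ℂ)) * (starRingEnd ℂ ζ) ^ b)
    (Complex.exp (starRingEnd ℂ w * starRingEnd ℂ ζ * ε')) := by
  have h := expSum (starRingEnd ℂ w * starRingEnd ℂ ζ * ε')
  refine h.congr_fun ?_
  intro b
  rw [mul_pow, mul_pow, mul_pow]
  ring

theorem alg (l' s w ζ : ℂ) (lam tau : ℕ) :
    ∑ c ∈ Finset.range (lam + 1), cc s lam tau c * HH (w * l') ζ (lam - c) (tau - c) =
      ent0 (s * l') w ζ lam tau := by
  have e1 : ∑ c ∈ Finset.range (lam + 1), cc s lam tau c * HH (w * l') ζ (lam - c) (tau - c) =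
      ∑ c ∈ Finset.range (tau + 1), cc s lam tau c * HH (w * l') ζ (lam - c) (tau - c) := by
    have a1 : ∑ c ∈ Finset.range (lam + 1), cc s lam tau c * HH (w * l') ζ (lam - c) (tau - c) =
        ∑ c ∈ Finset.range (max lam tau + 1),
          cc s lam tau c * HH (w * l') ζ (lam - c) (tau - c) := by
      refine Finset.sum_subset (Finset.range_subset_range.2 (by omega)) fun c _ hc => ?_
      rw [Finset.mem_range] at hc
      rw [cc, Nat.choose_eq_zero_of_lt (by omega)]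
      simp
    have a2 : ∑ c ∈ Finset.range (tau + 1), cc s lam tau c * HH (w * l') ζ (lam - c) (tau - c) =
        ∑ c ∈ Finset.range (max lam tau + 1),
          cc s lam tau c * HH (w * l') ζ (lam - c) (tau - c) := by
      refine Finset.sum_subset (Finset.range_subset_range.2 (by omega)) fun c _ hc => ?_
      rw [Finset.mem_range] at hc
      rw [cc, Nat.descFactorial_eq_zero_iff_lt.2 (by omega : tau < c)]
      simp
    rw [a1, a2]
  rw [e1]
  set φ : ℕ → ℕ → ℂ := fun c j => cc s lam tau c * (((tau - c).choose j : ℂ) *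
    ((lam - c).descFactorial j : ℂ) * ζ ^ (lam - c - j) * (w * l') ^ (tau - c - j)) with hφ
  have e2 : ∑ c ∈ Finset.range (tau + 1), cc s lam tau c * HH (w * l') ζ (lam - c) (tau - c) =
      ∑ c ∈ Finset.range (tau + 1), ∑ j ∈ Finset.range (tau + 1 - c), φ c j := by
    refine Finset.sum_congr rfl fun c hc => ?_
    rw [Finset.mem_range] at hc
    have h1 : tau + 1 - c = tau - c + 1 := by omega
    rw [HH, Finset.mul_sum, h1]
  rw [e2, ← Finset.sum_range_diag_flip]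
  unfold ent0
  refine Finset.sum_congr rfl fun k hk => ?_
  have hk : k ≤ tau := Nat.lt_succ_iff.1 (Finset.mem_range.1 hk)
  have e3 : ∀ c ∈ Finset.range (k + 1), φ c (k - c) = ((tau.choose k : ℂ) *
      (lam.descFactorial k : ℂ) * ζ ^ (lam - k) * (w * (s * l')) ^ (tau - k)) *
      ((1 - s) ^ c * s ^ (k - c) * (k.choose c : ℂ)) := by
    intro c hc
    have hc : c ≤ k := Nat.lt_succ_iff.1 (Finset.mem_range.1 hc)
    simp only [hφ, cc]
    have h1 : lam - c - (k - c) = lam - k := by omega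
    have h2 : tau - c - (k - c) = tau - k := by omega
    have h3 : s ^ (tau - c) = s ^ (tau - k) * s ^ (k - c) := by
      rw [← pow_add]; congr 1; omega
    have h4 : (lam.choose c * tau.descFactorial c * ((tau - c).choose (k - c) *
        (lam - c).descFactorial (k - c)) : ℕ) = tau.choose k * lam.descFactorial k *
        k.choose c := by
      by_cases hl : k ≤ lam
      · have p1 : lam.choose c * (lam - c).descFactorial (k - c) * c.factorial =
            lam.descFactorial k := by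
          have q1 := Nat.descFactorial_eq_factorial_mul_choose lam c
          have q2 : lam.descFactorial k = lam.descFactorial c * (lam - c).descFactorial (k - c) := by
            have := Nat.descFactorial_mul_descFactorial (k := c) (m := k) (n := lam) hc
            rw [← this]; ring
          rw [q2, q1]; ring
        have p2 : tau.descFactorial c * (tau - c).choose (k - c) =
            c.factorial * (tau.choose k * k.choose c) := by
          rw [Nat.descFactorial_eq_factorial_mul_choose, Nat.choose_mul (n := tau) hc, mul_assoc]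
        calc lam.choose c * tau.descFactorial c * ((tau - c).choose (k - c) *
            (lam - c).descFactorial (k - c))
            = (lam.choose c * (lam - c).descFactorial (k - c)) *
              (tau.descFactorial c * (tau - c).choose (k - c)) := by ring
          _ = (lam.choose c * (lam - c).descFactorial (k - c) * c.factorial) *
              (tau.choose k * k.choose c) := by rw [p2]; ring
          _ = _ := by rw [p1]; ring
      · rw [Nat.descFactorial_eq_zero_iff_lt.2 (by omega : lam < k)]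
        by_cases hl2 : c ≤ lam
        · rw [Nat.descFactorial_eq_zero_iff_lt.2 (by omega : lam - c < k - c)]
          simp
        · rw [Nat.choose_eq_zero_of_lt (by omega)]
          simp
    have h4' : ((lam.choose c : ℂ) * (tau.descFactorial c : ℂ) * (((tau - c).choose (k - c) : ℂ) *
        ((lam - c).descFactorial (k - c) : ℂ))) = (tau.choose k : ℂ) *
        (lam.descFactorial k : ℂ) * (k.choose c : ℂ) := by exact_mod_cast h4
    rw [h1, h2, h3]
    calc (lam.choose c : ℂ) * (tau.descFactorial c : ℂ) * (1 - s) ^ c *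
          (s ^ (tau - k) * s ^ (k - c)) * (((tau - c).choose (k - c) : ℂ) *
          ((lam - c).descFactorial (k - c) : ℂ) * ζ ^ (lam - k) * (w * l') ^ (tau - k))
        = ((lam.choose c : ℂ) * (tau.descFactorial c : ℂ) * (((tau - c).choose (k - c) : ℂ) *
        ((lam - c).descFactorial (k - c) : ℂ))) * ((1 - s) ^ c *
          (s ^ (tau - k) * s ^ (k - c)) * ζ ^ (lam - k) * (w * l') ^ (tau - k)) := by ring
      _ = _ := by
          rw [h4', mul_pow, mul_pow, mul_pow]; ring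
  rw [Finset.sum_congr rfl e3, ← Finset.mul_sum, ← add_pow]
  simp

end Exp

/-- the summand for fixed `c` -/
noncomputable def Exp.F3 (l' ε' s w ζ : ℂ) (lam tau c : ℕ) (m : ℕ × ℕ × ℕ) : ℂ :=
  if m.2.2 = c then
      Exp.ff l' s w ζ lam tau m.1 c * (((starRingEnd ℂ w * ε') ^ m.2.1 / (m.2.1.factorial : ℂ)) *
        (starRingEnd ℂ ζ) ^ m.2.1) else 0

theorem Exp.F3_sum (l' ε' s w ζ : ℂ) (lam tau c : ℕ) :
    HasSum (Exp.F3 l' ε' s w ζ lam tau c)
      ((Exp.cc s lam tau c * Exp.HH (w * l') ζ (lam - c) (tau - c) *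
        Complex.exp (w * l' * ζ)) * Complex.exp (starRingEnd ℂ w * starRingEnd ℂ ζ * ε')) := by
  have hf := Exp.ff_sum l' s w ζ lam tau c
  have hg := Exp.gg_sum ε' w ζ
  generalize (Exp.cc s lam tau c * Exp.HH (w * l') ζ (lam - c) (tau - c) *
        Complex.exp (w * l' * ζ)) = v1 at hf ⊢
  generalize Complex.exp (starRingEnd ℂ w * starRingEnd ℂ ζ * ε') = v2 at hg ⊢
  have hfg := Exp.prodSum hf hg
  have hinj : Function.Injective fun p : ℕ × ℕ => ((p.1, p.2, c) : ℕ × ℕ × ℕ) := by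
    rintro ⟨a, b⟩ ⟨a', b'⟩ h
    simp only [Prod.mk.injEq] at h
    exact Prod.ext h.1 h.2.1
  have hz : ∀ m ∉ Set.range (fun p : ℕ × ℕ => ((p.1, p.2, c) : ℕ × ℕ × ℕ)),
      Exp.F3 l' ε' s w ζ lam tau c m = 0 := by
    intro m hm
    unfold Exp.F3
    rw [if_neg]
    intro hmc
    exact hm ⟨(m.1, m.2.1), by rw [← hmc]⟩
  have hcomp : (Exp.F3 l' ε' s w ζ lam tau c) ∘ (fun p : ℕ × ℕ => ((p.1, p.2, c) : ℕ × ℕ × ℕ)) =
      fun p : ℕ × ℕ => Exp.ff l' s w ζ lam tau p.1 c *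
        (((starRingEnd ℂ w * ε') ^ p.2 / (p.2.factorial : ℂ)) * (starRingEnd ℂ ζ) ^ p.2) := by
    funext p
    simp only [Function.comp, Exp.F3, if_true]
  rw [← hcomp] at hfg
  exact (hinj.hasSum_iff hz).1 hfg

theorem exp : StmtExp := by
  intro l' ε' s w ζ lam tau
  have h1 := Exp.F3_sum l' ε' s w ζ lam tau
  have h2 := hasSum_sum (fun c (_ : c ∈ Finset.range (lam + 1)) => h1 c)
  have e1 : (∑ c ∈ Finset.range (lam + 1), (Exp.cc s lam tau c *
      Exp.HH (w * l') ζ (lam - c) (tau - c) * Complex.exp (w * l' * ζ)) *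
      Complex.exp (starRingEnd ℂ w * starRingEnd ℂ ζ * ε')) =
      ent0 (s * l') w ζ lam tau *
      Complex.exp (w * ζ * l' + starRingEnd ℂ w * starRingEnd ℂ ζ * ε') := by
    rw [Complex.exp_add, ← Exp.alg, Finset.sum_mul]
    refine Finset.sum_congr rfl fun c _ => ?_
    rw [show w * ζ * l' = w * l' * ζ by ring]
    ring
  rw [e1] at h2
  refine h2.congr_fun ?_
  rintro ⟨a, b, c⟩
  simp only [Exp.F3]
  by_cases hc : c ≤ lam
  · rw [Finset.sum_eq_single c (fun c' _ h => if_neg (fun h' => h h'.symm))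
      (fun h => absurd (Finset.mem_range.2 (by omega)) h), if_pos rfl]
    simp only [Pc, Qc, Exp.ff]
    split_ifs <;> ring
  · rw [Finset.sum_eq_zero]
    · simp only [Pc]
      rw [if_neg (fun h => hc h.1), zero_mul]
    · intro c' hc'
      rw [if_neg]
      intro h
      rw [Finset.mem_range] at hc'
      omega

end GSL

end

section

/-!
# MP_327059_nt : factorisation over `ℚ(β)` and sums over roots
-/

open Polynomial

namespace GSL

namespace Factor

open Classical in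
/-- The factorisation into monic irreducible polynomials, as a finite product. -/
lemma exists_factor {K : Type*} [Field K] (P : K[X]) :
    ∃ (s : Finset K[X]) (k : K[X] → ℕ), (∀ Q ∈ s, Q.Monic ∧ Irreducible Q ∧ 1 ≤ k Q) ∧
      P = C P.leadingCoeff * ∏ Q ∈ s, Q ^ k Q := by
  refine ⟨(UniqueFactorizationMonoid.normalizedFactors P).toFinset,
    fun Q => (UniqueFactorizationMonoid.normalizedFactors P).count Q, ?_, ?_⟩
  · intro Q hQ
    have hQ' : Q ∈ UniqueFactorizationMonoid.normalizedFactors P := Multiset.mem_toFinset.1 hQ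
    have hirr := UniqueFactorizationMonoid.irreducible_of_normalized_factor Q hQ'
    refine ⟨?_, hirr, Multiset.one_le_count_iff_mem.2 hQ'⟩
    exact (normalize_eq_self_iff_monic hirr.ne_zero).1
      (UniqueFactorizationMonoid.normalize_normalized_factor Q hQ')
  · have h := leadingCoeff_mul_prod_normalizedFactors P
    rw [Finset.prod_multiset_count] at h
    exact h.symm

/-- Two distinct monic irreducible polynomials have no common root in an extension. -/
lemma no_common {K : Type*} [Field K] (A : K →+* ℂ) {Q R : K[X]} (hQ : Q.Monic)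
    (hR : R.Monic) (hQi : Irreducible Q) (hRi : Irreducible R) (hne : Q ≠ R) (y : ℂ)
    (h1 : y ∈ (Q.map A).roots) (h2 : y ∈ (R.map A).roots) : False := by
  have hco : IsCoprime Q R := by
    rw [hQi.coprime_iff_not_dvd]
    intro hd
    apply hne
    exact eq_of_monic_of_associated hQ hR (hQi.associated_of_dvd hRi hd)
  have hco' : IsCoprime (Q.map A) (R.map A) := (isCoprime_map A).2 hco
  obtain ⟨u, v, huv⟩ := hco'
  have e1 : (Q.map A).eval y = 0 := (mem_roots'.1 h1).2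
  have e2 : (R.map A).eval y = 0 := (mem_roots'.1 h2).2
  have := congrArg (eval y) huv
  simp [e1, e2] at this

/-- The number of times a root of `Q` occurs. -/
lemma count_bind_eq {K : Type*} [Field K] [CharZero K] (A : K →+* ℂ) (s : Finset K[X])
    (k : K[X] → ℕ) (hs : ∀ Q ∈ s, Q.Monic ∧ Irreducible Q ∧ 1 ≤ k Q) {Q : K[X]} (hQ : Q ∈ s)
    {y : ℂ} (hy : y ∈ (Q.map A).roots) :
    (s.val.bind fun R => k R • (R.map A).roots).count y = k Q := by
  classical
  rw [Multiset.count_bind]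
  change ∑ R ∈ s, Multiset.count y (k R • (R.map A).roots) = k Q
  rw [Finset.sum_eq_single Q]
  · rw [Multiset.count_nsmul]
    have hnd : (Q.map A).roots.Nodup := nodup_roots ((hs Q hQ).2.1.separable.map)
    rw [Multiset.count_eq_one_of_mem hnd hy, mul_one]
  · intro R hR hne
    rw [Multiset.count_nsmul]
    have : y ∉ (R.map A).roots := fun hyR =>
      no_common A (hs Q hQ).1 (hs R hR).1 (hs Q hQ).2.1 (hs R hR).2.1 (Ne.symm hne) y hy hyR
    rw [Multiset.count_eq_zero_of_notMem this, mul_zero]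
  · intro h
    exact absurd hQ h

/-- Sums over the roots of a product. -/
lemma sum_bind_eq {K : Type*} [Field K] (A : K →+* ℂ) (s : Finset K[X])
    (k : K[X] → ℕ) (f : ℂ → ℝ) :
    ((s.val.bind fun R => k R • (R.map A).roots).map f).sum =
      ∑ Q ∈ s, (k Q : ℝ) * ((Q.map A).roots.map f).sum := by
  rw [Multiset.map_bind, Multiset.sum_bind]
  change ∑ Q ∈ s, (Multiset.map f (k Q • (Q.map A).roots)).sum = _
  refine Finset.sum_congr rfl fun Q _ => ?_
  rw [Multiset.map_nsmul, Multiset.sum_nsmul, nsmul_eq_mul]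

/-- The diagonal double sum. -/
lemma double_sum {N : ℕ} (x : Fin N → ℂ) (f : ℂ → ℝ) :
    ∑ r, ∑ s', (if x r = x s' then f (x r) else 0) =
      ∑ r, ((Finset.univ.val.map x).count (x r) : ℝ) * f (x r) := by
  classical
  refine Finset.sum_congr rfl fun r _ => ?_
  rw [← Finset.sum_filter, Finset.sum_const, nsmul_eq_mul]
  congr 2
  rw [Multiset.count_map]
  rfl

end Factor

open Factor in
/-- `StmtFactor`. -/
theorem factor (hF : StmtField) : StmtFactor := by
  intro β hβ P hP hP0 N x hx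
  obtain ⟨hF1, hF2, -, -, -, -⟩ := hF β hβ
  -- descend to `ℚ(β)`
  have hlift : P ∈ lifts (algebraMap (Fb β) ℂ) := by
    rw [lifts_iff_coeff_lifts]
    intro n
    have h1 : P.coeff n ∈ Fb β := (hF1 _).2 (hF2 _ (hP n)).2
    exact ⟨⟨P.coeff n, h1⟩, rfl⟩
  obtain ⟨P', hP'⟩ := (mem_lifts _).1 hlift
  have hP'0 : P' ≠ 0 := by
    rintro rfl
    apply hP0
    rw [← hP', Polynomial.map_zero]
  obtain ⟨s, k, hs, hprod⟩ := exists_factor P'
  have hlead : P.leadingCoeff = algebraMap (Fb β) ℂ P'.leadingCoeff := by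
    rw [← hP', leadingCoeff_map]
  have hprodC : P = C P.leadingCoeff * ∏ Q ∈ s, toC Q ^ k Q := by
    have h := congrArg (Polynomial.map (algebraMap (Fb β) ℂ)) hprod
    rw [hP', Polynomial.map_mul, Polynomial.map_C, ← hlead, Polynomial.map_prod] at h
    simp only [Polynomial.map_pow] at h
    exact h
  have hl0 : P.leadingCoeff ≠ 0 := leadingCoeff_ne_zero.2 hP0
  -- the roots
  have hroots1 : P.roots = Finset.univ.val.map x := by
    conv_lhs => rw [hx]
    rw [roots_C_mul _ hl0]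
    have h2 : (∏ r, (X - C (x r)) : ℂ[X]) =
        ((Finset.univ.val.map x).map fun a => X - C a).prod := by
      rw [Multiset.map_map]
      rfl
    rw [h2, roots_multiset_prod_X_sub_C]
  have hroots2 : P.roots = s.val.bind fun R => k R • (R.map (algebraMap (Fb β) ℂ)).roots := by
    have hne : ∏ Q ∈ s, toC Q ^ k Q ≠ 0 := by
      intro h
      rw [h, mul_zero] at hprodC
      exact hP0 hprodC
    conv_lhs => rw [hprodC]
    rw [roots_C_mul _ hl0, roots_prod _ _ hne]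
    simp only [roots_pow]
    rfl
  have hmem : ∀ y, y ∈ P.roots ↔ ∃ r, x r = y := by
    intro y
    rw [hroots1]
    simp
  have hsum : ∀ f : ℂ → ℝ, ∑ r, f (x r) = ∑ Q ∈ s, (k Q : ℝ) * ((toC Q).roots.map f).sum := by
    intro f
    have h1 := sum_bind_eq (algebraMap (Fb β) ℂ) s k f
    rw [← hroots2, hroots1, Multiset.map_map] at h1
    exact h1
  refine ⟨s, k, hs, hprodC, ?_, ?_, ?_, ?_⟩
  · intro Q hQ
    refine ⟨?_, (hs Q hQ).2.1.natDegree_pos⟩
    rw [IsAlgClosed.card_roots_eq_natDegree]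
    exact natDegree_map _
  · intro Q hQ y hy
    rw [← hmem, hroots2, Multiset.mem_bind]
    refine ⟨Q, hQ, ?_⟩
    rw [Multiset.mem_nsmul]
    exact ⟨by have := (hs Q hQ).2.2; omega, hy⟩
  · intro r
    have h1 : x r ∈ P.roots := (hmem _).2 ⟨r, rfl⟩
    rw [hroots2, Multiset.mem_bind] at h1
    obtain ⟨Q, hQ, h2⟩ := h1
    rw [Multiset.mem_nsmul] at h2
    exact ⟨Q, hQ, h2.2⟩
  · intro f
    refine ⟨hsum f, ?_⟩
    rw [double_sum]
    have h1 := hsum fun y => ((Finset.univ.val.map x).count y : ℝ) * f y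
    refine h1.trans (Finset.sum_congr rfl fun Q hQ => ?_)
    have h3 : ((toC Q).roots.map fun y => ((Finset.univ.val.map x).count y : ℝ) * f y) =
        ((toC Q).roots.map fun y => (k Q : ℝ) * f y) := by
      refine Multiset.map_congr rfl fun y hy => ?_
      have := count_bind_eq (algebraMap (Fb β) ℂ) s k hs hQ hy
      rw [← hroots2, hroots1] at this
      rw [this]
    rw [h3, Multiset.sum_map_mul_left]
    ring

end GSL

end

section

/-!
# MP_327059_nt : degree and height of the determinant polynomial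
-/

open Polynomial Filter Topology

namespace GSL

namespace Height

lemma mem_circ {S : ℕ} {p : ℤ × ℤ} (hp : p ∈ circ S) :
    |(p.1 : ℝ)| ≤ S ∧ |(p.2 : ℝ)| ≤ S := by
  unfold circ at hp
  rw [Finset.mem_filter, Finset.mem_product, Finset.mem_Icc, Finset.mem_Icc] at hp
  obtain ⟨⟨⟨h1, h2⟩, h3, h4⟩, -⟩ := hp
  constructor
  · rw [abs_le]
    constructor
    · exact_mod_cast h1
    · exact_mod_cast h2
  · rw [abs_le]
    constructor
    · exact_mod_cast h3
    · exact_mod_cast h4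

lemma norm_wv (β : ℂ) (t : ℤ) {S : ℕ} {p : ℤ × ℤ} (hp : p ∈ circ S) :
    ‖wv β p‖ ≤ (1 + |(t : ℝ)| + ‖β‖) * S := by
  obtain ⟨h1, h2⟩ := mem_circ hp
  unfold wv
  have e1 : ‖((p.1 : ℤ) : ℂ)‖ = |(p.1 : ℝ)| := by
    rw [Complex.norm_intCast]
  have e2 : ‖((p.2 : ℤ) : ℂ)‖ = |(p.2 : ℝ)| := by
    rw [Complex.norm_intCast]
  have hS : (0 : ℝ) ≤ S := Nat.cast_nonneg S
  calc ‖((p.1 : ℤ) : ℂ) + ((p.2 : ℤ) : ℂ) * β‖
      ≤ ‖((p.1 : ℤ) : ℂ)‖ + ‖((p.2 : ℤ) : ℂ) * β‖ := norm_add_le _ _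
    _ = |(p.1 : ℝ)| + |(p.2 : ℝ)| * ‖β‖ := by rw [norm_mul, e1, e2]
    _ ≤ S + S * ‖β‖ := by
        have := mul_le_mul_of_nonneg_right h2 (norm_nonneg β)
        linarith
    _ ≤ (1 + |(t : ℝ)| + ‖β‖) * S := by
        have := mul_nonneg (abs_nonneg (t : ℝ)) hS
        nlinarith

lemma norm_zv (β : ℂ) (t : ℤ) {S : ℕ} {p : ℤ × ℤ} (hp : p ∈ circ S) :
    ‖zv t β p‖ ≤ (1 + |(t : ℝ)| + ‖β‖) * S := by
  obtain ⟨h1, h2⟩ := mem_circ hp
  unfold zv
  have e1 : ‖((p.1 : ℤ) : ℂ)‖ = |(p.1 : ℝ)| := by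
    rw [Complex.norm_intCast]
  have e2 : ‖((p.2 : ℤ) : ℂ)‖ = |(p.2 : ℝ)| := by
    rw [Complex.norm_intCast]
  have e3 : ‖((t : ℤ) : ℂ)‖ = |(t : ℝ)| := by
    rw [Complex.norm_intCast]
  have hS : (0 : ℝ) ≤ S := Nat.cast_nonneg S
  calc ‖(((p.2 : ℤ) : ℂ) - (t : ℂ) * ((p.1 : ℤ) : ℂ)) + ((p.1 : ℤ) : ℂ) * β‖
      ≤ ‖((p.2 : ℤ) : ℂ) - (t : ℂ) * ((p.1 : ℤ) : ℂ)‖ + ‖((p.1 : ℤ) : ℂ) * β‖ := norm_add_le _ _
    _ ≤ (‖((p.2 : ℤ) : ℂ)‖ + ‖(t : ℂ) * ((p.1 : ℤ) : ℂ)‖) + ‖((p.1 : ℤ) : ℂ) * β‖ := by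
        have := norm_sub_le ((p.2 : ℤ) : ℂ) ((t : ℂ) * ((p.1 : ℤ) : ℂ))
        linarith
    _ = |(p.2 : ℝ)| + |(t : ℝ)| * |(p.1 : ℝ)| + |(p.1 : ℝ)| * ‖β‖ := by
        rw [norm_mul, norm_mul, e1, e2, e3]
    _ ≤ S + |(t : ℝ)| * S + S * ‖β‖ := by
        have := mul_le_mul_of_nonneg_right h1 (norm_nonneg β)
        have h5 := mul_le_mul_of_nonneg_left h1 (abs_nonneg (t : ℝ))
        linarith
    _ = (1 + |(t : ℝ)| + ‖β‖) * S := by ring

lemma l1_cp (hL1 : StmtL1) (D : Dat) {c R : ℝ} (hcA : l1 D.A₀ ≤ c) (hcB : l1 D.B₀ ≤ c)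
    (hc : 1 ≤ c) (hR : 1 ≤ R) {S L₀ T : ℕ} (hL : (L₀ : ℝ) ≤ R ^ 2)
    (hw : ∀ p ∈ circ S, ‖wv D.β p‖ ≤ R) (hz : ∀ p ∈ circ S, ‖zv D.t D.β p‖ ≤ R)
    (r : Ix S L₀) (s : Ix S T) :
    l1 (D.cp r s) ≤ R ^ ((r.1 : ℕ) + (s.1 : ℕ)) * (2 * c) ^ (s.1 : ℕ) := by
  obtain ⟨l0, -, lmul, lC, -, lpow, -, lsum, -, -, -⟩ := hL1
  have hw' := hw r.2.1 r.2.2
  have hz' := hz s.2.1 s.2.2
  have hr : ((r.1 : ℕ) : ℝ) ≤ R ^ 2 :=
    le_trans (by exact_mod_cast le_of_lt r.1.2) hL
  generalize hlam : (r.1 : ℕ) = lam at *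
  generalize htau : (s.1 : ℕ) = tau at *
  unfold Dat.cp
  rw [hlam, htau]
  refine le_trans (lsum ℕ _ _) ?_
  have hc0 : (0 : ℝ) ≤ c := by linarith
  have hR0 : (0 : ℝ) ≤ R := by linarith
  have key : ∀ k ∈ Finset.range (tau + 1),
      l1 (C ((tau.choose k : ℂ) * (lam.descFactorial k : ℂ) *
        zv D.t D.β s.2.1 ^ (lam - k) * wv D.β r.2.1 ^ (tau - k)) *
        D.B₀ ^ (tau - k) * D.A₀ ^ k) ≤ (tau.choose k : ℝ) * (R ^ (lam + tau) * c ^ tau) := by
    intro k hk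
    have hk' : k ≤ tau := Nat.lt_succ_iff.mp (Finset.mem_range.mp hk)
    have hA : l1 (D.A₀ ^ k) ≤ c ^ k :=
      le_trans (lpow _ _) (pow_le_pow_left₀ (l0 _) hcA k)
    have hB : l1 (D.B₀ ^ (tau - k)) ≤ c ^ (tau - k) :=
      le_trans (lpow _ _) (pow_le_pow_left₀ (l0 _) hcB _)
    have hcoef : ‖((tau.choose k : ℂ) * (lam.descFactorial k : ℂ) *
        zv D.t D.β s.2.1 ^ (lam - k) * wv D.β r.2.1 ^ (tau - k))‖ ≤
        (tau.choose k : ℝ) * R ^ (lam + tau) := by
      rw [norm_mul, norm_mul, norm_mul, norm_pow, norm_pow, Complex.norm_natCast,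
        Complex.norm_natCast]
      by_cases hkl : k ≤ lam
      · have h1 : ((lam.descFactorial k : ℕ) : ℝ) ≤ (R ^ 2) ^ k := by
          calc ((lam.descFactorial k : ℕ) : ℝ) ≤ ((lam ^ k : ℕ) : ℝ) := by
                exact_mod_cast Nat.descFactorial_le_pow lam k
            _ = (lam : ℝ) ^ k := by push_cast; rfl
            _ ≤ (R ^ 2) ^ k := pow_le_pow_left₀ (Nat.cast_nonneg _) hr k
        have h2 : ‖zv D.t D.β s.2.1‖ ^ (lam - k) ≤ R ^ (lam - k) :=
          pow_le_pow_left₀ (norm_nonneg _) hz' _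
        have h3 : ‖wv D.β r.2.1‖ ^ (tau - k) ≤ R ^ (tau - k) :=
          pow_le_pow_left₀ (norm_nonneg _) hw' _
        have h4 : (R ^ 2) ^ k * R ^ (lam - k) * R ^ (tau - k) = R ^ (lam + tau) := by
          rw [← pow_mul, ← pow_add, ← pow_add]
          congr 1
          omega
        calc (tau.choose k : ℝ) * (lam.descFactorial k : ℝ) * ‖zv D.t D.β s.2.1‖ ^ (lam - k) *
              ‖wv D.β r.2.1‖ ^ (tau - k)
            = (tau.choose k : ℝ) * ((lam.descFactorial k : ℝ) * ‖zv D.t D.β s.2.1‖ ^ (lam - k) *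
              ‖wv D.β r.2.1‖ ^ (tau - k)) := by ring
          _ ≤ (tau.choose k : ℝ) * ((R ^ 2) ^ k * R ^ (lam - k) * R ^ (tau - k)) := by
              gcongr
          _ = _ := by rw [h4]
      · rw [Nat.descFactorial_of_lt (by omega)]
        simp only [Nat.cast_zero, mul_zero, zero_mul]
        positivity
    calc l1 (C ((tau.choose k : ℂ) * (lam.descFactorial k : ℂ) *
        zv D.t D.β s.2.1 ^ (lam - k) * wv D.β r.2.1 ^ (tau - k)) *
        D.B₀ ^ (tau - k) * D.A₀ ^ k)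
        ≤ l1 (C ((tau.choose k : ℂ) * (lam.descFactorial k : ℂ) *
        zv D.t D.β s.2.1 ^ (lam - k) * wv D.β r.2.1 ^ (tau - k)) *
        D.B₀ ^ (tau - k)) * l1 (D.A₀ ^ k) := lmul _ _
      _ ≤ (l1 (C ((tau.choose k : ℂ) * (lam.descFactorial k : ℂ) *
        zv D.t D.β s.2.1 ^ (lam - k) * wv D.β r.2.1 ^ (tau - k))) *
        l1 (D.B₀ ^ (tau - k))) * l1 (D.A₀ ^ k) :=
          mul_le_mul_of_nonneg_right (lmul _ _) (l0 _)
      _ ≤ ((tau.choose k : ℝ) * R ^ (lam + tau) * c ^ (tau - k)) * c ^ k := by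
          rw [lC]
          apply mul_le_mul _ hA (l0 _) (by positivity)
          exact mul_le_mul hcoef hB (l0 _) (by positivity)
      _ = (tau.choose k : ℝ) * (R ^ (lam + tau) * (c ^ (tau - k) * c ^ k)) := by ring
      _ = (tau.choose k : ℝ) * (R ^ (lam + tau) * c ^ tau) := by
          rw [← pow_add, Nat.sub_add_cancel hk']
  refine le_trans (Finset.sum_le_sum key) ?_
  rw [← Finset.sum_mul]
  have h2 : (∑ i ∈ Finset.range (tau + 1), (tau.choose i : ℝ)) = 2 ^ tau := by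
    exact_mod_cast Nat.sum_range_choose tau
  rw [h2, mul_pow]
  apply le_of_eq
  ring

lemma natDegree_cp (D : Dat) {d : ℕ} (hA : D.A₀.natDegree ≤ d) (hB : D.B₀.natDegree ≤ d)
    {S L₀ T : ℕ} (r : Ix S L₀) (s : Ix S T) :
    (D.cp r s).natDegree ≤ (s.1 : ℕ) * d := by
  unfold Dat.cp
  apply natDegree_sum_le_of_forall_le
  intro k hk
  have hk' : k ≤ (s.1 : ℕ) := Nat.lt_succ_iff.mp (Finset.mem_range.mp hk)
  have h1 : (D.B₀ ^ ((s.1 : ℕ) - k)).natDegree ≤ ((s.1 : ℕ) - k) * d :=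
    le_trans natDegree_pow_le (Nat.mul_le_mul_left _ hB)
  have h2 : (D.A₀ ^ k).natDegree ≤ k * d :=
    le_trans natDegree_pow_le (Nat.mul_le_mul_left _ hA)
  refine le_trans natDegree_mul_le ?_
  refine le_trans (Nat.add_le_add natDegree_mul_le le_rfl) ?_
  rw [natDegree_C, zero_add]
  refine le_trans (Nat.add_le_add h1 h2) ?_
  rw [← Nat.add_mul, Nat.sub_add_cancel hk']

lemma sum_range_id_real (n : ℕ) : (∑ i ∈ Finset.range n, (i : ℝ)) * 2 = n * (n - 1) := by
  induction n with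
  | zero => simp
  | succ n ih =>
    rw [Finset.sum_range_succ, add_mul, ih]
    push_cast
    ring

/-- The sum of the first coordinates. -/
lemma sum_fst (S T : ℕ) :
    (∑ s : Ix S T, ((s.1 : ℕ) : ℝ)) ≤ (circ S).card * ((T : ℝ) ^ 2 / 2) := by
  have h1 : (∑ s : Ix S T, ((s.1 : ℕ) : ℝ)) =
      ∑ i : Fin T, ∑ _p : {p : ℤ × ℤ // p ∈ circ S}, ((i : ℕ) : ℝ) := by
    rw [Fintype.sum_prod_type]
  rw [h1]
  have h2 : ∀ i : Fin T, (∑ _p : {p : ℤ × ℤ // p ∈ circ S}, ((i : ℕ) : ℝ)) =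
      (circ S).card * ((i : ℕ) : ℝ) := by
    intro i
    rw [Finset.sum_const, nsmul_eq_mul, Finset.card_univ, Fintype.card_coe]
  rw [Finset.sum_congr rfl (fun i _ => h2 i), ← Finset.mul_sum]
  apply mul_le_mul_of_nonneg_left _ (Nat.cast_nonneg _)
  rw [Fin.sum_univ_eq_sum_range (fun i => (i : ℝ)) T]
  have h3 := sum_range_id_real T
  have h4 : (0 : ℝ) ≤ T := Nat.cast_nonneg T
  nlinarith

lemma sum_inj {S L₀ T : ℕ} (e : Ix S L₀ → Ix S T) (he : Function.Injective e) :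
    (∑ r, (((e r).1 : ℕ) : ℝ)) ≤ (circ S).card * ((T : ℝ) ^ 2 / 2) := by
  refine le_trans ?_ (sum_fst S T)
  have h1 : (∑ r, (((e r).1 : ℕ) : ℝ)) =
      ∑ s ∈ Finset.univ.map ⟨e, he⟩, ((s.1 : ℕ) : ℝ) := by
    rw [Finset.sum_map]
    rfl
  rw [h1]
  apply Finset.sum_le_sum_of_subset_of_nonneg (Finset.subset_univ _)
  intro i _ _
  exact Nat.cast_nonneg _

lemma card_circ (S : ℕ) : (circ S).card ≤ (2 * S + 1) ^ 2 := by
  unfold circ
  refine le_trans (Finset.card_filter_le _ _) ?_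
  rw [Finset.card_product, Int.card_Icc]
  have : ((S : ℤ) + 1 - (-(S : ℤ))).toNat = 2 * S + 1 := by omega
  rw [this, pow_two]

/-- One term of the determinant. -/
lemma l1_term (hL1 : StmtL1) (D : Dat) {c R M : ℝ} (hcA : l1 D.A₀ ≤ c) (hcB : l1 D.B₀ ≤ c)
    (hc : 1 ≤ c) (hR : 1 ≤ R) (hM₁ : ‖D.a₁‖ ≤ M) (hM₂ : ‖D.a₂‖ ≤ M) (hM : 1 ≤ M)
    {S L₀ T : ℕ} (hL : (L₀ : ℝ) ≤ R ^ 2)
    (hw : ∀ p ∈ circ S, ‖wv D.β p‖ ≤ R) (hz : ∀ p ∈ circ S, ‖zv D.t D.β p‖ ≤ R)
    (e : Ix S L₀ → Ix S T) (OT AT : ℕ) (hG : D.Good e OT AT) (π : Equiv.Perm (Ix S L₀)) :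
    l1 (C (((Equiv.Perm.sign π : ℤ)) : ℂ) * (∏ r, D.cp r (e (π r))) *
      X ^ ((OT : ℤ) + ∑ r, Bf r.2.1 (e (π r)).2.1).toNat *
      C (D.a₁ ^ ((AT : ℤ) + ∑ r, Af D.t D.n r.2.1 (e (π r)).2.1).toNat *
        D.a₂ ^ ((AT : ℤ) - ∑ r, Af D.t D.n r.2.1 (e (π r)).2.1).toNat)) ≤
      R ^ (∑ r : Ix S L₀, (r.1 : ℕ) + ∑ r, ((e r).1 : ℕ)) * (2 * c) ^ (∑ r, ((e r).1 : ℕ)) *
        M ^ (4 * AT) := by
  have hL1' := hL1
  obtain ⟨l0, -, lmul, lC, -, lpow, lXp, lsum, lprod, -, -⟩ := hL1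
  have hR0 : (0 : ℝ) ≤ R := by linarith
  have hc0 : (0 : ℝ) ≤ c := by linarith
  have hM0 : (0 : ℝ) ≤ M := by linarith
  have hperm : ∑ r, ((e (π r)).1 : ℕ) = ∑ r, ((e r).1 : ℕ) :=
    Equiv.sum_comp π (fun r => ((e r).1 : ℕ))
  obtain ⟨-, hA⟩ := hG π
  have hsg : l1 (C (((Equiv.Perm.sign π : ℤ)) : ℂ)) = 1 := by
    rw [lC, Complex.norm_intCast]
    rcases Int.units_eq_one_or (Equiv.Perm.sign π) with h | h <;> rw [h] <;> simp
  have hpr : l1 (∏ r, D.cp r (e (π r))) ≤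
      R ^ (∑ r : Ix S L₀, (r.1 : ℕ) + ∑ r, ((e r).1 : ℕ)) * (2 * c) ^ (∑ r, ((e r).1 : ℕ)) := by
    refine le_trans (lprod (Ix S L₀) Finset.univ _) ?_
    refine le_trans (Finset.prod_le_prod (fun i _ => l0 _) (fun i _ =>
      l1_cp hL1' D hcA hcB hc hR hL hw hz i (e (π i)))) ?_
    rw [Finset.prod_mul_distrib, Finset.prod_pow_eq_pow_sum, Finset.prod_pow_eq_pow_sum,
      Finset.sum_add_distrib, hperm]
  have hca : l1 (C (D.a₁ ^ ((AT : ℤ) + ∑ r, Af D.t D.n r.2.1 (e (π r)).2.1).toNat *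
        D.a₂ ^ ((AT : ℤ) - ∑ r, Af D.t D.n r.2.1 (e (π r)).2.1).toNat)) ≤ M ^ (4 * AT) := by
    rw [lC, norm_mul, norm_pow, norm_pow]
    rw [abs_le] at hA
    obtain ⟨hA1, hA2⟩ := hA
    have i1 : ((AT : ℤ) + ∑ r, Af D.t D.n r.2.1 (e (π r)).2.1).toNat ≤ 2 * AT := by omega
    have i2 : ((AT : ℤ) - ∑ r, Af D.t D.n r.2.1 (e (π r)).2.1).toNat ≤ 2 * AT := by omega
    have j1 : ‖D.a₁‖ ^ ((AT : ℤ) + ∑ r, Af D.t D.n r.2.1 (e (π r)).2.1).toNat ≤ M ^ (2 * AT) :=
      le_trans (pow_le_pow_left₀ (norm_nonneg _) hM₁ _) (pow_le_pow_right₀ hM i1)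
    have j2 : ‖D.a₂‖ ^ ((AT : ℤ) - ∑ r, Af D.t D.n r.2.1 (e (π r)).2.1).toNat ≤ M ^ (2 * AT) :=
      le_trans (pow_le_pow_left₀ (norm_nonneg _) hM₂ _) (pow_le_pow_right₀ hM i2)
    calc _ ≤ M ^ (2 * AT) * M ^ (2 * AT) :=
          mul_le_mul j1 j2 (by positivity) (by positivity)
      _ = M ^ (4 * AT) := by
          rw [← pow_add]
          congr 1
          ring
  refine le_trans (lmul _ _) ?_
  refine mul_le_mul ?_ hca (l0 _) (by positivity)
  refine le_trans (lmul _ _) ?_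
  rw [lXp, mul_one]
  refine le_trans (lmul _ _) ?_
  rw [hsg, one_mul]
  exact hpr

lemma natDegree_term (D : Dat) {d : ℕ} (hA : D.A₀.natDegree ≤ d) (hB : D.B₀.natDegree ≤ d)
    {S L₀ T : ℕ} (e : Ix S L₀ → Ix S T) (OT AT : ℕ) (hG : D.Good e OT AT) :
    (D.DP e OT AT).natDegree ≤ (∑ r, ((e r).1 : ℕ)) * d + 2 * OT := by
  unfold Dat.DP
  apply natDegree_sum_le_of_forall_le
  intro π _
  have hperm : ∑ r, ((e (π r)).1 : ℕ) = ∑ r, ((e r).1 : ℕ) :=
    Equiv.sum_comp π (fun r => ((e r).1 : ℕ))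
  obtain ⟨hO, -⟩ := hG π
  rw [abs_le] at hO
  obtain ⟨hO1, hO2⟩ := hO
  have i1 : ((OT : ℤ) + ∑ r, Bf r.2.1 (e (π r)).2.1).toNat ≤ 2 * OT := by omega
  refine le_trans natDegree_mul_le ?_
  rw [natDegree_C, add_zero]
  refine le_trans natDegree_mul_le ?_
  refine Nat.add_le_add ?_ (le_trans (natDegree_X_pow_le _) i1)
  refine le_trans natDegree_mul_le ?_
  rw [natDegree_C, zero_add]
  refine le_trans (natDegree_prod_le _ _) ?_
  rw [← hperm, Finset.sum_mul]
  exact Finset.sum_le_sum (fun r _ => natDegree_cp D hA hB r (e (π r)))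

lemma l1_DP (hL1 : StmtL1) (D : Dat) {c R M : ℝ} (hcA : l1 D.A₀ ≤ c) (hcB : l1 D.B₀ ≤ c)
    (hc : 1 ≤ c) (hR : 1 ≤ R) (hM₁ : ‖D.a₁‖ ≤ M) (hM₂ : ‖D.a₂‖ ≤ M) (hM : 1 ≤ M)
    {S L₀ T : ℕ} (hL : (L₀ : ℝ) ≤ R ^ 2)
    (hw : ∀ p ∈ circ S, ‖wv D.β p‖ ≤ R) (hz : ∀ p ∈ circ S, ‖zv D.t D.β p‖ ≤ R)
    (e : Ix S L₀ → Ix S T) (OT AT : ℕ) (hG : D.Good e OT AT) :
    l1 (D.DP e OT AT) ≤ ((L₀ * (circ S).card).factorial : ℝ) *
      (R ^ (∑ r : Ix S L₀, (r.1 : ℕ) + ∑ r, ((e r).1 : ℕ)) * (2 * c) ^ (∑ r, ((e r).1 : ℕ)) *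
        M ^ (4 * AT)) := by
  have hL1' := hL1
  obtain ⟨-, -, -, -, -, -, -, lsum, -, -, -⟩ := hL1
  unfold Dat.DP
  refine le_trans (lsum (Equiv.Perm (Ix S L₀)) Finset.univ _) ?_
  refine le_trans (Finset.sum_le_card_nsmul _ _ _ (fun π _ =>
    l1_term hL1' D hcA hcB hc hR hM₁ hM₂ hM hL hw hz e OT AT hG π)) ?_
  rw [nsmul_eq_mul, Finset.card_univ, Fintype.card_perm, Fintype.card_prod, Fintype.card_fin,
    Fintype.card_coe]

lemma sq_bd {ε L T : ℝ} (h0 : 0 ≤ T) (h : T ≤ (1 + ε) * L) :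
    T ^ 2 ≤ (1 + ε) ^ 2 * L ^ 2 := by
  have := pow_le_pow_left₀ h0 h 2
  rwa [mul_pow] at this

lemma aux1 {s x : ℝ} (h : 0 ≤ x) (hs : 0 ≤ s) : s ≤ (1 + x) * s := by
  have := mul_nonneg h hs
  linarith

lemma aux2 {x s : ℝ} (hx : x ≤ 1) (hs : 0 ≤ s) : x * s ≤ s := by
  have := mul_le_mul_of_nonneg_right hx hs
  linarith

lemma aux3 {ε : ℝ} (h : 0 < ε) (h1 : ε < 1) : (1 + ε) ^ 2 ≤ 4 := by
  have := mul_le_mul_of_nonneg_left h1.le h.le
  linarith

lemma aux4 {d L s : ℝ} (hL : 0 ≤ L) (h : L * (2 * (d + 1)) ≤ s) : d * (2 * L) ≤ s := by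
  linarith

lemma aux5 {K S : ℝ} (hK : 1 ≤ K) (hS : 9 ≤ S) : 1 ≤ K * S := by
  have := mul_le_mul hK hS (by norm_num) (by linarith)
  linarith

lemma aux6 {K S : ℝ} (hK : 1 ≤ K ^ 2) : S ^ 2 ≤ K ^ 2 * S ^ 2 := by
  have := mul_le_mul_of_nonneg_right hK (sq_nonneg S)
  linarith

lemma aux7 {S : ℝ} (h : 9 ≤ S) : (2 * S + 1) ^ 2 ≤ S ^ 3 := by
  have h1 : 9 * S ^ 2 ≤ S * S ^ 2 := mul_le_mul_of_nonneg_right h (sq_nonneg S)
  have h2 : 9 * S ≤ S * S := mul_le_mul_of_nonneg_right h (by linarith)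
  linarith

/-- The elementary estimates. -/
lemma arith {ε A L T lS lK lc lM Λ Θ F CA S2 AT C₁ : ℝ} (hε : 0 < ε) (hε1 : ε < 1) (hA : 0 ≤ A)
    (hL : 0 ≤ L) (hT0 : 0 ≤ T) (hT : T ≤ (1 + ε) * L) (hlS : 0 ≤ lS) (hlK : 10 * lK ≤ ε * lS)
    (hlK0 : 0 ≤ lK) (hlc : 8 * lc ≤ ε * lS) (hlc0 : 0 ≤ lc) (hlM0 : 0 ≤ lM) (hΛ : Λ ≤ A * (L ^ 2 / 2)) (hΘ : Θ ≤ A * (T ^ 2 / 2))
    (hF : F ≤ L * A * (5 * lS)) (hLε : 10 ≤ ε * L) (hAT : AT ≤ CA * S2 * (L * A))
    (hC : 8 * CA * lM ≤ ε * C₁) (hS2 : 0 ≤ S2) (hC₁ : C₁ * S2 ≤ L * lS) :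
    F + ((Λ + Θ) * (lS + lK) + Θ * lc + 4 * AT * lM) ≤
      (1 + 4 * ε) * (L * A) * (L * lS) := by
  have hN : 0 ≤ L * A := mul_nonneg hL hA
  have hT2 : T ^ 2 ≤ (1 + ε) ^ 2 * L ^ 2 := sq_bd hT0 hT
  have hΘ2 : Θ ≤ (L * A) * (L * ((1 + ε) ^ 2 / 2)) := by
    have := mul_le_mul_of_nonneg_left hT2 hA
    linarith only [this, hΘ]
  have hΛ2 : Λ ≤ (L * A) * (L / 2) := by linarith only [hΛ]
  have hLN : 0 ≤ L * A * L := mul_nonneg hN hL
  have hQ : 0 ≤ L * A * (L * lS) := mul_nonneg hN (mul_nonneg hL hlS)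
  have p1 : F ≤ ε / 2 * (L * A * (L * lS)) := by
    have h1 : 5 * lS ≤ ε / 2 * (L * lS) := by
      have := mul_le_mul_of_nonneg_right hLε hlS
      linarith only [this]
    have h2 := mul_le_mul_of_nonneg_left h1 hN
    linarith only [h2, hF]
  have hsum : Λ + Θ ≤ (L * A * L) * (1 + 3 / 2 * ε) := by
    have : L * A * L * (1 / 2 + (1 + ε) ^ 2 / 2) ≤ L * A * L * (1 + 3 / 2 * ε) := by
      apply mul_le_mul_of_nonneg_left _ hLN
      have := mul_le_mul_of_nonneg_left hε1.le hε.le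
      linarith only [this]
    linarith only [this, hΛ2, hΘ2]
  have p2 : (Λ + Θ) * (lS + lK) ≤ (1 + 7 / 4 * ε) * (L * A * (L * lS)) := by
    have h1 : lS + lK ≤ (1 + ε / 10) * lS := by linarith
    have h2 : (Λ + Θ) * (lS + lK) ≤ ((L * A * L) * (1 + 3 / 2 * ε)) * ((1 + ε / 10) * lS) := by
      apply mul_le_mul hsum h1 (by linarith) (by positivity)
    refine le_trans h2 ?_
    have h3 : (1 + 3 / 2 * ε) * (1 + ε / 10) ≤ 1 + 7 / 4 * ε := by
      have := mul_le_mul_of_nonneg_left hε1.le hε.le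
      linarith only [this, hε]
    have h4 := mul_le_mul_of_nonneg_right h3 hQ
    calc ((L * A * L) * (1 + 3 / 2 * ε)) * ((1 + ε / 10) * lS)
        = (1 + 3 / 2 * ε) * (1 + ε / 10) * (L * A * (L * lS)) := by ring
      _ ≤ _ := h4
  have p3 : Θ * lc ≤ ε / 4 * (L * A * (L * lS)) := by
    have h0 : Θ ≤ (L * A * L) * 2 := by
      refine le_trans hΘ2 ?_
      have : (1 + ε) ^ 2 / 2 ≤ 2 := by
        have := mul_le_mul_of_nonneg_left hε1.le hε.le
        linarith only [this, hε1]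
      have := mul_le_mul_of_nonneg_left this hLN
      calc _ = L * A * L * ((1 + ε) ^ 2 / 2) := by ring
        _ ≤ _ := this
    have h1 : Θ * lc ≤ (L * A * L) * 2 * lc := mul_le_mul_of_nonneg_right h0 hlc0
    have h2 := mul_le_mul_of_nonneg_left hlc hLN
    calc Θ * lc ≤ (L * A * L) * 2 * lc := h1
      _ = (L * A * L * (8 * lc)) / 4 := by ring
      _ ≤ (L * A * L * (ε * lS)) / 4 := by linarith
      _ = _ := by ring
  have p4 : 4 * AT * lM ≤ ε / 2 * (L * A * (L * lS)) := by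
    have h1 : 4 * AT * lM ≤ 4 * (CA * S2 * (L * A)) * lM := by
      apply mul_le_mul_of_nonneg_right _ hlM0
      linarith
    have h2 : (8 * CA * lM) * S2 ≤ ε * (L * lS) := by
      calc (8 * CA * lM) * S2 ≤ (ε * C₁) * S2 := mul_le_mul_of_nonneg_right hC hS2
        _ = ε * (C₁ * S2) := by ring
        _ ≤ ε * (L * lS) := mul_le_mul_of_nonneg_left hC₁ hε.le
    have h3 := mul_le_mul_of_nonneg_left h2 hN
    calc 4 * AT * lM ≤ 4 * (CA * S2 * (L * A)) * lM := h1
      _ = (L * A * ((8 * CA * lM) * S2)) / 2 := by ring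
      _ ≤ (L * A * (ε * (L * lS))) / 2 := by linarith
      _ = _ := by ring
  have p5 := mul_nonneg hε.le hQ
  linarith

end Height

/-- Degree and height of the determinant polynomial. -/
theorem height (hL1 : StmtL1) (_hCount : StmtCount) : StmtHeight := by
  intro D CA ε hε hε1
  have l0 : ∀ P : ℂ[X], 0 ≤ l1 P := hL1.1
  obtain ⟨c, hc⟩ : ∃ c : ℝ, c = 1 + l1 D.A₀ + l1 D.B₀ := ⟨_, rfl⟩
  obtain ⟨K, hK⟩ : ∃ K : ℝ, K = 1 + |(D.t : ℝ)| + ‖D.β‖ := ⟨_, rfl⟩
  obtain ⟨M, hM⟩ : ∃ M : ℝ, M = 1 + ‖D.a₁‖ + ‖D.a₂‖ := ⟨_, rfl⟩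
  obtain ⟨d, hd⟩ : ∃ d : ℕ, d = D.A₀.natDegree + D.B₀.natDegree := ⟨_, rfl⟩
  have hA0 := l0 D.A₀
  have hB0 := l0 D.B₀
  have hcA : l1 D.A₀ ≤ c := by linarith
  have hcB : l1 D.B₀ ≤ c := by linarith
  have hc1 : 1 ≤ c := by linarith
  have hK1 : 1 ≤ K := by
    have := abs_nonneg (D.t : ℝ)
    have := norm_nonneg D.β
    linarith
  have n1 := norm_nonneg D.a₁
  have n2 := norm_nonneg D.a₂
  have hM₁ : ‖D.a₁‖ ≤ M := by linarith
  have hM₂ : ‖D.a₂‖ ≤ M := by linarith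
  have hM1 : 1 ≤ M := by linarith
  have hlM : 0 ≤ Real.log M := Real.log_nonneg hM1
  have hlK : 0 ≤ Real.log K := Real.log_nonneg hK1
  have hlc : 0 ≤ Real.log (2 * c) := Real.log_nonneg (by linarith)
  have hev : ∀ᶠ S : ℕ in atTop, 9 ≤ S ∧ 10 / ε ≤ (S : ℝ) ∧
      10 / ε * Real.log K ≤ Real.log (S : ℝ) ∧ 8 / ε * Real.log (2 * c) ≤ Real.log (S : ℝ) := by
    have hlog : Tendsto (fun S : ℕ => Real.log (S : ℝ)) atTop atTop :=
      Real.tendsto_log_atTop.comp tendsto_natCast_atTop_atTop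
    filter_upwards [eventually_ge_atTop 9,
      (tendsto_natCast_atTop_atTop (R := ℝ)).eventually_ge_atTop (10 / ε),
      hlog.eventually_ge_atTop (10 / ε * Real.log K),
      hlog.eventually_ge_atTop (8 / ε * Real.log (2 * c))] with S h1 h2 h3 h4
    exact ⟨h1, h2, h3, h4⟩
  obtain ⟨S₁, hS₁⟩ := eventually_atTop.mp hev
  refine ⟨1 + 8 * CA * Real.log M / ε, ε / (2 * (d + 1)), S₁, by positivity, by positivity, ?_⟩
  intro S L₀ T hS hC₁ hc₁ hT e he OT AT hOT hAT hG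
  obtain ⟨hS9, hSε, hSK, hSc⟩ := hS₁ S hS
  have hS9' : (9 : ℝ) ≤ S := by exact_mod_cast hS9
  have hlS : 0 < Real.log (S : ℝ) := Real.log_pos (by linarith)
  have hL0 : (0 : ℝ) ≤ L₀ := Nat.cast_nonneg _
  have hT0 : (0 : ℝ) ≤ T := Nat.cast_nonneg _
  have hA : (0 : ℝ) ≤ (circ S).card := Nat.cast_nonneg _
  have hd0 : (0 : ℝ) ≤ d := Nat.cast_nonneg _
  have hlSS : Real.log (S : ℝ) ≤ S := by
    have := Real.log_le_sub_one_of_pos (show (0 : ℝ) < S by linarith)
    linarith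
  have hS2 : (0 : ℝ) ≤ (S : ℝ) ^ 2 := by positivity
  have hLS : (S : ℝ) ≤ L₀ := by
    by_contra hcon
    push Not at hcon
    have h1 : (L₀ : ℝ) * Real.log S < S * S := by
      have h2 : (L₀ : ℝ) * Real.log S ≤ L₀ * S := mul_le_mul_of_nonneg_left hlSS hL0
      have h3 : (L₀ : ℝ) * S < S * S := mul_lt_mul_of_pos_right hcon (by linarith)
      linarith
    have h4 : (S : ℝ) ^ 2 ≤ (1 + 8 * CA * Real.log M / ε) * (S : ℝ) ^ 2 := by
      have : 0 ≤ 8 * CA * Real.log M / ε := by positivity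
      exact Height.aux1 this hS2
    linarith only [h1, h4, hC₁]
  have hLS2 : (L₀ : ℝ) ≤ (S : ℝ) ^ 2 := by
    refine le_trans hc₁ ?_
    have : ε / (2 * (d + 1)) ≤ 1 := by
      rw [div_le_one (by positivity)]
      linarith
    exact Height.aux2 this hS2
  -- the sums
  have hΘ := Height.sum_inj e he
  have hΛ := Height.sum_fst S L₀
  obtain ⟨Th, hTh⟩ : ∃ n : ℕ, n = ∑ r, ((e r).1 : ℕ) := ⟨_, rfl⟩
  obtain ⟨La, hLa⟩ : ∃ n : ℕ, n = ∑ r : Ix S L₀, (r.1 : ℕ) := ⟨_, rfl⟩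
  have hTh' : (Th : ℝ) = ∑ r, (((e r).1 : ℕ) : ℝ) := by
    rw [hTh]
    push_cast
    rfl
  have hLa' : (La : ℝ) = ∑ r : Ix S L₀, (((r.1 : ℕ)) : ℝ) := by
    rw [hLa]
    push_cast
    rfl
  rw [← hTh'] at hΘ
  rw [← hLa'] at hΛ
  constructor
  · have h1 := Height.natDegree_term D (d := d) (by omega) (by omega) e OT AT hG
    rw [← hTh] at h1
    have h2 : ((D.DP e OT AT).natDegree : ℝ) ≤ Th * d + 2 * OT := by exact_mod_cast h1
    have h3 : (T : ℝ) ^ 2 ≤ (1 + ε) ^ 2 * (L₀ : ℝ) ^ 2 := Height.sq_bd hT0 hT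
    have h4 : (Th : ℝ) ≤ (circ S).card * (2 * (L₀ : ℝ) ^ 2) := by
      refine le_trans hΘ ?_
      apply mul_le_mul_of_nonneg_left _ hA
      have h31 : (1 + ε) ^ 2 ≤ 4 := Height.aux3 hε hε1
      have h32 := mul_le_mul_of_nonneg_right h31 (sq_nonneg (L₀ : ℝ))
      linarith
    have h5 : (d : ℝ) * (2 * L₀) ≤ ε * (S : ℝ) ^ 2 := by
      have h6 : (L₀ : ℝ) * (2 * (d + 1)) ≤ ε * (S : ℝ) ^ 2 := by
        have := mul_le_mul_of_nonneg_right hc₁ (show (0 : ℝ) ≤ 2 * (d + 1) by positivity)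
        calc _ ≤ ε / (2 * (d + 1)) * (S : ℝ) ^ 2 * (2 * (d + 1)) := this
          _ = ε * (S : ℝ) ^ 2 := by field_simp
      exact Height.aux4 hL0 h6
    have h7 : (Th : ℝ) * d ≤ ε * (S : ℝ) ^ 2 * (L₀ * (circ S).card) := by
      have h8 := mul_le_mul_of_nonneg_right h4 hd0
      have h9 := mul_le_mul_of_nonneg_right h5 (mul_nonneg hL0 hA)
      calc (Th : ℝ) * d ≤ (circ S).card * (2 * (L₀ : ℝ) ^ 2) * d := h8
        _ = (d : ℝ) * (2 * L₀) * (L₀ * (circ S).card) := by ring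
        _ ≤ _ := h9
    calc ((D.DP e OT AT).natDegree : ℝ) ≤ Th * d + 2 * OT := h2
      _ ≤ ε * (S : ℝ) ^ 2 * (L₀ * (circ S).card) +
          2 * ((1 + ε) / 2 * S ^ 2 * (L₀ * (circ S).card)) := by linarith
      _ = (1 + 2 * ε) * (L₀ * (circ S).card) * S ^ 2 := by ring
  · have hR : 1 ≤ K * S := Height.aux5 hK1 hS9'
    have hLR : (L₀ : ℝ) ≤ (K * S) ^ 2 := by
      refine le_trans hLS2 ?_
      rw [mul_pow]
      have : (1 : ℝ) ≤ K ^ 2 := one_le_pow₀ hK1
      exact Height.aux6 this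
    have hw : ∀ p ∈ circ S, ‖wv D.β p‖ ≤ K * S := fun p hp => by
      rw [hK]
      exact Height.norm_wv D.β D.t hp
    have hz : ∀ p ∈ circ S, ‖zv D.t D.β p‖ ≤ K * S := fun p hp => by
      rw [hK]
      exact Height.norm_zv D.β D.t hp
    refine le_trans (Height.l1_DP hL1 D hcA hcB hc1 hR hM₁ hM₂ hM1 hLR hw hz e OT AT hG) ?_
    rw [← hTh, ← hLa]
    have hfac : (0 : ℝ) < ((L₀ * (circ S).card).factorial : ℝ) := by
      exact_mod_cast Nat.factorial_pos _
    have hR0 : (0 : ℝ) < K * S := by linarith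
    have hB : (0 : ℝ) < ((L₀ * (circ S).card).factorial : ℝ) *
        ((K * S) ^ (La + Th) * (2 * c) ^ Th * M ^ (4 * AT)) := by positivity
    rw [← Real.log_le_iff_le_exp hB]
    rw [Real.log_mul hfac.ne' (by positivity), Real.log_mul (by positivity) (by positivity),
      Real.log_mul (by positivity) (by positivity), Real.log_pow, Real.log_pow, Real.log_pow,
      Real.log_mul (by positivity) (by positivity)]
    have hF : Real.log ((L₀ * (circ S).card).factorial : ℝ) ≤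
        L₀ * (circ S).card * (5 * Real.log S) := by
      rcases Nat.eq_zero_or_pos (L₀ * (circ S).card) with h0 | h0
      · rw [h0]
        simp only [Nat.factorial_zero, Nat.cast_one, Real.log_one]
        positivity
      · have h1 : ((L₀ * (circ S).card).factorial : ℝ) ≤
            ((L₀ * (circ S).card : ℕ) : ℝ) ^ (L₀ * (circ S).card) := by
          exact_mod_cast Nat.factorial_le_pow _
        have h2 : ((L₀ * (circ S).card : ℕ) : ℝ) ≤ (S : ℝ) ^ 5 := by
          have h3 : ((circ S).card : ℝ) ≤ (2 * S + 1) ^ 2 := by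
            exact_mod_cast Height.card_circ S
          have h4 : ((2 : ℝ) * S + 1) ^ 2 ≤ (S : ℝ) ^ 3 := Height.aux7 hS9'
          push_cast
          calc (L₀ : ℝ) * (circ S).card ≤ (S : ℝ) ^ 2 * (S : ℝ) ^ 3 :=
                mul_le_mul hLS2 (le_trans h3 h4) hA hS2
            _ = (S : ℝ) ^ 5 := by ring
        have h5 : Real.log ((L₀ * (circ S).card).factorial : ℝ) ≤
            ((L₀ * (circ S).card : ℕ) : ℝ) * Real.log ((L₀ * (circ S).card : ℕ) : ℝ) := by
          rw [← Real.log_pow]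
          exact Real.log_le_log hfac h1
        have h6 : Real.log ((L₀ * (circ S).card : ℕ) : ℝ) ≤ 5 * Real.log S := by
          have := Real.log_le_log (by exact_mod_cast h0) h2
          rw [Real.log_pow] at this
          exact_mod_cast this
        refine le_trans h5 ?_
        have := mul_le_mul_of_nonneg_left h6
          (show (0 : ℝ) ≤ ((L₀ * (circ S).card : ℕ) : ℝ) from Nat.cast_nonneg _)
        push_cast at this ⊢
        exact this
    have hAT' : (AT : ℝ) ≤ CA * (S : ℝ) ^ 2 * (L₀ * (circ S).card) := by exact_mod_cast hAT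
    have hfin := Height.arith (ε := ε) (A := (circ S).card) (L := L₀) (T := T)
      (lS := Real.log S) (lK := Real.log K) (lc := Real.log (2 * c)) (lM := Real.log M)
      (Λ := La) (Θ := Th) (F := Real.log ((L₀ * (circ S).card).factorial : ℝ)) (CA := CA)
      (S2 := (S : ℝ) ^ 2) (AT := AT) (C₁ := 1 + 8 * CA * Real.log M / ε) hε hε1 hA hL0 hT0 hT
      hlS.le
      (by
        have := mul_le_mul_of_nonneg_left hSK hε.le
        calc 10 * Real.log K = ε * (10 / ε * Real.log K) := by field_simp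
          _ ≤ _ := this)
      hlK
      (by
        have := mul_le_mul_of_nonneg_left hSc hε.le
        calc 8 * Real.log (2 * c) = ε * (8 / ε * Real.log (2 * c)) := by field_simp
          _ ≤ _ := this)
      hlc hlM hΛ hΘ hF
      (by
        have h1 : 10 / ε ≤ L₀ := le_trans hSε hLS
        have := mul_le_mul_of_nonneg_left h1 hε.le
        calc (10 : ℝ) = ε * (10 / ε) := by field_simp
          _ ≤ _ := this)
      hAT'
      (by
        have : ε * (1 + 8 * CA * Real.log M / ε) = ε + 8 * CA * Real.log M := by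
          field_simp
        rw [this]
        linarith)
      hS2 hC₁
    push_cast
    calc _ = Real.log ((L₀ * (circ S).card).factorial : ℝ) +
          (((La : ℝ) + Th) * (Real.log S + Real.log K) + Th * Real.log (2 * c) +
            4 * AT * Real.log M) := by ring
      _ ≤ _ := hfin

end GSL

end
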