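import Mathlib
import Pool.Agent.Work.MP_327059_nt.Stmts
import Pool.Agent.Work.MP_327059_nt.QF.StmtsA

/-! Bundle of small proof modules (one section per former module). -/

section

/-! Bundle of small proof modules (one section per former module). -/

section

/-!
# MP_327059_nt : the value of the determinant polynomial
-/

open Polynomial

namespace GSL

namespace Eval

theorem prod_zpow {ι : Type*} (s : Finset ι) (f : ι → ℤ) {a : ℂ} (ha : a ≠ 0) :
    ∏ i ∈ s, a ^ f i = a ^ ∑ i ∈ s, f i := by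
  classical
  induction s using Finset.induction_on with
  | empty => simp
  | insert b s hb ih => rw [Finset.prod_insert hb, Finset.sum_insert hb, zpow_add₀ ha, ih]

theorem cp_eval (D : Dat) {S L₀ T : ℕ} (r : Ix S L₀) (s : Ix S T) {y : ℂ}
    (hy : D.A₀.eval y ≠ 0) :
    (D.cp r s).eval y = D.A₀.eval y ^ (s.1 : ℕ) *
      ent0 (D.B₀.eval y / D.A₀.eval y) (wv D.β r.2.1) (zv D.t D.β s.2.1) r.1 s.1 := by
  unfold Dat.cp ent0
  rw [eval_finsetSum, Finset.mul_sum]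
  refine Finset.sum_congr rfl fun k hk => ?_
  rw [Finset.mem_range] at hk
  obtain ⟨j, hj⟩ : ∃ j, (s.1 : ℕ) = k + j := Nat.exists_eq_add_of_le (by omega)
  simp only [eval_mul, eval_C, eval_pow]
  rw [hj, Nat.add_sub_cancel_left, pow_add, mul_pow, div_pow]
  field_simp

end Eval

theorem eval : StmtEval := by
  intro D S L₀ T e OT AT hG y hy hA
  have ha1 := D.a₁_ne
  have ha2 := D.a₂_ne
  unfold Dat.DP
  rw [eval_finsetSum, Matrix.det_apply, Finset.mul_sum]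
  refine Finset.sum_congr rfl fun π _ => ?_
  obtain ⟨h1, h2⟩ := hG π
  rw [abs_le] at h1 h2
  have hB : ((OT : ℤ) + ∑ r, Bf r.2.1 (e (π r)).2.1).toNat =
      (OT : ℤ) + ∑ r, Bf r.2.1 (e (π r)).2.1 := Int.toNat_of_nonneg (by linarith)
  have hA1 : ((AT : ℤ) + ∑ r, Af D.t D.n r.2.1 (e (π r)).2.1).toNat =
      (AT : ℤ) + ∑ r, Af D.t D.n r.2.1 (e (π r)).2.1 := Int.toNat_of_nonneg (by linarith)
  have hA2 : ((AT : ℤ) - ∑ r, Af D.t D.n r.2.1 (e (π r)).2.1).toNat =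
      (AT : ℤ) - ∑ r, Af D.t D.n r.2.1 (e (π r)).2.1 := Int.toNat_of_nonneg (by linarith)
  have e1 : y ^ ((OT : ℤ) + ∑ r, Bf r.2.1 (e (π r)).2.1).toNat =
      y ^ OT * ∏ r, y ^ Bf r.2.1 (e (π r)).2.1 := by
    rw [Eval.prod_zpow _ _ hy, ← zpow_natCast, hB, zpow_add₀ hy, zpow_natCast]
  have e2 : D.a₁ ^ ((AT : ℤ) + ∑ r, Af D.t D.n r.2.1 (e (π r)).2.1).toNat *
      D.a₂ ^ ((AT : ℤ) - ∑ r, Af D.t D.n r.2.1 (e (π r)).2.1).toNat =
      (D.a₁ * D.a₂) ^ AT * ∏ r, (D.a₁ / D.a₂) ^ Af D.t D.n r.2.1 (e (π r)).2.1 := by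
    rw [Eval.prod_zpow _ _ (div_ne_zero ha1 ha2), ← zpow_natCast, ← zpow_natCast, hA1, hA2,
      zpow_add₀ ha1, zpow_sub₀ ha2, zpow_natCast, zpow_natCast, div_zpow, mul_pow]
    field_simp
  have e3 : ∏ r, (D.cp r (e (π r))).eval y = (∏ r, D.A₀.eval y ^ ((e r).1 : ℕ)) *
      ∏ r, ent0 (D.B₀.eval y / D.A₀.eval y) (wv D.β r.2.1) (zv D.t D.β (e (π r)).2.1) r.1
        (e (π r)).1 := by
    rw [← Equiv.prod_comp π fun r => D.A₀.eval y ^ ((e r).1 : ℕ), ← Finset.prod_mul_distrib]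
    exact Finset.prod_congr rfl fun r _ => Eval.cp_eval D _ _ hA
  simp only [eval_mul, eval_C, eval_prod, eval_pow, eval_X]
  rw [e1, e2, e3]
  have e4 : ∏ i, Matrix.of (fun s r : Ix S L₀ =>
      D.ent (D.B₀.eval y / D.A₀.eval y) y r (e s)) (π i) i =
      (∏ r, ent0 (D.B₀.eval y / D.A₀.eval y) (wv D.β r.2.1) (zv D.t D.β (e (π r)).2.1) r.1
        (e (π r)).1) * ((∏ r, (D.a₁ / D.a₂) ^ Af D.t D.n r.2.1 (e (π r)).2.1) *
          ∏ r, y ^ Bf r.2.1 (e (π r)).2.1) := by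
    rw [← Finset.prod_mul_distrib, ← Finset.prod_mul_distrib]
    rfl
  rw [e4, Units.smul_def, zsmul_eq_mul]
  ring

end GSL

end

section

/-!
# MP_327059_nt : bounds for the expansion of the entries
-/

namespace GSL.ExpBd

theorem h1 {lam tau c : ℕ} {d y : ℝ} (hd : 0 ≤ d) (hs : (lam : ℝ) * tau * d ≤ Real.exp (-y)) :
    (lam.choose c : ℝ) * (tau.descFactorial c : ℝ) * d ^ c ≤ Real.exp (-(y * c)) := by
  have e1 : (lam.choose c : ℝ) ≤ (lam : ℝ) ^ c := by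
    have : lam.choose c ≤ lam ^ c := by
      have h := Nat.choose_le_descFactorial lam c
      exact h.trans (Nat.descFactorial_le_pow lam c)
    exact_mod_cast this
  have e2 : (tau.descFactorial c : ℝ) ≤ (tau : ℝ) ^ c := by
    exact_mod_cast Nat.descFactorial_le_pow tau c
  calc (lam.choose c : ℝ) * (tau.descFactorial c : ℝ) * d ^ c
      ≤ (lam : ℝ) ^ c * (tau : ℝ) ^ c * d ^ c := by gcongr
    _ = ((lam : ℝ) * tau * d) ^ c := by ring
    _ ≤ (Real.exp (-y)) ^ c := by gcongr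
    _ = Real.exp (-(y * c)) := by
        rw [← Real.exp_nat_mul]
        ring_nf

theorem h2 {W e Z R y : ℝ} (hW0 : 0 ≤ W) (he : 0 ≤ e) (hZ0 : 0 ≤ Z) (hW : W ≤ R) (hZ : Z ≤ R)
    (hR : 1 ≤ R) (hs : R ^ 2 * e ≤ Real.exp (-y)) (b : ℕ) :
    (W * e) ^ b / (b.factorial : ℝ) * Z ^ b ≤ Real.exp (-(y * b)) := by
  have hb : (1 : ℝ) ≤ (b.factorial : ℝ) := by exact_mod_cast Nat.one_le_iff_ne_zero.2 (Nat.factorial_ne_zero b)
  calc (W * e) ^ b / (b.factorial : ℝ) * Z ^ b ≤ (W * e) ^ b / 1 * Z ^ b := by gcongr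
    _ = (W * Z * e) ^ b := by ring
    _ ≤ (R * R * e) ^ b := by gcongr
    _ = (R ^ 2 * e) ^ b := by ring
    _ ≤ (Real.exp (-y)) ^ b := by gcongr
    _ = Real.exp (-(y * b)) := by
        rw [← Real.exp_nat_mul]
        ring_nf

theorem h3 {σ : ℝ} (hσ : 0 ≤ σ) {j tau : ℕ} (hj : j ≤ tau) : σ ^ j ≤ (max 1 σ) ^ tau := by
  calc σ ^ j ≤ (max 1 σ) ^ j := by gcongr; exact le_max_right _ _
    _ ≤ (max 1 σ) ^ tau := pow_le_pow_right₀ (le_max_left _ _) hj

theorem h4 {W Z R E Lp : ℝ} (hW0 : 0 ≤ W) (hZ0 : 0 ≤ Z) (hL : 0 ≤ Lp) (hW : W ≤ R) (hZ : Z ≤ R)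
    (hR : 1 ≤ R) (hE : 1 ≤ E) {a c lam tau : ℕ} (hc1 : c ≤ lam) (hc2 : lam - c ≤ a)
    (hc3 : c ≤ tau) (hc4 : tau - c ≤ a) (htau : (tau : ℝ) ≤ R ^ 2) :
    (W * Lp) ^ (a - (lam - c)) / ((a - (lam - c)).factorial : ℝ) *
      (a.descFactorial (tau - c) : ℝ) * Z ^ (a - (tau - c)) ≤
      Real.exp (2 * R ^ 2 * E * Lp) * (2 * R * E) ^ lam * R ^ tau *
        Real.exp (-(Real.log E * a)) := by
  set i := a - (lam - c) with hi
  set j := tau - c with hj
  have hR0 : 0 < R := by linarith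
  have hE0 : 0 < E := by linarith
  have hai : a = i + (lam - c) := by omega
  have hjt : j ≤ tau := by omega
  -- descending factorial
  have e1 : (a.descFactorial j : ℝ) ≤ 2 ^ a * R ^ (2 * j) := by
    have f1 : a.descFactorial j = j.factorial * a.choose j := Nat.descFactorial_eq_factorial_mul_choose a j
    have f2 : (a.choose j : ℝ) ≤ 2 ^ a := by
      have : a.choose j ≤ 2 ^ a := Nat.choose_le_two_pow a j
      exact_mod_cast this
    have f3 : (j.factorial : ℝ) ≤ (j : ℝ) ^ j := by exact_mod_cast Nat.factorial_le_pow j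
    have f4 : (j : ℝ) ≤ R ^ 2 := by
      have : (j : ℝ) ≤ tau := by exact_mod_cast hjt
      linarith
    rw [f1]
    push_cast
    calc (j.factorial : ℝ) * (a.choose j : ℝ) ≤ (j : ℝ) ^ j * 2 ^ a := by gcongr
      _ ≤ (R ^ 2) ^ j * 2 ^ a := by gcongr
      _ = 2 ^ a * R ^ (2 * j) := by rw [← pow_mul]; ring
  have e2 : (a.descFactorial j : ℝ) * Z ^ (a - j) ≤ (2 * R) ^ a * R ^ tau := by
    calc (a.descFactorial j : ℝ) * Z ^ (a - j) ≤ (2 ^ a * R ^ (2 * j)) * R ^ (a - j) := by gcongr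
      _ = 2 ^ a * (R ^ (2 * j) * R ^ (a - j)) := by ring
      _ = 2 ^ a * (R ^ a * R ^ j) := by
          rw [← pow_add, ← pow_add]
          congr 2
          omega
      _ ≤ 2 ^ a * (R ^ a * R ^ tau) := by
          gcongr
      _ = (2 * R) ^ a * R ^ tau := by rw [mul_pow]; ring
  have e3 : Real.exp (-(Real.log E * a)) = (E ^ a)⁻¹ := by
    rw [Real.exp_neg, mul_comm, Real.exp_nat_mul, Real.exp_log hE0]
  have e4 : (2 * R) ^ a = (2 * R * E) ^ i * (2 * R * E) ^ (lam - c) * (E ^ a)⁻¹ := by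
    rw [← pow_add, ← hai, mul_pow (2 * R) E a]
    field_simp
  have e5 : (2 * R * E) ^ (lam - c) ≤ (2 * R * E) ^ lam := by
    apply pow_le_pow_right₀ _ (Nat.sub_le _ _)
    nlinarith
  have e6 : (2 * R ^ 2 * E * Lp) ^ i / (i.factorial : ℝ) ≤ Real.exp (2 * R ^ 2 * E * Lp) :=
    Real.pow_div_factorial_le_exp _ (by positivity) i
  calc (W * Lp) ^ i / (i.factorial : ℝ) * (a.descFactorial j : ℝ) * Z ^ (a - j)
      = (W * Lp) ^ i / (i.factorial : ℝ) * ((a.descFactorial j : ℝ) * Z ^ (a - j)) := by ring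
    _ ≤ (R * Lp) ^ i / (i.factorial : ℝ) * ((2 * R) ^ a * R ^ tau) := by gcongr
    _ = (2 * R ^ 2 * E * Lp) ^ i / (i.factorial : ℝ) * (2 * R * E) ^ (lam - c) * R ^ tau *
          (E ^ a)⁻¹ := by
        rw [e4]
        have : (2 * R ^ 2 * E * Lp) ^ i = (R * Lp) ^ i * (2 * R * E) ^ i := by
          rw [← mul_pow]; ring
        rw [this]
        ring
    _ ≤ Real.exp (2 * R ^ 2 * E * Lp) * (2 * R * E) ^ lam * R ^ tau * (E ^ a)⁻¹ := by gcongr
    _ = _ := by rw [e3]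

end GSL.ExpBd

namespace GSL

theorem expbd : StmtExpBd := by
  intro l' ε' s w ζ lam tau R₁ E y hR hw hζ htau hE hs hε m
  obtain ⟨a, b, c⟩ := m
  have hR0 : 0 < R₁ := by linarith
  have hE0 : 0 < E := by linarith
  unfold Pc Qc
  simp only
  by_cases hP : c ≤ lam ∧ lam - c ≤ a
  swap
  · rw [if_neg hP, norm_zero, zero_mul]
    positivity
  by_cases hQ : c ≤ tau ∧ tau - c ≤ a
  swap
  · rw [if_neg hQ, norm_zero, mul_zero]
    positivity
  rw [if_pos hP, if_pos hQ]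
  simp only [norm_mul, norm_div, norm_pow, Complex.norm_natCast, RCLike.norm_conj]
  have g1 := ExpBd.h1 (c := c) (norm_nonneg (1 - s)) hs
  have g2 := ExpBd.h2 (norm_nonneg w) (norm_nonneg ε') (norm_nonneg ζ) hw hζ hR hε b
  have g3 := ExpBd.h3 (norm_nonneg s) (Nat.sub_le tau c)
  have g4 := ExpBd.h4 (norm_nonneg w) (norm_nonneg ζ) (norm_nonneg l') hw hζ hR hE hP.1 hP.2
    hQ.1 hQ.2 htau
  calc (lam.choose c : ℝ) * ((‖w‖ * ‖l'‖) ^ (a - (lam - c)) / ((a - (lam - c)).factorial : ℝ)) *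
        ((‖w‖ * ‖ε'‖) ^ b / (b.factorial : ℝ)) *
      ((tau.descFactorial c : ℝ) * ‖1 - s‖ ^ c * ‖s‖ ^ (tau - c) *
        (a.descFactorial (tau - c) : ℝ) * ‖ζ‖ ^ (a - (tau - c)) * ‖ζ‖ ^ b)
      = ((lam.choose c : ℝ) * (tau.descFactorial c : ℝ) * ‖1 - s‖ ^ c) *
        ((‖w‖ * ‖ε'‖) ^ b / (b.factorial : ℝ) * ‖ζ‖ ^ b) * ‖s‖ ^ (tau - c) *
        ((‖w‖ * ‖l'‖) ^ (a - (lam - c)) / ((a - (lam - c)).factorial : ℝ) *
          (a.descFactorial (tau - c) : ℝ) * ‖ζ‖ ^ (a - (tau - c))) := by ring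
    _ ≤ Real.exp (-(y * c)) * Real.exp (-(y * b)) * (max 1 ‖s‖) ^ tau *
        (Real.exp (2 * R₁ ^ 2 * E * ‖l'‖) * (2 * R₁ * E) ^ lam * R₁ ^ tau *
          Real.exp (-(Real.log E * a))) := by gcongr
    _ = (Real.exp (2 * R₁ ^ 2 * E * ‖l'‖) * (2 * R₁ * E) ^ lam) * (max 1 ‖s‖ * R₁) ^ tau *
        Real.exp (-(Real.log E * a + y * (b + c))) := by
      have : Real.exp (-(Real.log E * a + y * (b + c))) =
          Real.exp (-(Real.log E * a)) * (Real.exp (-(y * c)) * Real.exp (-(y * b))) := by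
        rw [← Real.exp_add, ← Real.exp_add]
        ring_nf
      rw [this, mul_pow]
      ring

end GSL

end

end

section

/-!
# Bounds for the expansion of the entries
-/

namespace GSQ

theorem expbd : StmtExpBd := by
  intro l' ε' s w w' ζ ζ' lam tau R₁ E y hR hw hw' hζ hζ' htau hE hs hε m
  obtain ⟨a, b, c⟩ := m
  have hR0 : 0 < R₁ := by linarith
  have hE0 : 0 < E := by linarith
  unfold Pc Qc
  simp only
  by_cases hP : c ≤ lam ∧ lam - c ≤ a
  swap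
  · rw [if_neg hP, norm_zero, zero_mul]
    positivity
  by_cases hQ : c ≤ tau ∧ tau - c ≤ a
  swap
  · rw [if_neg hQ, norm_zero, mul_zero]
    positivity
  rw [if_pos hP, if_pos hQ]
  simp only [norm_mul, norm_div, norm_pow, Complex.norm_natCast]
  have g1 := GSL.ExpBd.h1 (c := c) (norm_nonneg (1 - s)) hs
  have g2 := GSL.ExpBd.h2 (norm_nonneg w') (norm_nonneg ε') (norm_nonneg ζ') hw' hζ' hR hε b
  have g3 := GSL.ExpBd.h3 (norm_nonneg s) (Nat.sub_le tau c)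
  have g4 := GSL.ExpBd.h4 (norm_nonneg w) (norm_nonneg ζ) (norm_nonneg l') hw hζ hR hE hP.1 hP.2
    hQ.1 hQ.2 htau
  calc (lam.choose c : ℝ) * ((‖w‖ * ‖l'‖) ^ (a - (lam - c)) / ((a - (lam - c)).factorial : ℝ)) *
        ((‖w'‖ * ‖ε'‖) ^ b / (b.factorial : ℝ)) *
      ((tau.descFactorial c : ℝ) * ‖1 - s‖ ^ c * ‖s‖ ^ (tau - c) *
        (a.descFactorial (tau - c) : ℝ) * ‖ζ‖ ^ (a - (tau - c)) * ‖ζ'‖ ^ b)
      = ((lam.choose c : ℝ) * (tau.descFactorial c : ℝ) * ‖1 - s‖ ^ c) *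
        ((‖w'‖ * ‖ε'‖) ^ b / (b.factorial : ℝ) * ‖ζ'‖ ^ b) * ‖s‖ ^ (tau - c) *
        ((‖w‖ * ‖l'‖) ^ (a - (lam - c)) / ((a - (lam - c)).factorial : ℝ) *
          (a.descFactorial (tau - c) : ℝ) * ‖ζ‖ ^ (a - (tau - c))) := by ring
    _ ≤ Real.exp (-(y * c)) * Real.exp (-(y * b)) * (max 1 ‖s‖) ^ tau *
        (Real.exp (2 * R₁ ^ 2 * E * ‖l'‖) * (2 * R₁ * E) ^ lam * R₁ ^ tau *
          Real.exp (-(Real.log E * a))) := by gcongr
    _ = (Real.exp (2 * R₁ ^ 2 * E * ‖l'‖) * (2 * R₁ * E) ^ lam) * (max 1 ‖s‖ * R₁) ^ tau *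
        Real.exp (-(Real.log E * a + y * (b + c))) := by
      have : Real.exp (-(Real.log E * a + y * (b + c))) =
          Real.exp (-(Real.log E * a)) * (Real.exp (-(y * c)) * Real.exp (-(y * b))) := by
        rw [← Real.exp_add, ← Real.exp_add]
        ring_nf
      rw [this, mul_pow]
      ring

end GSQ

end

section

/-!
# MP_327059_nt, second part : the families at the scale `(S, L₀)`
-/

open Polynomial Filter Topology

namespace GSQ

namespace FamS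

theorem card_pos (S : ℕ) : 1 ≤ (GSL.circ S).card := by
  rw [Nat.succ_le_iff, Finset.card_pos]
  refine ⟨(0, 0), ?_⟩
  unfold GSL.circ
  rw [Finset.mem_filter, Finset.mem_product, Finset.mem_Icc]
  have h : (0 : ℤ) ≤ S := Int.natCast_nonneg S
  refine ⟨⟨⟨by simp, h⟩, ⟨by simp, h⟩⟩, ?_⟩
  simp only
  positivity

theorem card_circ (S : ℕ) : (GSL.circ S).card ≤ (2 * S + 1) ^ 2 := by
  unfold GSL.circ
  refine (Finset.card_filter_le _ _).trans ?_
  rw [Finset.card_product, Int.card_Icc]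
  have : ((S : ℤ) + 1 - -(S : ℤ)).toNat = 2 * S + 1 := by omega
  rw [this, sq]

theorem card_Ix (S T : ℕ) : Fintype.card (GSL.Ix S T) = T * (GSL.circ S).card := by
  rw [Fintype.card_prod, Fintype.card_fin, Fintype.card_coe]

theorem int_beta {F : Type} [Field F] {β : F} {t n : ℤ} (h : β ^ 2 = t * β - n) :
    IsIntegral ℤ β := by
  refine ⟨X ^ 2 - C t * X + C n, ?_, ?_⟩
  · monicity!
  · simp only [eval₂_add, eval₂_sub, eval₂_mul, eval₂_pow, eval₂_X, eval₂_C, h]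
    simp

/-- The number of families is small. -/
theorem card_bd {S L₀ T : ℕ} {ε : ℝ} (hε : 0 < ε) (hS : 18 ≤ S) (hL : (L₀ : ℝ) ≤ (S : ℝ) ^ 2)
    (hL1 : 5 ≤ ε * L₀) (hT : (T : ℝ) ≤ 2 * L₀) :
    ((T * (GSL.circ S).card : ℕ) : ℝ) ^ (L₀ * (GSL.circ S).card) ≤
      Real.exp (ε * (L₀ * (GSL.circ S).card) * (L₀ * Real.log S)) := by
  have hS1 : (18 : ℝ) ≤ S := by exact_mod_cast hS
  have hlog : 0 ≤ Real.log S := Real.log_nonneg (by linarith)
  have hc : ((GSL.circ S).card : ℝ) ≤ 9 * (S : ℝ) ^ 2 := by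
    have h1 : ((GSL.circ S).card : ℝ) ≤ (2 * (S : ℝ) + 1) ^ 2 := by
      exact_mod_cast card_circ S
    nlinarith
  have hc0 : (0 : ℝ) ≤ (GSL.circ S).card := Nat.cast_nonneg _
  have hTc : ((T * (GSL.circ S).card : ℕ) : ℝ) ≤ Real.exp (5 * Real.log S) := by
    have h2 : Real.exp (5 * Real.log S) = (S : ℝ) ^ 5 := by
      rw [show (5 : ℝ) * Real.log S = ((5 : ℕ) : ℝ) * Real.log S by norm_num, Real.exp_nat_mul,
        Real.exp_log (by linarith)]
    rw [h2]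
    push_cast
    calc (T : ℝ) * (GSL.circ S).card ≤ (2 * (S : ℝ) ^ 2) * (9 * (S : ℝ) ^ 2) :=
          mul_le_mul (by linarith) hc hc0 (by positivity)
      _ = 18 * (S : ℝ) ^ 4 := by ring
      _ ≤ S * (S : ℝ) ^ 4 := mul_le_mul_of_nonneg_right hS1 (by positivity)
      _ = (S : ℝ) ^ 5 := by ring
  refine (pow_le_pow_left₀ (Nat.cast_nonneg _) hTc _).trans ?_
  rw [← Real.exp_nat_mul]
  apply Real.exp_le_exp.2
  push_cast
  have h3 : 5 * Real.log S ≤ ε * L₀ * Real.log S := mul_le_mul_of_nonneg_right hL1 hlog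
  have h4 : (0 : ℝ) ≤ L₀ * (GSL.circ S).card := by positivity
  have h5 := mul_le_mul_of_nonneg_left h3 h4
  refine h5.trans (le_of_eq ?_)
  ring

end FamS

open FamS in
theorem fams (hCD : StmtCD) (hOT : StmtOT) (hH : StmtHeightF) (hInt : StmtInt) (hE1 : StmtE1)
    (hE2 : StmtE2) (hNV : StmtNV) (hC : GSL.StmtCount) : StmtFamS := by
  intro F _ _ D ε hε hε1
  obtain ⟨E, -, -, hEt, hEn, -, -, -, -, hEY, hEDP⟩ := hCD F D
  set e₁ : ℝ := ε / 10 with he
  have he0 : 0 < e₁ := by positivity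
  have he1 : e₁ < 1 := by
    rw [he]
    linarith
  obtain ⟨Sa, CA, hA⟩ := hOT D.t D.n e₁ he0 he1
  obtain ⟨Cb, cb, Sb, hCb, hcb, hB⟩ := hH F D CA e₁ he0 he1
  obtain ⟨Cc, cc, Sc, hCc, hcc, hCc'⟩ := hE1 E CA e₁ he0 he1
  obtain ⟨Cd, cd, Sd, hCd, hcd, hD⟩ := hE2 E CA e₁ he0 he1
  obtain ⟨Ce, ce, Se, hCe, hce, hE⟩ := hNV E e₁ he0 he1
  refine ⟨max 1 (max (max Cb Cc) (max Cd Ce)), min 1 (min (min cb cc) (min cd ce)),
    Sa + Sb + Sc + Sd + Se + ⌈2 / e₁⌉₊ + 18, by positivity,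
    lt_min one_pos (lt_min (lt_min hcb hcc) (lt_min hcd hce)), ?_⟩
  intro S L₀ hS hL hL'
  have hSa : Sa ≤ S := by omega
  have hSb : Sb ≤ S := by omega
  have hSc : Sc ≤ S := by omega
  have hSd : Sd ≤ S := by omega
  have hSe : Se ≤ S := by omega
  have hS2 : 2 ≤ S := by omega
  have hS18 : 18 ≤ S := by omega
  have hSe1 : 2 / e₁ ≤ (S : ℝ) := by
    have h1 : ⌈2 / e₁⌉₊ ≤ S := by omega
    exact (Nat.le_ceil _).trans (by exact_mod_cast h1)
  have hSpos : (0 : ℝ) < S := by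
    have : (2 : ℝ) ≤ S := by exact_mod_cast hS2
    linarith
  have hlog : 0 < Real.log S := Real.log_pos (by
    have : (2 : ℝ) ≤ S := by exact_mod_cast hS2
    linarith)
  have hlogle : Real.log S ≤ S := Real.log_le_self hSpos.le
  have hS2pos : (0 : ℝ) ≤ (S : ℝ) ^ 2 := by positivity
  have hLb : Cb * (S : ℝ) ^ 2 ≤ L₀ * Real.log S := le_trans (mul_le_mul_of_nonneg_right
    ((le_max_left _ _).trans ((le_max_left _ _).trans (le_max_right _ _))) hS2pos) hL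
  have hLc : Cc * (S : ℝ) ^ 2 ≤ L₀ * Real.log S := le_trans (mul_le_mul_of_nonneg_right
    ((le_max_right _ _).trans ((le_max_left _ _).trans (le_max_right _ _))) hS2pos) hL
  have hLd : Cd * (S : ℝ) ^ 2 ≤ L₀ * Real.log S := le_trans (mul_le_mul_of_nonneg_right
    ((le_max_left _ _).trans ((le_max_right _ _).trans (le_max_right _ _))) hS2pos) hL
  have hLe : Ce * (S : ℝ) ^ 2 ≤ L₀ * Real.log S := le_trans (mul_le_mul_of_nonneg_right
    ((le_max_right _ _).trans ((le_max_right _ _).trans (le_max_right _ _))) hS2pos) hL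
  have hL1 : (1 : ℝ) * (S : ℝ) ^ 2 ≤ L₀ * Real.log S := le_trans (mul_le_mul_of_nonneg_right
    (le_max_left _ _) hS2pos) hL
  have hU1 : (L₀ : ℝ) ≤ (S : ℝ) ^ 2 := by
    have h1 := hL'.trans (mul_le_mul_of_nonneg_right (min_le_left _ _) hS2pos)
    rwa [one_mul] at h1
  have hL'' : (L₀ : ℝ) ≤ min (min cb cc) (min cd ce) * (S : ℝ) ^ 2 :=
    hL'.trans (mul_le_mul_of_nonneg_right (min_le_right _ _) hS2pos)
  have hUb : (L₀ : ℝ) ≤ cb * (S : ℝ) ^ 2 := hL''.trans (mul_le_mul_of_nonneg_right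
    ((min_le_left _ _).trans (min_le_left _ _)) hS2pos)
  have hUc : (L₀ : ℝ) ≤ cc * (S : ℝ) ^ 2 := hL''.trans (mul_le_mul_of_nonneg_right
    ((min_le_left _ _).trans (min_le_right _ _)) hS2pos)
  have hUd : (L₀ : ℝ) ≤ cd * (S : ℝ) ^ 2 := hL''.trans (mul_le_mul_of_nonneg_right
    ((min_le_right _ _).trans (min_le_left _ _)) hS2pos)
  have hUe : (L₀ : ℝ) ≤ ce * (S : ℝ) ^ 2 := hL''.trans (mul_le_mul_of_nonneg_right
    ((min_le_right _ _).trans (min_le_right _ _)) hS2pos)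
  have hSL : (S : ℝ) ≤ L₀ := by
    have h1 : (S : ℝ) ^ 2 ≤ L₀ * S := by
      calc (S : ℝ) ^ 2 = 1 * (S : ℝ) ^ 2 := (one_mul _).symm
        _ ≤ L₀ * Real.log S := hL1
        _ ≤ L₀ * S := mul_le_mul_of_nonneg_left hlogle (Nat.cast_nonneg _)
    have h2 : (S : ℝ) * S ≤ L₀ * S := by
      rw [← sq]
      exact h1
    exact le_of_mul_le_mul_right h2 hSpos
  have hL2 : 2 ≤ e₁ * L₀ := by
    have h1 : 2 / e₁ ≤ L₀ := hSe1.trans hSL
    rwa [div_le_iff₀ he0, mul_comm] at h1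
  have hL₀1 : (1 : ℝ) ≤ L₀ := by
    have : (2 : ℝ) ≤ S := by exact_mod_cast hS2
    linarith
  set T : ℕ := L₀ + ⌊e₁ * L₀⌋₊ with hT
  have hTle : (T : ℝ) ≤ (1 + e₁) * L₀ := by
    have h1 : ((⌊e₁ * L₀⌋₊ : ℕ) : ℝ) ≤ e₁ * L₀ := Nat.floor_le (by positivity)
    rw [hT]
    push_cast
    linarith
  have hTge : (1 + e₁ / 2) * L₀ ≤ (T : ℝ) := by
    have h1 : e₁ * L₀ < ((⌊e₁ * L₀⌋₊ : ℕ) : ℝ) + 1 := Nat.lt_floor_add_one _
    rw [hT]
    push_cast
    linarith
  have hT2 : (T : ℝ) ≤ 2 * L₀ := by nlinarith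
  have hcard : (1 : ℝ) ≤ (GSL.circ S).card := by exact_mod_cast FamS.card_pos S
  set L : ℝ := L₀ * (GSL.circ S).card with hLdef
  have hL1' : 1 ≤ L := by
    rw [hLdef]
    exact one_le_mul_of_one_le_of_one_le hL₀1 hcard
  have hL0 : 0 ≤ L := by linarith
  have hσ : 0 ≤ L₀ * Real.log S := by positivity
  have hV : 0 ≤ GSL.Vf S L₀ := by
    unfold GSL.Vf
    have := Real.pi_pos
    positivity
  set OT : ℕ := ⌊(1 + e₁) / 2 * S ^ 2 * (L₀ * (GSL.circ S).card)⌋₊ with hOTd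
  set AT : ℕ := CA * S ^ 2 * (L₀ * (GSL.circ S).card) with hATd
  have hOTle : (OT : ℝ) ≤ (1 + e₁) / 2 * S ^ 2 * (L₀ * (GSL.circ S).card) :=
    Nat.floor_le (by positivity)
  have hgood : ∀ e : GSL.Ix S L₀ → GSL.Ix S T, Function.Injective e →
      Good D.t D.n e OT AT := fun e hinj => hA S hSa L₀ T hTle e hinj
  have hgoodE : ∀ e : GSL.Ix S L₀ → GSL.Ix S T, Function.Injective e →
      Good E.t E.n e OT AT := by
    rw [hEt, hEn]
    exact hgood
  have hβ : IsIntegral ℤ D.β := int_beta D.quad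
  classical
  set f : (GSL.Ix S L₀ → GSL.Ix S T) → F[X] := fun e => D.DP e OT AT with hf
  have hmem : ∀ P : F[X], P ∈ (Finset.univ.filter fun e : GSL.Ix S L₀ → GSL.Ix S T =>
      Function.Injective e).image f ↔ ∃ e : GSL.Ix S L₀ → GSL.Ix S T, Function.Injective e ∧
        D.DP e OT AT = P := by
    intro P
    rw [Finset.mem_image]
    constructor
    · rintro ⟨e, he, hP⟩
      exact ⟨e, (Finset.mem_filter.1 he).2, hP⟩
    · rintro ⟨e, he, hP⟩
      exact ⟨e, Finset.mem_filter.2 ⟨Finset.mem_univ _, he⟩, hP⟩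
  refine ⟨L, (Finset.univ.filter fun e : GSL.Ix S L₀ → GSL.Ix S T =>
      Function.Injective e).image f, hL1', ?_⟩
  refine ⟨?_, ?_, ?_, ?_, ?_, ?_, ?_⟩
  · intro P hP
    obtain ⟨e, -, rfl⟩ := (hmem P).1 hP
    exact hInt F D.β D.t D.n D.a₁ D.a₂ D.A₀ D.B₀ hβ D.a₁_int D.a₂_int D.A₀_int D.B₀_int
      S L₀ T e OT AT
  · intro P hP
    obtain ⟨e, hinj, rfl⟩ := (hmem P).1 hP
    have h1 := (hB S L₀ T hSb hLb hUb hTle e hinj OT AT hOTle le_rfl (hgood e hinj)).1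
    refine h1.trans ?_
    have h2 : (1 + 2 * e₁) ≤ 1 + ε := by
      rw [he]
      linarith
    exact mul_le_mul_of_nonneg_right (mul_le_mul_of_nonneg_right h2 hL0) hS2pos
  · intro P hP τ
    obtain ⟨e, hinj, rfl⟩ := (hmem P).1 hP
    have h1 := (hB S L₀ T hSb hLb hUb hTle e hinj OT AT hOTle le_rfl (hgood e hinj)).2 τ
    refine h1.trans (Real.exp_le_exp.2 ?_)
    have h2 : (1 + 4 * e₁) ≤ 1 + ε := by
      rw [he]
      linarith
    exact mul_le_mul_of_nonneg_right (mul_le_mul_of_nonneg_right h2 hL0) hσ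
  · have h5 : 5 ≤ ε * L₀ := by
      rw [he] at hL2
      linarith
    have hb := card_bd (S := S) (L₀ := L₀) (T := T) hε hS18 hU1 h5 hT2
    have h1 : ((Finset.univ.filter fun e : GSL.Ix S L₀ → GSL.Ix S T =>
        Function.Injective e).image f).card ≤
          (T * (GSL.circ S).card) ^ (L₀ * (GSL.circ S).card) := by
      refine Finset.card_image_le.trans ((Finset.card_filter_le _ _).trans ?_)
      rw [Finset.card_univ, Fintype.card_fun, card_Ix, card_Ix]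
    have h2 : ((((Finset.univ.filter fun e : GSL.Ix S L₀ → GSL.Ix S T =>
        Function.Injective e).image f).card : ℕ) : ℝ) ≤
          ((T * (GSL.circ S).card : ℕ) : ℝ) ^ (L₀ * (GSL.circ S).card) := by
      exact_mod_cast h1
    exact h2.trans hb
  · intro P hP s hs0 hs1 y hy
    obtain ⟨e, hinj, rfl⟩ := (hmem P).1 hP
    have h0 : s ≤ (1 - e₁) * GSL.Vf S L₀ / 4096 := by
      have h3 : (1 - ε) * GSL.Vf S L₀ ≤ (1 - e₁) * GSL.Vf S L₀ := by
        refine mul_le_mul_of_nonneg_right ?_ hV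
        rw [he]
        linarith
      linarith only [h3, hs1]
    rw [← hEY] at hy
    have h1 := hCc' S L₀ T hSc hLc hUc hTle e hinj OT AT hOTle le_rfl (hgoodE e hinj) s hs0 h0
      y hy
    rw [hEDP]
    refine h1.trans (Real.exp_le_exp.2 ?_)
    have h2 : (1 + 5 * e₁) * (L₀ * Real.log S) + 5 * e₁ * s ≤
        (1 + ε) * (L₀ * Real.log S) + ε * s := by
      have h3 : 5 * e₁ = ε / 2 := by
        rw [he]
        ring
      rw [h3]
      have a1 : 0 ≤ ε / 2 * (L₀ * Real.log S) := by positivity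
      have a2 : 0 ≤ ε / 2 * s := by positivity
      have a3 : (1 + ε) * (L₀ * Real.log S) + ε * s -
          ((1 + ε / 2) * (L₀ * Real.log S) + ε / 2 * s) =
          ε / 2 * (L₀ * Real.log S) + ε / 2 * s := by ring
      linarith only [a1, a2, a3]
    have h4 := mul_le_mul_of_nonneg_left h2 hL0
    linarith only [h4]
  · intro P hP z hz0 hz1 m hm1 hm2 y hy
    obtain ⟨e, hinj, rfl⟩ := (hmem P).1 hP
    rw [← hEY] at hy
    have h1 := hD S L₀ T hSd hLd hUd hTle e hinj OT AT hOTle le_rfl (hgoodE e hinj) z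
      (by linarith) hz1 m hm1 hm2 y hy
    rw [hEDP]
    refine h1.trans (Real.exp_le_exp.2 ?_)
    have h2 : 0 ≤ L * GSL.Vf S L₀ := mul_nonneg hL0 hV
    have h3 : GSL.Fj m z - ε ≤ GSL.Fj m z - e₁ := by
      rw [he]
      linarith
    have h4 := mul_le_mul_of_nonneg_right h3 h2
    linarith only [h4]
  · intro γ hγ
    have h0 : ‖γ - E.Y‖ ≤ Real.exp (-((1 + e₁) * GSL.Vf S L₀)) := by
      rw [hEY]
      refine hγ.trans (Real.exp_le_exp.2 ?_)
      have h3 : 1 + e₁ ≤ 1 + ε := by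
        rw [he]
        linarith
      have h4 := mul_le_mul_of_nonneg_right h3 hV
      linarith only [h4]
    obtain ⟨e, hinj, hne⟩ := hE S L₀ T hSe hLe hUe hTge hTle OT AT hgoodE γ h0
    refine ⟨D.DP e OT AT, (hmem _).2 ⟨e, hinj, rfl⟩, ?_⟩
    rw [hEDP]
    exact hne

end GSQ

end

section

/-!
# MP_327059_nt, second part, item HeightF: degree and height over `F`
-/

open Polynomial

namespace GSQ

theorem heightF (h1 : StmtMap) (h2 : StmtHeight) : StmtHeightF := by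
  intro F _ _ D CA ε hε hε1
  choose C c S' hC hc hh using fun τ : F →+* ℂ =>
    h2 (τ D.β) D.t D.n (τ D.a₁) (τ D.a₂) (D.A₀.map τ) (D.B₀.map τ) CA ε hε hε1
  obtain ⟨τ₀, -, hτ₀⟩ := Finset.exists_min_image (Finset.univ : Finset (F →+* ℂ)) c
    ⟨D.φ, Finset.mem_univ _⟩
  refine ⟨∑ τ, C τ, c τ₀, ∑ τ, S' τ, Finset.sum_pos (fun τ _ => hC τ) ⟨D.φ, Finset.mem_univ _⟩,
    hc τ₀, ?_⟩
  intro S L₀ T hS hCS hcS hT e he OT AT hOT hAT hg
  have key : ∀ τ : F →+* ℂ, ((D.DP e OT AT).natDegree : ℝ) ≤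
      (1 + 2 * ε) * (L₀ * (GSL.circ S).card) * S ^ 2 ∧ GSL.l1 ((D.DP e OT AT).map τ) ≤
        Real.exp ((1 + 4 * ε) * (L₀ * (GSL.circ S).card) * (L₀ * Real.log S)) := by
    intro τ
    have e1 : S' τ ≤ S := (Finset.single_le_sum (f := S') (fun _ _ => Nat.zero_le _)
      (Finset.mem_univ τ)).trans hS
    have e2 : C τ * (S : ℝ) ^ 2 ≤ L₀ * Real.log S :=
      (mul_le_mul_of_nonneg_right (Finset.single_le_sum (f := C) (fun τ _ => (hC τ).le)
        (Finset.mem_univ τ)) (sq_nonneg _)).trans hCS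
    have e3 : (L₀ : ℝ) ≤ c τ * S ^ 2 :=
      hcS.trans (mul_le_mul_of_nonneg_right (hτ₀ τ (Finset.mem_univ τ)) (sq_nonneg _))
    have e4 := hh τ S L₀ T e1 e2 e3 hT e he OT AT hOT hAT hg
    have e5 : (D.DP e OT AT).map τ = DP (τ D.β) D.t D.n (τ D.a₁) (τ D.a₂) (D.A₀.map τ)
        (D.B₀.map τ) e OT AT := h1 F ℂ τ D.β D.t D.n D.a₁ D.a₂ D.A₀ D.B₀ S L₀ T e OT AT
    rw [← e5, natDegree_map_eq_of_injective τ.injective] at e4
    exact e4
  exact ⟨(key D.φ).1, fun τ => (key τ).2⟩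

end GSQ

end

section

/-!
# MP_327059_nt, second part: Hermite basis polynomials for the lattice points of a disc
-/

open Polynomial Filter Topology

namespace GSQ

theorem HermLat.abs_le {S : ℕ} {p : ℤ × ℤ} (hp : p ∈ GSL.circ S) :
    |(p.1 : ℝ)| ≤ S ∧ |(p.2 : ℝ)| ≤ S := by
  unfold GSL.circ at hp
  rw [Finset.mem_filter, Finset.mem_product, Finset.mem_Icc, Finset.mem_Icc] at hp
  obtain ⟨⟨⟨h1, h2⟩, h3, h4⟩, _⟩ := hp
  constructor
  · rw [_root_.abs_le]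
    exact ⟨by exact_mod_cast h1, by exact_mod_cast h2⟩
  · rw [_root_.abs_le]
    exact ⟨by exact_mod_cast h3, by exact_mod_cast h4⟩

theorem HermLat.card_ge (hC : GSL.StmtCount) : ∃ S₂ : ℕ, ∀ S : ℕ, S₂ ≤ S →
    (S : ℝ) ≤ (GSL.circ S).card := by
  have h1 := (hC.1.eventually (lt_mem_nhds (show (3 : ℝ) < Real.pi from Real.pi_gt_three))).and
    (Filter.eventually_ge_atTop 1)
  obtain ⟨S₂, hS₂⟩ := Filter.eventually_atTop.1 h1
  refine ⟨S₂, fun S hS => ?_⟩
  obtain ⟨h2, h3⟩ := hS₂ S hS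
  have h4 : (1 : ℝ) ≤ S := by exact_mod_cast h3
  rw [lt_div_iff₀ (by positivity)] at h2
  nlinarith

theorem hermlat (hh : GSL.StmtHerm) (hl : StmtLat) (hC : GSL.StmtCount) : StmtHermLat := by
  intro u₁ u₂ hD θ hθ0 hθ1
  obtain ⟨S₀, hS₀⟩ := hl u₁ u₂ hD (θ / 2) (by linarith) (by linarith)
  obtain ⟨c, hc0, hc⟩ := hD
  obtain ⟨S₂, hS₂⟩ := HermLat.card_ge hC
  set U := ‖u₁‖ + ‖u₂‖ with hUdef
  obtain ⟨S₁, hS₁⟩ := Filter.eventually_atTop.1
    ((Real.tendsto_log_atTop.comp tendsto_natCast_atTop_atTop).eventually_ge_atTop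
      ((1 + 2 * Real.log 2 + 16 / c) / (θ / 2)))
  refine ⟨max (max (max S₀ S₁) S₂) 1, fun S hS T hT => ?_⟩
  have hSS₀ : S₀ ≤ S := (le_max_left _ _).trans ((le_max_left _ _).trans
    ((le_max_left _ _).trans hS))
  have hSS₁ : S₁ ≤ S := (le_max_right _ _).trans ((le_max_left _ _).trans
    ((le_max_left _ _).trans hS))
  have hSS₂ : S₂ ≤ S := (le_max_right _ _).trans ((le_max_left _ _).trans hS)
  have hS1 : 1 ≤ S := (le_max_right _ _).trans hS
  have hS1r : (1 : ℝ) ≤ S := by exact_mod_cast hS1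
  have hS0r : (0 : ℝ) < S := by linarith
  have hlogS : 1 + 2 * Real.log 2 + 16 / c ≤ θ / 2 * Real.log S := by
    have := hS₁ S hSS₁
    rw [Function.comp_apply, div_le_iff₀ (by linarith)] at this
    linarith
  set c₀ := c / (4 * S) with hc₀
  have hc₀0 : 0 < c₀ := by positivity
  set ρ := min (c₀ / 4) 1 with hρ
  have hρ0 : 0 < ρ := lt_min (by linarith) one_pos
  set M := max 1 ρ⁻¹ with hM
  have hM1 : 1 ≤ M := le_max_left _ _
  have hM0 : 0 < M := lt_of_lt_of_le one_pos hM1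
  have hlogM : Real.log M ≤ 16 / c * S := by
    have h1 : ρ⁻¹ ≤ 1 + 16 / c * S := by
      rcases le_total (c₀ / 4) 1 with h | h
      · rw [hρ, min_eq_left h, hc₀]
        have : (c / (4 * S) / 4)⁻¹ = 16 / c * S := by
          field_simp
          ring
        rw [this]
        linarith
      · rw [hρ, min_eq_right h, inv_one]
        have : 0 ≤ 16 / c * S := by positivity
        linarith
    have h2 : M ≤ 1 + 16 / c * S := max_le (by
      have : 0 ≤ 16 / c * S := by positivity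
      linarith) h1
    have h3 := Real.log_le_sub_one_of_pos hM0
    linarith
  set x : {p : ℤ × ℤ // p ∈ GSL.circ S} → ℂ := fun j => (j.1.1 * u₁ + j.1.2 * u₂ : ℂ) with hx
  set A := (GSL.circ S).card with hA
  have hcard : Fintype.card {p : ℤ × ℤ // p ∈ GSL.circ S} = A := Fintype.card_coe _
  have hdist : ∀ i j : {p : ℤ × ℤ // p ∈ GSL.circ S}, i ≠ j → c₀ ≤ ‖x i - x j‖ := by
    intro i j hij
    have e : x i - x j = ((i.1.1 - j.1.1 : ℤ) : ℂ) * u₁ + ((i.1.2 - j.1.2 : ℤ) : ℂ) * u₂ := by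
      simp only [hx]
      push_cast
      ring
    rw [e]
    have hne : (i.1.1 - j.1.1 ≠ 0 ∨ i.1.2 - j.1.2 ≠ 0) := by
      by_contra hn
      push Not at hn
      exact hij (Subtype.ext (Prod.ext (sub_eq_zero.1 hn.1) (sub_eq_zero.1 hn.2)))
    have h1 := hc _ _ hne
    obtain ⟨hi1, hi2⟩ := HermLat.abs_le i.2
    obtain ⟨hj1, hj2⟩ := HermLat.abs_le j.2
    have h2 : |((i.1.1 - j.1.1 : ℤ) : ℝ)| + |((i.1.2 - j.1.2 : ℤ) : ℝ)| ≤ 4 * S := by
      push_cast
      have h3 : |(i.1.1 : ℝ) - j.1.1| ≤ |(i.1.1 : ℝ)| + |(j.1.1 : ℝ)| := abs_sub _ _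
      have h4 : |(i.1.2 : ℝ) - j.1.2| ≤ |(i.1.2 : ℝ)| + |(j.1.2 : ℝ)| := abs_sub _ _
      linarith
    rw [hc₀, div_le_iff₀ (by positivity), mul_comm]
    exact h1.trans (mul_le_mul_of_nonneg_right h2 (norm_nonneg _))
  set μ₀ := Real.exp ((1 - θ / 2) * A * Real.log S) / 2 ^ A with hμ₀
  have hμ₀0 : 0 < μ₀ := by positivity
  have hnorm : ∀ i, ‖x i‖ ≤ U * S := by
    intro i
    obtain ⟨h1, h2⟩ := HermLat.abs_le i.2
    have h3 : ‖x i‖ ≤ |(i.1.1 : ℝ)| * ‖u₁‖ + |(i.1.2 : ℝ)| * ‖u₂‖ := by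
      refine (norm_add_le _ _).trans (le_of_eq ?_)
      rw [norm_mul, norm_mul, Complex.norm_intCast, Complex.norm_intCast]
    have h4 := mul_le_mul_of_nonneg_right h1 (norm_nonneg u₁)
    have h5 := mul_le_mul_of_nonneg_right h2 (norm_nonneg u₂)
    rw [hUdef, add_mul]
    linarith [mul_comm ‖u₁‖ (S : ℝ), mul_comm ‖u₂‖ (S : ℝ)]
  have hμ : ∀ i, ∀ z : ℂ, ‖z - x i‖ = ρ →
      μ₀ ^ T ≤ ‖∏ j ∈ Finset.univ.erase i, (z - x j) ^ T‖ := by
    intro i z hz
    rw [norm_prod]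
    simp only [norm_pow]
    rw [Finset.prod_pow]
    refine pow_le_pow_left₀ hμ₀0.le ?_ T
    have h1 : ∀ j ∈ Finset.univ.erase i, ‖x i - x j‖ / 2 ≤ ‖z - x j‖ := by
      intro j hj
      have hij : i ≠ j := (Finset.ne_of_mem_erase hj).symm
      have h2 : ‖x i - x j‖ ≤ ‖x i - z‖ + ‖z - x j‖ := by
        have : x i - x j = (x i - z) + (z - x j) := by ring
        rw [this]
        exact norm_add_le _ _
      rw [norm_sub_rev (x i) z, hz] at h2
      have h3 := hdist i j hij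
      have h4 : ρ ≤ c₀ / 4 := min_le_left _ _
      linarith
    have h2 : ∏ j ∈ Finset.univ.erase i, (‖x i - x j‖ / 2) ≤
        ∏ j ∈ Finset.univ.erase i, ‖z - x j‖ :=
      Finset.prod_le_prod (fun j _ => by positivity) h1
    refine le_trans ?_ h2
    rw [Finset.prod_div_distrib, Finset.prod_const, Finset.card_erase_of_mem (Finset.mem_univ i),
      Finset.card_univ, hcard, hμ₀]
    have h3 : ∏ j ∈ Finset.univ.erase i, ‖x i - x j‖ = ∏ p' ∈ (GSL.circ S).erase i.1,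
        ‖(i.1.1 * u₁ + i.1.2 * u₂ : ℂ) - (p'.1 * u₁ + p'.2 * u₂)‖ := by
      refine Finset.prod_nbij Subtype.val ?_ ?_ ?_ ?_
      · intro j hj
        rw [Finset.mem_erase] at hj ⊢
        exact ⟨fun h => hj.1 (Subtype.ext h), j.2⟩
      · intro a _ b _ hab
        exact Subtype.ext hab
      · intro p hp
        rw [Finset.mem_coe, Finset.mem_erase] at hp
        refine ⟨⟨p, hp.2⟩, ?_, rfl⟩
        rw [Finset.mem_coe, Finset.mem_erase]
        exact ⟨fun h => hp.1 (congrArg Subtype.val h), Finset.mem_univ _⟩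
      · intro j _
        rfl
    rw [h3]
    have h4 := hS₀ S hSS₀ i.1 i.2
    have h5 : (2 : ℝ) ^ (A - 1) ≤ 2 ^ A := pow_le_pow_right₀ (by norm_num) (by omega)
    exact div_le_div₀ (by positivity) h4 (by positivity) h5
  set r := max (S : ℝ) (U * S) with hr
  have key : ∀ (i : {p : ℤ × ℤ // p ∈ GSL.circ S}) (tau : ℕ), ∃ h : ℂ[X], tau < T →
      h.natDegree < T * Fintype.card {p : ℤ × ℤ // p ∈ GSL.circ S} ∧
      (∀ j, ∀ tau' < T, (derivative^[tau'] h).eval (x j) = if j = i ∧ tau' = tau then 1 else 0) ∧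
      ∀ r' : ℝ, r ≤ r' → ∀ z : ℂ, ‖z‖ ≤ r' →
        ‖h.eval z‖ ≤ T * (2 * r') ^ (T * Fintype.card {p : ℤ × ℤ // p ∈ GSL.circ S}) *
          (max 1 ρ⁻¹) ^ T / μ₀ ^ T := by
    intro i tau
    by_cases htau : tau < T
    · obtain ⟨h, h1⟩ := hh {p : ℤ × ℤ // p ∈ GSL.circ S} x T ρ (μ₀ ^ T) r hT hρ0 (by positivity)
        (fun i j hij => lt_of_lt_of_le (lt_of_le_of_lt (min_le_left _ _) (by linarith))
          (hdist i j hij)) hμ (hS1r.trans (le_max_left _ _))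
        ((min_le_right _ _).trans (hS1r.trans (le_max_left _ _)))
        (fun i => (hnorm i).trans (le_max_right _ _)) i tau htau
      exact ⟨h, fun _ => h1⟩
    · exact ⟨0, fun h => absurd h htau⟩
  choose h hh' using key
  refine ⟨h, fun i tau ht => (hh' i tau ht).1, fun i tau ht j tau' ht' =>
    (hh' i tau ht).2.1 j tau' ht', ?_⟩
  intro r' hr1 hr2 i tau ht z hz
  have hrr : r ≤ r' := max_le hr1 hr2
  have hr'0 : 0 < r' := lt_of_lt_of_le one_pos (hS1r.trans hr1)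
  refine ((hh' i tau ht).2.2 r' hrr z hz).trans ?_
  rw [hcard]
  have hAS : (S : ℝ) ≤ A := hS₂ S hSS₂
  have hA1r : (1 : ℝ) ≤ A := hS1r.trans hAS
  have hT1r : (1 : ℝ) ≤ T := by exact_mod_cast hT
  have hT0 : (0 : ℝ) < T := by linarith
  have hpos : 0 < (T : ℝ) * (2 * r') ^ (T * A) * M ^ T / μ₀ ^ T := by positivity
  rw [← Real.log_le_iff_le_exp hpos]
  have hlogμ : Real.log μ₀ = (1 - θ / 2) * A * Real.log S - A * Real.log 2 := by
    rw [hμ₀, Real.log_div (Real.exp_pos _).ne' (by positivity), Real.log_exp, Real.log_pow]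
  have hlog : Real.log ((T : ℝ) * (2 * r') ^ (T * A) * M ^ T / μ₀ ^ T) =
      Real.log T + (T * A : ℕ) * (Real.log 2 + Real.log r') + T * Real.log M -
        T * ((1 - θ / 2) * A * Real.log S - A * Real.log 2) := by
    rw [Real.log_div (by positivity) (by positivity), Real.log_mul (by positivity) (by positivity),
      Real.log_mul (by positivity) (by positivity), Real.log_pow, Real.log_pow, Real.log_pow,
      Real.log_mul (by norm_num) hr'0.ne', hlogμ]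
  rw [hlog]
  have hlogT : Real.log T ≤ T := (Real.log_le_sub_one_of_pos hT0).trans (by linarith)
  have hTA : (T : ℝ) ≤ T * A := by nlinarith
  have hMA : Real.log M ≤ 16 / c * A :=
    hlogM.trans (mul_le_mul_of_nonneg_left hAS (by positivity))
  have h6 : (T : ℝ) * Real.log M ≤ T * (16 / c * A) :=
    mul_le_mul_of_nonneg_left hMA hT0.le
  have h7 : (T : ℝ) * A * (1 + 2 * Real.log 2 + 16 / c) ≤
      T * A * (θ / 2 * Real.log S) := mul_le_mul_of_nonneg_left hlogS (by positivity)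
  push_cast
  nlinarith [h6, h7, hlogT, hTA]

end GSQ

end

section

/-!
# MP_327059_nt, second part: the analytic part, assembly
-/

open Polynomial Filter Topology

namespace GSQ

namespace IfaceF

lemma Fj_le {m : ℕ} (hm : m ≤ 30) {z : ℝ} (hz0 : 0 ≤ z) (hz : z ≤ 1) : GSL.Fj m z ≤ 30 := by
  have h1 : (m : ℝ) ≤ 30 := by exact_mod_cast hm
  have h0 : (0 : ℝ) ≤ m := Nat.cast_nonneg m
  have h2 : 0 ≤ z ^ 2 * ((m : ℝ) * (m + 1) ^ 2 * (m + 2)) / 24 := by positivity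
  have h3 : (m : ℝ) * z ≤ 30 := by nlinarith
  unfold GSL.Fj
  linarith

/-- Transfer of a family to slightly different parameters. -/
lemma transfer {F : Type} [Field F] [NumberField F] {φ : F →+* ℂ} {Y : ℂ}
    {ε e δ σ W δ' σ' V L : ℝ} {D : Finset F[X]} (hε : 0 < ε) (hε1 : ε < 1)
    (he : e = ε / 100) (h : FamF φ Y e δ σ W L D) (hL : 1 ≤ L) (hV : 0 < V)
    (h1 : (1 - e) * V ≤ W) (h2 : W ≤ V) (hδ : δ ≤ (1 + e) * δ') (hσ : σ ≤ (1 + e) * σ')
    (hδ' : 0 ≤ δ') (hσ' : 0 ≤ σ') : FamF φ Y ε δ' σ' V L D := by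
  have he0 : 0 < e := by rw [he]; linarith
  have hsq : (1 + e) * (1 + e) ≤ 1 + ε := by rw [he]; nlinarith
  have hd : (1 + e) * L * δ ≤ (1 + ε) * L * δ' := by
    calc (1 + e) * L * δ ≤ (1 + e) * L * ((1 + e) * δ') :=
          mul_le_mul_of_nonneg_left hδ (by positivity)
      _ = ((1 + e) * (1 + e)) * (L * δ') := by ring
      _ ≤ (1 + ε) * (L * δ') := mul_le_mul_of_nonneg_right hsq (by positivity)
      _ = (1 + ε) * L * δ' := by ring
  have hs : (1 + e) * L * σ ≤ (1 + ε) * L * σ' := by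
    calc (1 + e) * L * σ ≤ (1 + e) * L * ((1 + e) * σ') :=
          mul_le_mul_of_nonneg_left hσ (by positivity)
      _ = ((1 + e) * (1 + e)) * (L * σ') := by ring
      _ ≤ (1 + ε) * (L * σ') := mul_le_mul_of_nonneg_right hsq (by positivity)
      _ = (1 + ε) * L * σ' := by ring
  have hc : e * L * σ ≤ ε * L * σ' := by
    have hsq' : e * (1 + e) ≤ ε := by rw [he]; nlinarith
    calc e * L * σ ≤ e * L * ((1 + e) * σ') :=
          mul_le_mul_of_nonneg_left hσ (by positivity)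
      _ = (e * (1 + e)) * (L * σ') := by ring
      _ ≤ ε * (L * σ') := mul_le_mul_of_nonneg_right hsq' (by positivity)
      _ = ε * L * σ' := by ring
  refine ⟨h.coeff, fun P hP => (h.deg P hP).trans hd,
    fun P hP τ => (h.height P hP τ).trans (Real.exp_le_exp.2 hs),
    h.card.trans (Real.exp_le_exp.2 hc), ?_, ?_, ?_⟩
  · intro P hP s hs0 hsV y hy
    refine (h.E1 P hP s hs0 ?_ y hy).trans (Real.exp_le_exp.2 ?_)
    · have h3 : (1 - e) * ((1 - e) * V) ≤ (1 - e) * W :=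
        mul_le_mul_of_nonneg_left h1 (by rw [he]; linarith)
      have h4 : (1 - ε) * V ≤ (1 - e) * ((1 - e) * V) := by
        have : (1 - ε) ≤ (1 - e) * (1 - e) := by rw [he]; nlinarith
        calc (1 - ε) * V ≤ (1 - e) * (1 - e) * V := mul_le_mul_of_nonneg_right this hV.le
          _ = _ := by ring
      linarith
    · have h5 : e * s ≤ ε * s := mul_le_mul_of_nonneg_right (by rw [he]; linarith) hs0
      have h6 : L * (e * s) ≤ L * (ε * s) := mul_le_mul_of_nonneg_left h5 (by linarith)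
      nlinarith [hs, h6]
  · intro P hP z hz0 hz1 m hm1 hm2 y hy
    have hz0' : 0 ≤ z := le_trans (by norm_num) hz0
    refine (h.E2 P hP z hz0 hz1 m hm1 hm2 y (hy.trans (Real.exp_le_exp.2 ?_))).trans
      (Real.exp_le_exp.2 ?_)
    · exact neg_le_neg (mul_le_mul_of_nonneg_left h2 hz0')
    · have hF := Fj_le hm2 hz0' hz1
      have key : (GSL.Fj m z - ε) * V ≤ (GSL.Fj m z - e) * W := by
        by_cases hc : 0 ≤ GSL.Fj m z - e
        · have h7 : (GSL.Fj m z - e) * ((1 - e) * V) ≤ (GSL.Fj m z - e) * W :=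
            mul_le_mul_of_nonneg_left h1 hc
          have h8 : (GSL.Fj m z - ε) ≤ (GSL.Fj m z - e) * (1 - e) := by
            rw [he]
            nlinarith
          calc (GSL.Fj m z - ε) * V ≤ (GSL.Fj m z - e) * (1 - e) * V :=
                mul_le_mul_of_nonneg_right h8 hV.le
            _ = (GSL.Fj m z - e) * ((1 - e) * V) := by ring
            _ ≤ _ := h7
        · push Not at hc
          calc (GSL.Fj m z - ε) * V ≤ (GSL.Fj m z - e) * V :=
                mul_le_mul_of_nonneg_right (by rw [he]; linarith) hV.le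
            _ ≤ (GSL.Fj m z - e) * W := mul_le_mul_of_nonpos_left h2 hc.le
      have h9 := mul_le_mul_of_nonneg_left key (by linarith : (0 : ℝ) ≤ L)
      nlinarith [h9]
  · intro γ hγ
    refine h.NV γ (hγ.trans (Real.exp_le_exp.2 (neg_le_neg ?_)))
    calc (1 + e) * W ≤ (1 + e) * V := mul_le_mul_of_nonneg_left h2 (by linarith)
      _ ≤ (1 + ε) * V := mul_le_mul_of_nonneg_right (by rw [he]; linarith) hV.le

end IfaceF

theorem ifaceF (hF : StmtFamS) (hS : GSL.StmtSel) : StmtIfaceF := by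
  intro F _ _ D ε hε hε1
  obtain ⟨C₁, c₁, S₁, hC₁, hc₁, hfam⟩ := hF F D (ε / 100) (by linarith) (by linarith)
  obtain ⟨C, c, V₀, hC, hc, hV₀, hsel⟩ := hS C₁ c₁ (ε / 100) S₁ hC₁ hc₁ (by linarith) (by linarith)
  refine ⟨C, c, V₀, hC, hc, hV₀, ?_⟩
  intro V ρ hV hCρ hρ
  obtain ⟨S, L₀, h1, h2, h3, h4, h5, h6, h7⟩ := hsel V ρ hV hCρ hρ
  obtain ⟨L, Fm, hL, hfm⟩ := hfam S L₀ h1 h2 h3
  exact ⟨L, Fm, hL, IfaceF.transfer hε hε1 rfl hfm hL (by linarith) h4 h5 h6 h7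
    (Real.sqrt_nonneg _) (Real.sqrt_nonneg _)⟩

end GSQ

end

section

/-!
# MP_327059_nt, second part: integrality of the determinant polynomials
-/

open Polynomial

namespace GSQ

/-- The integral elements as a subring. -/
def Int.Os (R : Type) [CommRing R] : Subring R := (integralClosure ℤ R).toSubring

theorem Int.mem_Os {R : Type} [CommRing R] {a : R} : a ∈ Int.Os R ↔ IsIntegral ℤ a := Iff.rfl

/-- Polynomials with integral coefficients as a subring. -/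
def Int.Ps (R : Type) [CommRing R] : Subring R[X] where
  carrier := {P | ∀ i, P.coeff i ∈ Int.Os R}
  mul_mem' := by
    intro P Q hP hQ i
    rw [coeff_mul]
    exact sum_mem fun j _ => mul_mem (hP _) (hQ _)
  one_mem' := by
    intro i
    rw [coeff_one]
    split_ifs
    · exact one_mem _
    · exact zero_mem _
  add_mem' := by
    intro P Q hP hQ i
    rw [coeff_add]
    exact add_mem (hP _) (hQ _)
  zero_mem' := by
    intro i
    rw [coeff_zero]
    exact zero_mem _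
  neg_mem' := by
    intro P hP i
    rw [coeff_neg]
    exact neg_mem (hP _)

theorem Int.C_mem {R : Type} [CommRing R] {a : R} (ha : a ∈ Int.Os R) : C a ∈ Int.Ps R := by
  intro i
  rw [coeff_C]
  split_ifs
  · exact ha
  · exact zero_mem _

theorem Int.X_mem (R : Type) [CommRing R] : (X : R[X]) ∈ Int.Ps R := by
  intro i
  rw [coeff_X]
  split_ifs
  · exact one_mem _
  · exact zero_mem _

theorem int : StmtInt := by
  intro R _ β t n a₁ a₂ A₀ B₀ hβ ha₁ ha₂ hA₀ hB₀ S L₀ T e OT AT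
  have hβ' : β ∈ Int.Os R := hβ
  have ha₁' : a₁ ∈ Int.Os R := ha₁
  have ha₂' : a₂ ∈ Int.Os R := ha₂
  have hA₀' : A₀ ∈ Int.Ps R := hA₀
  have hB₀' : B₀ ∈ Int.Ps R := hB₀
  have key : DP β t n a₁ a₂ A₀ B₀ e OT AT ∈ Int.Ps R := by
    have hw : ∀ p, wv β p ∈ Int.Os R := fun p =>
      add_mem (intCast_mem _ _) (mul_mem (intCast_mem _ _) hβ')
    have hz : ∀ q, zv t β q ∈ Int.Os R := fun q =>
      add_mem (sub_mem (intCast_mem _ _) (mul_mem (intCast_mem _ _) (intCast_mem _ _)))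
        (mul_mem (intCast_mem _ _) hβ')
    have hcp : ∀ (r : GSL.Ix S L₀) (s : GSL.Ix S T), cp β t A₀ B₀ r s ∈ Int.Ps R := by
      intro r s
      unfold cp
      refine sum_mem fun k _ => mul_mem (mul_mem (Int.C_mem ?_) (pow_mem hB₀' _))
        (pow_mem hA₀' _)
      exact mul_mem (mul_mem (mul_mem (natCast_mem _ _) (natCast_mem _ _)) (pow_mem (hz _) _))
        (pow_mem (hw _) _)
    unfold DP
    refine sum_mem fun π _ => mul_mem (mul_mem (mul_mem (Int.C_mem (intCast_mem _ _))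
      (prod_mem fun r _ => hcp _ _)) (pow_mem (Int.X_mem R) _)) (Int.C_mem ?_)
    exact mul_mem (pow_mem ha₁' _) (pow_mem ha₂' _)
  exact key

end GSQ

end

section

/-!
# MP_327059_nt, second part: the separation property
-/

namespace GSQ

namespace Sep

theorem ne_zero {β : ℂ} {t n : ℤ} (_ : β ^ 2 = t * β - n) (hirr : ∀ r : ℚ, β ≠ r) {a b : ℤ}
    (hab : a ≠ 0 ∨ b ≠ 0) : (a : ℂ) + b * β ≠ 0 ∧ (a : ℂ) + b * (t - β) ≠ 0 := by
  by_cases hb : b = 0
  · subst hb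
    have ha : a ≠ 0 := by simpa using hab
    have ha' : (a : ℂ) ≠ 0 := by exact_mod_cast ha
    simp [ha']
  · have hb' : (b : ℂ) ≠ 0 := by exact_mod_cast hb
    constructor
    · intro h
      apply hirr (-(a : ℚ) / b)
      push_cast
      rw [eq_div_iff hb']
      linear_combination h
    · intro h
      apply hirr ((t : ℚ) + (a : ℚ) / b)
      push_cast
      have h2 : (a : ℂ) / b = β - t := by
        rw [div_eq_iff hb']
        linear_combination h
      rw [h2]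
      ring

end Sep

/-- The separation property of `ℤ + ℤ β`. -/
theorem sep : StmtSep := by
  intro β t n hq hirr
  refine ⟨(1 + ‖(t : ℂ) - β‖)⁻¹, by positivity, ?_⟩
  intro a b hab
  obtain ⟨h1, h2⟩ := Sep.ne_zero hq hirr hab
  have hN : ((a : ℂ) + b * β) * (a + b * (t - β)) = ((a ^ 2 + a * b * t + b ^ 2 * n : ℤ) : ℂ) := by
    push_cast
    linear_combination (-(b : ℂ) ^ 2) * hq
  have hN0 : (a ^ 2 + a * b * t + b ^ 2 * n : ℤ) ≠ 0 := by
    intro h
    rw [h, Int.cast_zero] at hN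
    exact (mul_ne_zero h1 h2) hN
  have hN1 : (1 : ℝ) ≤ ‖(a : ℂ) + b * β‖ * ‖(a : ℂ) + b * (t - β)‖ := by
    rw [← norm_mul, hN, Complex.norm_intCast]
    exact_mod_cast Int.one_le_abs hN0
  have h3 : ‖(a : ℂ) + b * (t - β)‖ ≤ (|(a : ℝ)| + |(b : ℝ)|) * (1 + ‖(t : ℂ) - β‖) := by
    refine (norm_add_le _ _).trans ?_
    rw [norm_mul, Complex.norm_intCast, Complex.norm_intCast]
    have ha := abs_nonneg (a : ℝ)
    have hb := abs_nonneg (b : ℝ)
    have ht := norm_nonneg ((t : ℂ) - β)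
    nlinarith [mul_nonneg ha ht]
  have h4 : ‖(a * 1 + b * β : ℂ)‖ = ‖(a : ℂ) + b * β‖ := by rw [mul_one]
  rw [h4, inv_le_iff_one_le_mul₀ (by positivity)]
  have h5 := mul_le_mul_of_nonneg_left h3 (norm_nonneg ((a : ℂ) + b * β))
  linarith

end GSQ

end
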