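import Mathlib
import Pool.Agent.Work.MP_327059_nt.QF.StmtsA
import Pool.Agent.Work.MP_327059_nt.QF.StmtsB
import Pool.Agent.Work.MP_327059_nt.Bdx.B01
import Pool.Agent.Work.MP_327059_nt.Bd.B14

/-! Bundle of small proof modules (one section per former module). -/

section

/-!
# The data from the hypothesis
-/

open Polynomial Filter Topology

namespace GSQ

namespace AlgF

theorem mul_int {F : Type} [Field F] (m : ℕ) {x : F} (hx : IsIntegral ℤ x) :
    IsIntegral ℤ ((m : F) * x) := by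
  have h : (m : F) * x = (m : ℤ) • x := by simp
  rw [h]
  exact hx.smul _

theorem mult {F : Type} [Field F] [NumberField F] (x : F) :
    ∃ m : ℕ, 0 < m ∧ IsIntegral ℤ ((m : F) * x) := by
  have h1 : IsAlgebraic ℤ x :=
    (IsFractionRing.isAlgebraic_iff ℤ ℚ F).2 (Algebra.IsAlgebraic.isAlgebraic x)
  obtain ⟨y, hy, hyx⟩ := h1.exists_integral_multiple
  refine ⟨y.natAbs, Int.natAbs_pos.2 hy, ?_⟩
  rw [zsmul_eq_mul] at hyx
  rcases Int.natAbs_eq y with h | h
  · have h2 : ((y.natAbs : ℕ) : F) = ((y : ℤ) : F) := by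
      conv_rhs => rw [h]
      simp
    rw [h2]
    exact hyx
  · have h2 : ((y.natAbs : ℕ) : F) = -((y : ℤ) : F) := by
      conv_rhs => rw [h]
      simp
    rw [h2, neg_mul]
    exact hyx.neg

theorem clear {F : Type} [Field F] [NumberField F] (P : F[X]) :
    ∃ m : ℕ, 0 < m ∧ ∀ i, IsIntegral ℤ ((C (m : F) * P).coeff i) := by
  induction P using Polynomial.induction_on' with
  | add p q hp hq =>
    obtain ⟨m, hm, hP⟩ := hp
    obtain ⟨k, hk, hQ⟩ := hq
    refine ⟨m * k, Nat.mul_pos hm hk, fun i => ?_⟩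
    have e : (C ((m * k : ℕ) : F) * (p + q)).coeff i =
        (k : F) * (C (m : F) * p).coeff i + (m : F) * (C (k : F) * q).coeff i := by
      simp only [coeff_C_mul, coeff_add, Nat.cast_mul]
      ring
    rw [e]
    exact (mul_int k (hP i)).add (mul_int m (hQ i))
  | monomial n a =>
    obtain ⟨m, hm, ha⟩ := mult a
    refine ⟨m, hm, fun i => ?_⟩
    rw [coeff_C_mul, coeff_monomial]
    split_ifs
    · exact ha
    · rw [mul_zero]
      exact isIntegral_zero

end AlgF

open AlgF in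
theorem algF : StmtAlgF := by
  intro F _ β l t n hβ hq hirr hl hexp hmem
  obtain ⟨m, hm, ha⟩ := mult (⟨Complex.exp l, hexp⟩ : F)
  have hm0 : (m : F) ≠ 0 := by exact_mod_cast hm.ne'
  rw [IntermediateField.mem_adjoin_simple_iff] at hmem
  obtain ⟨r, s, hrs⟩ := hmem
  set Y := Complex.exp (β * l) with hY
  have hs0 : aeval Y s ≠ 0 := by
    intro h0
    rw [h0, div_zero] at hrs
    exact hl hrs
  obtain ⟨k₁, hk₁, hK₁⟩ := clear r
  obtain ⟨k₂, hk₂, hK₂⟩ := clear s
  have hk : ((k₁ : ℂ) * k₂) ≠ 0 :=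
    mul_ne_zero (by exact_mod_cast hk₁.ne') (by exact_mod_cast hk₂.ne')
  have hev : ∀ (P : F[X]), ((C ((k₁ : F) * k₂) * P).map (algebraMap F ℂ)).eval Y =
      ((k₁ : ℂ) * k₂) * aeval Y P := by
    intro P
    rw [eval_map_algebraMap, map_mul, aeval_C]
    simp
  have hφ : ∀ x : F, algebraMap F ℂ x = (x : ℂ) := fun x => rfl
  refine ⟨{ φ := algebraMap F ℂ, l := l, t := t, n := n, β := ⟨β, hβ⟩,
            a₁ := m * ⟨Complex.exp l, hexp⟩, a₂ := m,
            A₀ := C ((k₁ : F) * k₂) * s,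
            B₀ := C ((k₁ : F) * k₂) * r,
            quad := ?_, irr := ?_, l_ne := hl, a₁_int := ha,
            a₂_int := ?_,
            a₁_ne := ?_,
            a₂_ne := hm0,
            exp_l := ?_,
            A₀_int := ?_, B₀_int := ?_, A₀_ne := ?_, l_eq := ?_ }, rfl, rfl, rfl⟩
  · apply Subtype.ext
    push_cast
    exact hq
  · intro q h
    apply hirr q
    have := congrArg (fun x : F => (x : ℂ)) h
    simpa using this
  · have := mul_int (F := F) m isIntegral_one
    rwa [mul_one] at this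
  · refine mul_ne_zero hm0 fun h => Complex.exp_ne_zero l ?_
    exact congrArg (fun x : F => (x : ℂ)) h
  · have hm1 : (m : ℂ) ≠ 0 := by exact_mod_cast hm.ne'
    rw [map_mul, map_natCast, hφ]
    field_simp
  · intro i
    have := mul_int k₁ (hK₂ i)
    rw [coeff_C_mul] at this ⊢
    rwa [mul_assoc]
  · intro i
    have := mul_int k₂ (hK₁ i)
    rw [coeff_C_mul] at this ⊢
    rwa [mul_comm (k₁ : F) k₂, mul_assoc]
  · show ((C ((k₁ : F) * k₂) * s).map (algebraMap F ℂ)).eval Y ≠ 0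
    rw [hev]
    exact mul_ne_zero hk hs0
  · show l = ((C ((k₁ : F) * k₂) * r).map (algebraMap F ℂ)).eval Y /
      ((C ((k₁ : F) * k₂) * s).map (algebraMap F ℂ)).eval Y
    rw [hev, hev, mul_div_mul_left _ _ hk]
    exact hrs

end GSQ

end

section

/-!
# The complex data of the data over a number field
-/

open Polynomial

namespace GSQ

theorem cd (h1 : StmtMap) (h2 : StmtSep) : StmtCD := by
  intro F _ _ D
  have hq : (D.φ D.β) ^ 2 = (D.t : ℂ) * D.φ D.β - D.n := by
    have h := congrArg D.φ D.quad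
    simpa using h
  have hirr : ∀ r : ℚ, D.φ D.β ≠ r := by
    intro r hr
    refine D.irr r (D.φ.injective ?_)
    rw [map_ratCast]
    exact hr
  refine ⟨{ β := D.φ D.β, l := D.l, t := D.t, n := D.n, a₁ := D.φ D.a₁, a₂ := D.φ D.a₂,
            A₀ := D.A₀.map D.φ, B₀ := D.B₀.map D.φ, quad := hq, sep := h2 _ _ _ hq hirr,
            l_ne := D.l_ne, a₁_ne := (map_ne_zero D.φ).2 D.a₁_ne,
            a₂_ne := (map_ne_zero D.φ).2 D.a₂_ne, exp_l := D.exp_l, A₀_ne := D.A₀_ne,
            l_eq := D.l_eq }, rfl, rfl, rfl, rfl, rfl, rfl, rfl, rfl, rfl, ?_⟩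
  intro S L₀ T e OT AT
  exact h1 F ℂ D.φ D.β D.t D.n D.a₁ D.a₂ D.A₀ D.B₀ S L₀ T e OT AT

end GSQ

end

section

/-!
# MP_327059_nt, QF, item CS: Cauchy-Schwarz for the kernel `min`
-/

namespace GSQ

namespace CSX

/-- The inductive statement: subtract a lower bound `m` of the values. -/
theorem aux {ι : Type} [DecidableEq ι] (w u : ι → ℝ) (s : Finset ι) :
    ∀ m : ℝ, (∀ i ∈ s, m ≤ u i) →
      0 ≤ ∑ i ∈ s, ∑ j ∈ s, w i * w j * (min (u i) (u j) - m) := by
  refine Finset.induction_on_min_value u s ?_ ?_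
  · intro m _
    simp
  · intro a s ha hmin ih m hm
    have h1 : ∀ i ∈ insert a s, ∀ j ∈ insert a s, w i * w j * (min (u i) (u j) - m) =
        w i * w j * (min (u i) (u j) - u a) + (u a - m) * (w i * w j) := by
      intro i _ j _
      ring
    have h2 : ∑ i ∈ insert a s, ∑ j ∈ insert a s, w i * w j * (min (u i) (u j) - m) =
        (∑ i ∈ insert a s, ∑ j ∈ insert a s, w i * w j * (min (u i) (u j) - u a)) +
          (u a - m) * ((∑ i ∈ insert a s, w i) * (∑ j ∈ insert a s, w j)) := by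
      rw [Finset.sum_mul_sum, Finset.mul_sum, ← Finset.sum_add_distrib]
      refine Finset.sum_congr rfl fun i hi => ?_
      rw [Finset.mul_sum, ← Finset.sum_add_distrib]
      exact Finset.sum_congr rfl fun j hj => h1 i hi j hj
    have h3 : ∑ i ∈ insert a s, ∑ j ∈ insert a s, w i * w j * (min (u i) (u j) - u a) =
        ∑ i ∈ s, ∑ j ∈ s, w i * w j * (min (u i) (u j) - u a) := by
      rw [Finset.sum_insert ha]
      have hz : ∑ j ∈ insert a s, w a * w j * (min (u a) (u j) - u a) = 0 := by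
        refine Finset.sum_eq_zero fun j hj => ?_
        have : u a ≤ u j := by
          rcases Finset.mem_insert.1 hj with h | h
          · rw [h]
          · exact hmin j h
        rw [min_eq_left this, sub_self, mul_zero]
      rw [hz, zero_add]
      refine Finset.sum_congr rfl fun i hi => ?_
      rw [Finset.sum_insert ha, min_eq_right (hmin i hi), sub_self, mul_zero, zero_add]
    rw [h2, h3]
    have h4 := ih (u a) hmin
    have h5 : 0 ≤ (u a - m) * ((∑ i ∈ insert a s, w i) * (∑ j ∈ insert a s, w j)) :=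
      mul_nonneg (sub_nonneg.2 (hm a (Finset.mem_insert_self a s))) (mul_self_nonneg _)
    linarith

theorem psd (ι : Type) [Fintype ι] (w u : ι → ℝ) (hu : ∀ i, 0 ≤ u i) :
    0 ≤ ∑ i, ∑ j, w i * w j * min (u i) (u j) := by
  classical
  have h := aux w u Finset.univ 0 (fun i _ => hu i)
  simpa using h

/-- The points. -/
noncomputable def zz : Fin 7 → ℝ := ![1, 1 / 4, 1 / 16, 1 / 64, 1 / 256, 1 / 1024, 1 / 4096]

/-- The weights. -/
noncomputable def cc : Fin 7 → ℝ := ![1 / 2, 1 / 2, 1, 5 / 2, 4, 4, 37 / 2]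

lemma zz_nonneg (j : Fin 7) : 0 ≤ zz j := by
  fin_cases j <;> simp [zz]

lemma sum_cczz : ∑ j, ∑ k, cc j * cc k * min (zz j) (zz k) ≤ 13606 / 10000 := by
  simp [Fin.sum_univ_succ, cc, zz]
  norm_num [min_def]

lemma psi_eq (u : ℝ) : Psi u = ∑ j, cc j * min (zz j) u := by
  simp [Fin.sum_univ_succ, cc, zz, Psi]
  ring

end CSX

open CSX in
/-- Item CS. -/
theorem p_CS : StmtCS := by
  intro ι _ u hu
  set S : ℝ := ∑ i, Psi (u i) with hS
  set E : ℝ := ∑ i, ∑ j, min (u i) (u j) with hE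
  set t : ℝ := S / (13606 / 10000) with ht
  have hq := psd (ι ⊕ Fin 7) (Sum.elim (fun _ => 1) (fun j => -(t * cc j)))
    (Sum.elim u zz) (by
      rintro (r | j)
      · exact hu r
      · exact zz_nonneg j)
  simp only [Fintype.sum_sum_type, Sum.elim_inl, Sum.elim_inr, Finset.sum_add_distrib, one_mul,
    mul_one] at hq
  have e1 : ∑ r : ι, ∑ j : Fin 7, -(t * cc j) * min (u r) (zz j) = -(t * S) := by
    rw [hS, Finset.mul_sum, ← Finset.sum_neg_distrib]
    refine Finset.sum_congr rfl fun r _ => ?_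
    rw [psi_eq, Finset.mul_sum, ← Finset.sum_neg_distrib]
    refine Finset.sum_congr rfl fun j _ => ?_
    rw [min_comm]
    ring
  have e2 : ∑ j : Fin 7, ∑ r : ι, -(t * cc j) * min (zz j) (u r) = -(t * S) := by
    rw [Finset.sum_comm, ← e1]
    refine Finset.sum_congr rfl fun r _ => Finset.sum_congr rfl fun j _ => ?_
    rw [min_comm]
  have e3 : ∑ j : Fin 7, ∑ k : Fin 7, -(t * cc j) * -(t * cc k) * min (zz j) (zz k) ≤
      t ^ 2 * (13606 / 10000) := by
    have h1 : ∑ j : Fin 7, ∑ k : Fin 7, -(t * cc j) * -(t * cc k) * min (zz j) (zz k) =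
        t ^ 2 * ∑ j, ∑ k, cc j * cc k * min (zz j) (zz k) := by
      rw [Finset.mul_sum]
      refine Finset.sum_congr rfl fun j _ => ?_
      rw [Finset.mul_sum]
      refine Finset.sum_congr rfl fun k _ => ?_
      ring
    rw [h1]
    exact mul_le_mul_of_nonneg_left sum_cczz (sq_nonneg t)
  have h0 : 0 ≤ E - 2 * (t * S) + t ^ 2 * (13606 / 10000) := by
    have h1 : ∑ r : ι, ∑ r' : ι, min (u r) (u r') = E := rfl
    linarith
  have h2 : t * (13606 / 10000) = S := by
    rw [ht]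
    field_simp
  have h3 : t ^ 2 * (13606 / 10000) = t * S := by
    rw [pow_two, mul_assoc, h2]
  have h4 : t * S ≤ E := by linarith
  calc S ^ 2 = 13606 / 10000 * (t * S) := by
        rw [← h2]
        ring
    _ ≤ 13606 / 10000 * E := by linarith

end GSQ

end

section

/-!
# MP_327059_nt, second part: factorisation of a monic polynomial over a number field
-/

set_option autoImplicit false

open Polynomial

namespace GSQ

namespace FacX

/-- The leading coefficient of the primitive norm polynomial is unique. -/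
lemma lead_unique {F : Type} [Field F] [NumberField F] {Q : F[X]} {g g' : ℤ[X]}
    (h : IsNG Q g) (h' : IsNG Q g') : g.leadingCoeff = g'.leadingCoeff := by
  have e : C g'.leadingCoeff * g = C g.leadingCoeff * g' := by
    apply Polynomial.map_injective (Int.castRingHom ℂ) Int.cast_injective
    rw [Polynomial.map_mul, Polynomial.map_mul, h.eq, h'.eq, map_C, map_C]
    simp only [eq_intCast]
    ring
  have c := congrArg content e
  rw [content_C_mul, content_C_mul, h.prim.content_eq_one, h'.prim.content_eq_one, mul_one,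
    mul_one, Int.normalize_of_nonneg h'.pos.le, Int.normalize_of_nonneg h.pos.le] at c
  exact c.symm

/-- The size does not depend on the choice of the norm polynomial. -/
lemma hF_unique {F : Type} [Field F] [NumberField F] {Q : F[X]} {g g' : ℤ[X]}
    (h : IsNG Q g) (h' : IsNG Q g') : hF Q g = hF Q g' := by
  unfold hF
  rw [lead_unique h h']

/-- The size of the polynomial one. -/
lemma hF_one {F : Type} [Field F] [NumberField F] : hF (1 : F[X]) 1 = 0 := by
  unfold hF
  simp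

/-- Powers. -/
lemma pow_aux (hMul : StmtMul) {F : Type} [Field F] [NumberField F] {Q : F[X]} {h : ℤ[X]}
    (hQ : Q.Monic) (hh : IsNG Q h) (n : ℕ) :
    IsNG (Q ^ n) (h ^ n) ∧ hF (Q ^ n) (h ^ n) = n * hF Q h := by
  induction n with
  | zero =>
    rw [pow_zero, pow_zero, hF_one]
    exact ⟨(hMul F).2.2, by simp⟩
  | succ n ih =>
    obtain ⟨h1, h2⟩ := (hMul F).2.1 (Q ^ n) Q (h ^ n) h (hQ.pow n) hQ ih.1 hh
    rw [pow_succ, pow_succ]
    refine ⟨h1, ?_⟩
    rw [h2, ih.2]
    push_cast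
    ring

/-- Products. -/
lemma prod_aux (hMul : StmtMul) {F : Type} [Field F] [NumberField F] (k : F[X] → ℕ)
    (h : F[X] → ℤ[X]) (s : Finset F[X]) (hs : ∀ Q ∈ s, Q.Monic ∧ IsNG Q (h Q)) :
    IsNG (∏ Q ∈ s, Q ^ k Q) (∏ Q ∈ s, h Q ^ k Q) ∧
      hF (∏ Q ∈ s, Q ^ k Q) (∏ Q ∈ s, h Q ^ k Q) = ∑ Q ∈ s, (k Q : ℝ) * hF Q (h Q) := by
  classical
  induction s using Finset.induction_on with
  | empty =>
    rw [Finset.prod_empty, Finset.prod_empty, Finset.sum_empty, hF_one]
    exact ⟨(hMul F).2.2, rfl⟩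
  | insert a s ha ih =>
    have ih' := ih fun Q hQ => hs Q (Finset.mem_insert_of_mem hQ)
    obtain ⟨ha1, ha2⟩ := hs a (Finset.mem_insert_self a s)
    obtain ⟨hp1, hp2⟩ := pow_aux hMul ha1 ha2 (k a)
    obtain ⟨h1, h2⟩ := (hMul F).2.1 (a ^ k a) (∏ Q ∈ s, Q ^ k Q) (h a ^ k a)
      (∏ Q ∈ s, h Q ^ k Q) (ha1.pow _)
      (monic_prod_of_monic _ _ fun Q hQ => (hs Q (Finset.mem_insert_of_mem hQ)).1.pow _)
      hp1 ih'.1
    rw [Finset.prod_insert ha, Finset.prod_insert ha, Finset.sum_insert ha]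
    refine ⟨h1, ?_⟩
    rw [h2, hp2, ih'.2]

end FacX

/-- Factorisation of a monic polynomial. -/
theorem p_Fac : StmtNG → StmtMul → StmtFac := by
  classical
  intro hNG hMul F _ _ φ G g hG hg
  obtain ⟨s, k, hs, hprod⟩ := GSL.Factor.exists_factor G
  rw [hG.leadingCoeff, C_1, one_mul] at hprod
  let h : F[X] → ℤ[X] := fun Q => if hQ : Q.Monic then (hNG F Q hQ).choose else 1
  have hh : ∀ Q ∈ s, IsNG Q (h Q) := by
    intro Q hQ
    have hm := (hs Q hQ).1
    simp only [h, dif_pos hm]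
    exact (hNG F Q hm).choose_spec
  have hroots : (G.map φ).roots = s.val.bind fun R => k R • (R.map φ).roots := by
    have hG' : G.map φ = ∏ Q ∈ s, Q.map φ ^ k Q := by
      conv_lhs => rw [hprod]
      rw [Polynomial.map_prod]
      simp only [Polynomial.map_pow]
    have hne : ∏ Q ∈ s, Q.map φ ^ k Q ≠ 0 := by
      rw [← hG']
      exact (hG.map φ).ne_zero
    rw [hG', roots_prod _ _ hne]
    simp only [roots_pow]
  obtain ⟨hp1, hp2⟩ := FacX.prod_aux hMul k h s fun Q hQ => ⟨(hs Q hQ).1, hh Q hQ⟩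
  refine ⟨s, k, h, ?_, ?_, ?_, ?_⟩
  · intro Q hQ
    refine ⟨(hs Q hQ).1, (hs Q hQ).2.1, hh Q hQ, ((hMul F).1 Q (h Q) (hs Q hQ).1 (hh Q hQ)).1,
      fun x hx => ?_⟩
    rw [hroots, Multiset.mem_bind]
    refine ⟨Q, hQ, ?_⟩
    rw [Multiset.mem_nsmul]
    exact ⟨by have := (hs Q hQ).2.2; omega, hx⟩
  · have h1 : G.natDegree = ∑ Q ∈ s, k Q * Q.natDegree := by
      conv_lhs => rw [hprod]
      rw [natDegree_prod_of_monic _ _ fun Q hQ => (hs Q hQ).1.pow _]
      exact Finset.sum_congr rfl fun Q _ => natDegree_pow Q (k Q)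
    rw [h1]
    push_cast
    rfl
  · rw [← hprod] at hp1 hp2
    rw [FacX.hF_unique hg hp1, hp2]
  · intro f
    rw [hroots]
    exact GSL.Factor.sum_bind_eq φ s k f

end GSQ

end

section

/-!
# MP_327059_nt, second part: the final contradiction
-/

open Polynomial

namespace GSQ

namespace FinX

lemma cl_nonneg (Y x : ℂ) : 0 ≤ GSL.cl Y x := le_max_left _ _

lemma min_scale {V : ℝ} (hV : 0 < V) (z c : ℝ) : min z (c / V) = min (z * V) c / V := by
  have h : z = z * V / V := by field_simp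
  conv_lhs => rw [h]
  exact min_div_div_right hV.le _ _

lemma sum_min_scale (s : Multiset ℂ) (f : ℂ → ℝ) {V : ℝ} (hV : 0 < V) (z : ℝ) :
    ((s.map fun x => f x / V).map (min z)).sum =
      (s.map fun x => min (z * V) (f x)).sum / V := by
  rw [Multiset.map_map, ← Multiset.sum_map_div]
  congr 1
  refine Multiset.map_congr rfl fun x _ => ?_
  simp only [Function.comp]
  exact min_scale hV _ _

lemma sum_sum_min_scale (s t : Multiset ℂ) (f : ℂ → ℝ) {V : ℝ} (hV : 0 < V) :
    ((s.map fun x => f x / V).map fun x => ((t.map fun y => f y / V).map (min x)).sum).sum =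
      (s.map fun x => (t.map fun y => min (f x) (f y)).sum).sum / V := by
  rw [Multiset.map_map, ← Multiset.sum_map_div]
  congr 1
  refine Multiset.map_congr rfl fun x _ => ?_
  simp only [Function.comp]
  rw [sum_min_scale t f hV]
  have h : f x / V * V = f x := by field_simp
  rw [h]

/-- The real arithmetic of the pair inequality. -/
lemma core_P {n np V ρ δ σ L a b e ε dP dQ hP hQ S : ℝ} (hn : 1 ≤ n) (hnp : n ≤ 2 * np)
    (hV : 0 < V) (hρ : 0 < ρ) (hδ : 0 < δ) (hσ : 0 < σ) (hL : 0 < L)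
    (hδσ : δ * σ = V / (2 * Real.pi)) (hδ2 : δ ^ 2 = V / (2 * Real.pi * ρ))
    (he : 0 < e) (he1 : e ≤ ε / 100) (hε : ε < 1) (hρε : 1 ≤ ρ * ε)
    (hdP : 0 ≤ dP) (hdQ : 0 ≤ dQ) (hhP : 0 ≤ hP) (hhQ : 0 ≤ hQ) (ha : 0 ≤ a)
    (hdP' : dP ≤ (1 + e - a) * L * δ) (hdQ' : dQ ≤ (1 + e - a) * L * δ)
    (hhP' : hP ≤ (1 + e - b) * n * L * σ) (hhQ' : hQ ≤ (1 + e - b) * n * L * σ)
    (h : np * S ≤ dQ * hP + dP * hQ + n * (dP * (dQ * Real.log 2))) :
    S / V ≤ L ^ 2 * (2 / Real.pi * ((1 + ε - a) * (1 + ε - b)) + ε) := by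
  have hpi := Real.pi_gt_three
  have hpi0 : 0 < Real.pi := Real.pi_pos
  have hnp0 : 0 < np := by linarith
  have hn0 : 0 < n := by linarith
  have hlog0 : 0 < Real.log 2 := Real.log_pos (by norm_num)
  have hlog1 : Real.log 2 ≤ 1 := by
    have := Real.log_two_lt_d9
    linarith
  have hLδ : 0 < L * δ := mul_pos hL hδ
  have hnLσ : 0 < n * L * σ := by positivity
  have hA : 0 ≤ 1 + e - a := by
    by_contra hc
    push Not at hc
    have : (1 + e - a) * L * δ < 0 := by
      rw [mul_assoc]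
      exact mul_neg_of_neg_of_pos hc hLδ
    linarith
  have hB : 0 ≤ 1 + e - b := by
    by_contra hc
    push Not at hc
    have : (1 + e - b) * n * L * σ < 0 := by
      have h2 : (1 + e - b) * n * L * σ = (1 + e - b) * (n * L * σ) := by ring
      rw [h2]
      exact mul_neg_of_neg_of_pos hc hnLσ
    linarith
  have hAB : 0 ≤ (1 + e - a) * (1 + e - b) := mul_nonneg hA hB
  have h1 : dQ * hP ≤ ((1 + e - a) * L * δ) * ((1 + e - b) * n * L * σ) :=
    mul_le_mul hdQ' hhP' hhP (by positivity)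
  have h2 : dP * hQ ≤ ((1 + e - a) * L * δ) * ((1 + e - b) * n * L * σ) :=
    mul_le_mul hdP' hhQ' hhQ (by positivity)
  have hdP2 : dP ≤ (1 + e) * L * δ := by
    refine hdP'.trans ?_
    rw [mul_assoc, mul_assoc]
    exact mul_le_mul_of_nonneg_right (by linarith) hLδ.le
  have hdQ2 : dQ ≤ (1 + e) * L * δ := by
    refine hdQ'.trans ?_
    rw [mul_assoc, mul_assoc]
    exact mul_le_mul_of_nonneg_right (by linarith) hLδ.le
  have h3 : dP * (dQ * Real.log 2) ≤ ((1 + e) * L * δ) * (((1 + e) * L * δ) * Real.log 2) := by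
    refine mul_le_mul hdP2 (mul_le_mul_of_nonneg_right hdQ2 hlog0.le) (by positivity)
      (by positivity)
  have h4 : ((1 + e - a) * L * δ) * ((1 + e - b) * n * L * σ) =
      n * V * L ^ 2 * ((1 + e - a) * (1 + e - b) / (2 * Real.pi)) := by
    have : ((1 + e - a) * L * δ) * ((1 + e - b) * n * L * σ) =
      (1 + e - a) * (1 + e - b) * n * L ^ 2 * (δ * σ) := by ring
    rw [this, hδσ]
    ring
  have h5 : ((1 + e) * L * δ) * (((1 + e) * L * δ) * Real.log 2) =
      V * L ^ 2 * ((1 + e) ^ 2 * Real.log 2 / (2 * Real.pi * ρ)) := by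
    have : ((1 + e) * L * δ) * (((1 + e) * L * δ) * Real.log 2) =
      (1 + e) ^ 2 * L ^ 2 * Real.log 2 * δ ^ 2 := by ring
    rw [this, hδ2]
    ring
  set X := (1 + e - a) * (1 + e - b) / Real.pi + (1 + e) ^ 2 * Real.log 2 / (2 * Real.pi * ρ)
    with hX
  have hX0 : 0 ≤ X := by positivity
  have h6 : np * S ≤ n * V * L ^ 2 * X := by
    have h7 : n * (dP * (dQ * Real.log 2)) ≤
        n * (V * L ^ 2 * ((1 + e) ^ 2 * Real.log 2 / (2 * Real.pi * ρ))) := by
      rw [← h5]
      exact mul_le_mul_of_nonneg_left h3 hn0.le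
    have h8 : n * V * L ^ 2 * X = n * V * L ^ 2 * ((1 + e - a) * (1 + e - b) / (2 * Real.pi)) +
        n * V * L ^ 2 * ((1 + e - a) * (1 + e - b) / (2 * Real.pi)) +
        n * (V * L ^ 2 * ((1 + e) ^ 2 * Real.log 2 / (2 * Real.pi * ρ))) := by
      rw [hX]
      field_simp
      ring
    rw [h8]
    linarith
  have h9 : np * S ≤ np * (2 * (V * L ^ 2 * X)) := by
    refine h6.trans ?_
    have h10 : 0 ≤ V * L ^ 2 * X := by positivity
    calc n * V * L ^ 2 * X = n * (V * L ^ 2 * X) := by ring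
      _ ≤ (2 * np) * (V * L ^ 2 * X) := mul_le_mul_of_nonneg_right hnp h10
      _ = np * (2 * (V * L ^ 2 * X)) := by ring
  have h11 : S ≤ 2 * (V * L ^ 2 * X) := le_of_mul_le_mul_left h9 hnp0
  have h12 : S / V ≤ 2 * (L ^ 2 * X) := by
    rw [div_le_iff₀ hV]
    linarith
  refine h12.trans ?_
  have h13 : 2 * (L ^ 2 * X) = L ^ 2 * (2 * X) := by ring
  rw [h13]
  refine mul_le_mul_of_nonneg_left ?_ (by positivity)
  have h14 : (1 + e - a) * (1 + e - b) ≤ (1 + ε - a) * (1 + ε - b) :=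
    mul_le_mul (by linarith) (by linarith) hB (by linarith)
  have h15 : (1 + e) ^ 2 * Real.log 2 / (2 * Real.pi * ρ) ≤ ε / 2 := by
    rw [div_le_iff₀ (by positivity)]
    have h16 : (1 + e) ^ 2 * Real.log 2 ≤ 3 := by
      have h17 : (1 + e) ^ 2 ≤ 3 := by
        have h21 : (1 + e) ^ 2 ≤ (3 / 2) ^ 2 := pow_le_pow_left₀ (by linarith) (by linarith) 2
        have h22 : ((3 : ℝ) / 2) ^ 2 ≤ 3 := by norm_num
        linarith
      calc (1 + e) ^ 2 * Real.log 2 ≤ 3 * 1 :=
            mul_le_mul h17 hlog1 hlog0.le (by norm_num)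
        _ = 3 := by norm_num
    have h18 : 3 ≤ ε / 2 * (2 * Real.pi * ρ) := by
      have : ε / 2 * (2 * Real.pi * ρ) = Real.pi * (ρ * ε) := by ring
      rw [this]
      calc (3 : ℝ) = 3 * 1 := by norm_num
        _ ≤ Real.pi * (ρ * ε) := mul_le_mul hpi.le hρε (by norm_num) hpi0.le
    linarith
  have h19 : 2 * X = 2 / Real.pi * ((1 + e - a) * (1 + e - b)) +
      2 * ((1 + e) ^ 2 * Real.log 2 / (2 * Real.pi * ρ)) := by
    rw [hX]
    ring
  rw [h19]
  have h20 : 2 / Real.pi * ((1 + e - a) * (1 + e - b)) ≤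
      2 / Real.pi * ((1 + ε - a) * (1 + ε - b)) :=
    mul_le_mul_of_nonneg_left h14 (by positivity)
  linarith

/-- The real arithmetic of the inequality for the gcd. -/
lemma core_G {n np V δ σ L a b e ε dG hG S : ℝ} (hn : 1 ≤ n) (hnp : n ≤ 2 * np)
    (hV : 0 < V) (hL : 0 < L)
    (hδσ : δ * σ = V / (2 * Real.pi))
    (he : 0 < e) (he1 : e ≤ ε / 100) (hε : ε < 1) (ha : 0 ≤ a) (hb : 0 ≤ b)
    (hdG : dG = a * (L * δ)) (hhG : hG = b * (n * L * σ))
    (h : np * S ≤ (1 + 4 * e) * (76 / 25 / Real.sqrt (2 * Real.pi)) *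
      Real.sqrt (n * dG * hG / V) + e * ((1 + e) * n * L)) :
    S ≤ L * ((1 + ε) * (76 / 25 / Real.pi) * Real.sqrt (a * b) + ε) := by
  have hpi0 : 0 < Real.pi := Real.pi_pos
  have hnp0 : 0 < np := by linarith
  have hn0 : 0 < n := by linarith
  have hab : 0 ≤ a * b := mul_nonneg ha hb
  have h1 : n * dG * hG / V = (n * L / Real.sqrt (2 * Real.pi)) ^ 2 * (a * b) := by
    have h2 : n * dG * hG = n ^ 2 * L ^ 2 * (a * b) * (δ * σ) := by
      rw [hdG, hhG]; ring
    rw [h2, hδσ, div_pow, Real.sq_sqrt (by positivity)]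
    field_simp
  have h3 : Real.sqrt (n * dG * hG / V) =
      n * L / Real.sqrt (2 * Real.pi) * Real.sqrt (a * b) := by
    rw [h1, Real.sqrt_mul (by positivity), Real.sqrt_sq (by positivity)]
  have h4 : (1 + 4 * e) * (76 / 25 / Real.sqrt (2 * Real.pi)) *
      (n * L / Real.sqrt (2 * Real.pi) * Real.sqrt (a * b)) =
      n * (L * ((1 + 4 * e) * (76 / 25 / (2 * Real.pi)) * Real.sqrt (a * b))) := by
    have h5 : Real.sqrt (2 * Real.pi) * Real.sqrt (2 * Real.pi) = 2 * Real.pi :=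
      Real.mul_self_sqrt (by positivity)
    have h6 : (1 + 4 * e) * (76 / 25 / Real.sqrt (2 * Real.pi)) *
      (n * L / Real.sqrt (2 * Real.pi) * Real.sqrt (a * b)) =
      n * (L * ((1 + 4 * e) *
        (76 / 25 / (Real.sqrt (2 * Real.pi) * Real.sqrt (2 * Real.pi))) *
          Real.sqrt (a * b))) := by
      field_simp
    rw [h6, h5]
  rw [h3, h4] at h
  set X := (1 + 4 * e) * (76 / 25 / (2 * Real.pi)) * Real.sqrt (a * b) + e * (1 + e) with hX
  have hX0 : 0 ≤ X := by positivity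
  have h7 : np * S ≤ n * (L * X) := by
    refine h.trans (le_of_eq ?_)
    rw [hX]; ring
  have h8 : np * S ≤ np * (2 * (L * X)) := by
    refine h7.trans ?_
    have h9 : 0 ≤ L * X := by positivity
    calc n * (L * X) ≤ (2 * np) * (L * X) := mul_le_mul_of_nonneg_right hnp h9
      _ = np * (2 * (L * X)) := by ring
  have h10 : S ≤ 2 * (L * X) := le_of_mul_le_mul_left h8 hnp0
  refine h10.trans ?_
  have h11 : 2 * (L * X) = L * (2 * X) := by ring
  rw [h11]
  refine mul_le_mul_of_nonneg_left ?_ hL.le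
  have h12 : 2 * X = (1 + 4 * e) * ((76 / 25 / Real.pi) * Real.sqrt (a * b)) +
      2 * (e * (1 + e)) := by
    rw [hX]
    field_simp
  rw [h12]
  have h13 : 0 ≤ (76 / 25 / Real.pi) * Real.sqrt (a * b) := by positivity
  have h14 : (1 + 4 * e) * ((76 / 25 / Real.pi) * Real.sqrt (a * b)) ≤
      (1 + ε) * ((76 / 25 / Real.pi) * Real.sqrt (a * b)) :=
    mul_le_mul_of_nonneg_right (by linarith) h13
  have h15 : 2 * (e * (1 + e)) ≤ ε := by
    have h16 : e * (1 + e) ≤ e * 2 := mul_le_mul_of_nonneg_left (by linarith) he.le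
    linarith
  calc (1 + 4 * e) * ((76 / 25 / Real.pi) * Real.sqrt (a * b)) + 2 * (e * (1 + e))
      ≤ (1 + ε) * ((76 / 25 / Real.pi) * Real.sqrt (a * b)) + ε := add_le_add h14 h15
    _ = (1 + ε) * (76 / 25 / Real.pi) * Real.sqrt (a * b) + ε := by ring

end FinX

theorem p_Fin : StmtMul → StmtPair → StmtGB → StmtOut → StmtReal → StmtFin := by
  intro hMul hPair hGB hOut hReal F _ _ φ Y hdeg hI
  obtain ⟨ε, M, hε0, hε1, hM, hR⟩ := hReal
  obtain ⟨e, he⟩ : ∃ e : ℝ, e = ε / 100 := ⟨_, rfl⟩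
  have he0 : 0 < e := by rw [he]; positivity
  have he1 : e < 1 := by rw [he]; linarith
  have heε : e ≤ ε / 100 := he.le
  obtain ⟨V₁, hV₁, hGB'⟩ := hGB F φ Y hI e he0 he1
  obtain ⟨V₂, hV₂, hOut'⟩ := hOut F φ Y hI e he0 he1 M
  obtain ⟨V, hVV₁, hVV₂, hVe⟩ : ∃ V : ℝ, V₁ ≤ V ∧ V₂ ≤ V ∧ Real.exp ((1 / ε) ^ 2) ≤ V :=
    ⟨max V₁ (max V₂ (Real.exp ((1 / ε) ^ 2))), le_max_left _ _,
      (le_max_left _ _).trans (le_max_right _ _), (le_max_right _ _).trans (le_max_right _ _)⟩
  have hV0 : 0 < V := lt_of_lt_of_le (Real.exp_pos _) hVe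
  obtain ⟨L, G, g, P, h, hL1, hO⟩ := hOut' V hVV₂
  have hGB2 := hGB' V hVV₁ G g
  clear hOut' hGB'
  obtain ⟨ρ, hρ⟩ : ∃ ρ : ℝ, ρ = Real.sqrt (Real.log V) := ⟨_, rfl⟩
  rw [← hρ] at hO hGB2
  have hρε' : 1 / ε ≤ ρ := by
    rw [hρ]
    refine Real.le_sqrt_of_sq_le ?_
    rw [Real.le_log_iff_exp_le hV0]
    exact hVe
  have hρ0 : 0 < ρ := lt_of_lt_of_le (by positivity) hρε'
  have hρε : 1 ≤ ρ * ε := by
    rw [div_le_iff₀ hε0] at hρε'
    exact hρε'
  obtain ⟨δ, hδ⟩ : ∃ δ : ℝ, δ = Real.sqrt (V / (2 * Real.pi * ρ)) := ⟨_, rfl⟩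
  obtain ⟨σ, hσ⟩ : ∃ σ : ℝ, σ = Real.sqrt (V * ρ / (2 * Real.pi)) := ⟨_, rfl⟩
  rw [← hδ, ← hσ] at hO hGB2
  have hpi0 : 0 < Real.pi := Real.pi_pos
  have hδ0 : 0 < δ := by rw [hδ]; exact Real.sqrt_pos.mpr (by positivity)
  have hσ0 : 0 < σ := by rw [hσ]; exact Real.sqrt_pos.mpr (by positivity)
  have hδ2 : δ ^ 2 = V / (2 * Real.pi * ρ) := by
    rw [hδ, Real.sq_sqrt (by positivity)]
  have hδσ : δ * σ = V / (2 * Real.pi) := by
    rw [hδ, hσ, ← Real.sqrt_mul (by positivity)]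
    have h1 : V / (2 * Real.pi * ρ) * (V * ρ / (2 * Real.pi)) = (V / (2 * Real.pi)) ^ 2 := by
      field_simp
    rw [h1, Real.sqrt_sq (by positivity)]
  have hL0 : 0 < L := by linarith
  -- the degrees
  obtain ⟨n, hn⟩ : ∃ n : ℝ, n = (Module.finrank ℚ F : ℝ) := ⟨_, rfl⟩
  obtain ⟨np, hnp⟩ : ∃ np : ℝ, np = (nphi φ : ℝ) := ⟨_, rfl⟩
  have hn1 : 1 ≤ n := by
    rw [hn]
    have : 0 < Module.finrank ℚ F := Module.finrank_pos
    exact_mod_cast this
  have hnnp : n ≤ 2 * np := by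
    rw [hn, hnp]
    exact_mod_cast hdeg
  have hn0 : 0 < n := by linarith
  have hMulF := hMul F
  have hG0 : 0 ≤ hF G g := (hMulF.1 G g hO.Gm hO.Gng).1
  have hP0 : ∀ i, 0 ≤ hF (P i) (h i) := fun i => (hMulF.1 (P i) (h i) (hO.Pm i) (hO.Png i)).1
  have hLδ : 0 < L * δ := by positivity
  have hnLσ : 0 < n * L * σ := by positivity
  obtain ⟨a, ha⟩ : ∃ a : ℝ, a = (G.natDegree : ℝ) / (L * δ) := ⟨_, rfl⟩
  obtain ⟨b, hb⟩ : ∃ b : ℝ, b = hF G g / (n * L * σ) := ⟨_, rfl⟩
  have ha' : (G.natDegree : ℝ) = a * (L * δ) := by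
    rw [ha]; field_simp
  have hb' : hF G g = b * (n * L * σ) := by
    rw [hb]; field_simp
  have ha0 : 0 ≤ a := by rw [ha]; positivity
  have hb0 : 0 ≤ b := by rw [hb]; exact div_nonneg hG0 hnLσ.le
  have hdP : ∀ i, ((P i).natDegree : ℝ) ≤ (1 + e - a) * L * δ := by
    intro i
    have h1 := hO.deg i
    rw [ha'] at h1
    linarith
  have hhP : ∀ i, hF (P i) (h i) ≤ (1 + e - b) * n * L * σ := by
    intro i
    have h1 := hO.ht i
    rw [hb', ← hn] at h1
    linarith
  have i0 : Fin M := ⟨0, hM⟩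
  have hdG : (G.natDegree : ℝ) ≤ (1 + e) * L * δ := by
    have h1 := hO.deg i0
    have h2 : (0 : ℝ) ≤ (P i0).natDegree := Nat.cast_nonneg _
    linarith
  have hhG : hF G g ≤ (1 + e) * n * L * σ := by
    have h1 := hO.ht i0
    rw [← hn] at h1
    have h2 := hP0 i0
    linarith
  have ha1 : a ≤ 1 + ε := by
    have h1 : a ≤ 1 + e := by
      rw [ha, div_le_iff₀ hLδ]
      linarith
    linarith
  have hb1 : b ≤ 1 + ε := by
    have h1 : b ≤ 1 + e := by
      rw [hb, div_le_iff₀ hnLσ]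
      linarith
    linarith
  refine hR ε hε0 le_rfl L a b ((G.map φ).roots.map fun x => GSL.cl Y x / V)
    (fun i => ((P i).map φ).roots.map fun x => GSL.cl Y x / V) hL0 ha0 ha1 hb0 hb1 ?_ ?_ ?_ ?_ ?_
  · intro z hz
    obtain ⟨x, -, rfl⟩ := Multiset.mem_map.mp hz
    exact div_nonneg (FinX.cl_nonneg _ _) hV0.le
  · intro i z hz
    obtain ⟨x, -, rfl⟩ := Multiset.mem_map.mp hz
    exact div_nonneg (FinX.cl_nonneg _ _) hV0.le
  · intro i z hz0 hz1 m hm1 hm2
    have h1 := hO.jen i z hz0 hz1 m hm1 hm2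
    rw [FinX.sum_min_scale _ (GSL.cl Y) hV0, FinX.sum_min_scale _ (GSL.cl Y) hV0, ← add_div,
      le_div_iff₀ hV0]
    have h2 : (GSL.Fj m z - ε) * L * V ≤ (GSL.Fj m z - e) * (L * V) := by
      rw [mul_assoc]
      refine mul_le_mul_of_nonneg_right (by linarith) (by positivity)
    exact h2.trans h1
  · intro i j hij
    have h1 := hPair F φ Y (P i) (P j) (h i) (h j) (hO.Pm i) (hO.Pm j) (hO.cop i j hij)
      (hO.Png i) (hO.Png j) (hO.Pne i) (hO.Pne j)
    rw [← hn, ← hnp] at h1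
    show ((((P i).map φ).roots.map fun x => GSL.cl Y x / V).map fun x =>
      ((((P j).map φ).roots.map fun y => GSL.cl Y y / V).map (min x)).sum).sum ≤ _
    rw [FinX.sum_sum_min_scale _ _ (GSL.cl Y) hV0]
    exact FinX.core_P hn1 hnnp hV0 hρ0 hδ0 hσ0 hL0 hδσ hδ2 he0 heε hε1 hρε
      (Nat.cast_nonneg _) (Nat.cast_nonneg _) (hP0 i) (hP0 j) ha0 (hdP i) (hdP j)
      (hhP i) (hhP j) h1
  · have h1 := hGB2 ((1 + e) * n * L) hO.Gm hO.Gng hO.Gne ?_ ?_
    · rw [← hn, ← hnp] at h1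
      rw [Multiset.map_map]
      exact FinX.core_G hn1 hnnp hV0 hL0 hδσ he0 heε hε1 ha0 hb0 ha' hb' h1
    · refine hdG.trans ?_
      refine mul_le_mul_of_nonneg_right ?_ hδ0.le
      have h2 : (1 + e) * n * L = n * ((1 + e) * L) := by ring
      rw [h2]
      have h3 : 0 ≤ (1 + e) * L := by positivity
      calc (1 + e) * L = 1 * ((1 + e) * L) := by ring
        _ ≤ n * ((1 + e) * L) := mul_le_mul_of_nonneg_right hn1 h3
    · exact hhG

end GSQ

end

section

/-!
# Generic combinations of a finite set of polynomials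
-/

open Polynomial

namespace GSQ

namespace GCX

open Classical in
/-- Avoiding finitely many divisors. -/
lemma avoid {F : Type} [Field F] [CharZero F] (B : Finset F[X]) (f : F[X] → F[X])
    (D : Finset F[X]) : ∃ u : F[X] → ℕ, (∀ s, u s ≤ B.card) ∧
      ∀ p ∈ B, (∃ s ∈ D, ¬ p ∣ f s) → ¬ p ∣ ∑ s ∈ D, (u s : F[X]) * f s := by
  induction D using Finset.induction_on with
  | empty =>
    refine ⟨fun _ => 0, fun _ => Nat.zero_le _, fun p _ h => ?_⟩
    obtain ⟨s, hs, -⟩ := h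
    exact absurd hs (Finset.notMem_empty s)
  | insert a D ha ih =>
    obtain ⟨u, hu, h⟩ := ih
    set T : F[X] := ∑ s ∈ D, (u s : F[X]) * f s with hT
    set bad : F[X] → Finset ℕ := fun p => (Finset.range (B.card + 1)).filter
      (fun v => p ∣ (v : F[X]) * f a + T ∧ ∃ s ∈ insert a D, ¬ p ∣ f s) with hbad
    have h1 : ∀ p ∈ B, (bad p).card ≤ 1 := by
      intro p hp
      rw [Finset.card_le_one]
      intro v hv w hw
      by_contra hne
      obtain ⟨-, hv1, s, hs, hps⟩ := Finset.mem_filter.1 hv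
      obtain ⟨-, hw1, -⟩ := Finset.mem_filter.1 hw
      have h2 : p ∣ ((v : F[X]) - w) * f a := by
        have h3 := dvd_sub hv1 hw1
        have e : (v : F[X]) * f a + T - ((w : F[X]) * f a + T) = ((v : F[X]) - w) * f a := by
          ring
        rwa [e] at h3
      have hunit : IsUnit ((v : F[X]) - w) := by
        have e : (v : F[X]) - w = C ((v : F) - w) := by simp
        rw [e]
        apply Polynomial.isUnit_C.2
        rw [isUnit_iff_ne_zero, sub_ne_zero]
        exact_mod_cast hne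
      have h4 : p ∣ f a := (hunit.dvd_mul_left).1 h2
      have h5 : p ∣ T := (dvd_add_right (dvd_mul_of_dvd_right h4 _)).1 hv1
      rcases Finset.mem_insert.1 hs with rfl | hs'
      · exact hps h4
      · exact h p hp ⟨s, hs', hps⟩ h5
    have h2 : (B.biUnion bad).card ≤ B.card := by
      refine (Finset.card_biUnion_le).trans ?_
      calc ∑ p ∈ B, (bad p).card ≤ ∑ p ∈ B, 1 := Finset.sum_le_sum h1
        _ = B.card := by simp
    obtain ⟨v, hv, hvb⟩ : ∃ v ∈ Finset.range (B.card + 1), v ∉ B.biUnion bad := by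
      by_contra hcon
      push Not at hcon
      have h3 := Finset.card_le_card (show Finset.range (B.card + 1) ⊆ B.biUnion bad from hcon)
      rw [Finset.card_range] at h3
      omega
    refine ⟨Function.update u a v, fun s => ?_, fun p hp hex => ?_⟩
    · by_cases hs : s = a
      · subst hs
        rw [Function.update_self]
        exact Nat.lt_succ_iff.1 (Finset.mem_range.1 hv)
      · rw [Function.update_of_ne hs]
        exact hu s
    · rw [Finset.sum_insert ha, Function.update_self]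
      have h3 : ∑ s ∈ D, ((Function.update u a v s : ℕ) : F[X]) * f s = T := by
        refine Finset.sum_congr rfl fun s hs => ?_
        rw [Function.update_of_ne (show s ≠ a from fun h => ha (h ▸ hs))]
      rw [h3]
      intro hdiv
      exact hvb (Finset.mem_biUnion.2 ⟨p, hp, Finset.mem_filter.2 ⟨hv, hdiv, hex⟩⟩)

open Classical in
/-- The number of prime factors. -/
lemma card_factors {F : Type} [Field F] (Q : F[X]) (hQ : Q ≠ 0) :
    (UniqueFactorizationMonoid.normalizedFactors Q).toFinset.card ≤ Q.natDegree := by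
  refine (Multiset.toFinset_card_le _).trans ?_
  have h1 := UniqueFactorizationMonoid.prod_normalizedFactors hQ
  have h2 : (UniqueFactorizationMonoid.normalizedFactors Q).prod.natDegree = Q.natDegree :=
    Polynomial.natDegree_eq_of_degree_eq (Polynomial.degree_eq_degree_of_associated h1)
  rw [← h2, Polynomial.natDegree_multiset_prod _
    (UniqueFactorizationMonoid.zero_notMem_normalizedFactors Q)]
  have h3 := Multiset.card_nsmul_le_sum
    (s := (UniqueFactorizationMonoid.normalizedFactors Q).map natDegree) (a := 1) (by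
      intro x hx
      obtain ⟨q, hq, rfl⟩ := Multiset.mem_map.1 hx
      exact (UniqueFactorizationMonoid.irreducible_of_normalized_factor q hq).natDegree_pos)
  simpa using h3

/-- The recursion. -/
lemma build {F : Type} [Field F] [CharZero F] (D : Finset F[X]) (N : ℕ) (f c : F[X] → F[X])
    (hf : ∀ s ∈ D, (f s).natDegree ≤ N) (hc : ∑ s ∈ D, c s * f s = 1) (M : ℕ) :
    ∃ (u : Fin M → F[X] → ℕ), (∀ i s, u i s ≤ M * N + 1) ∧
      (∀ i, ∑ s ∈ D, (u i s : F[X]) * f s ≠ 0) ∧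
      ∀ i j, i ≠ j → IsCoprime (∑ s ∈ D, (u i s : F[X]) * f s)
        (∑ s ∈ D, (u j s : F[X]) * f s) := by
  classical
  induction M with
  | zero =>
    exact ⟨fun i => i.elim0, fun i => i.elim0, fun i => i.elim0, fun i => i.elim0⟩
  | succ M ih =>
    obtain ⟨u, hu, hne, hco⟩ := ih
    set P : Fin M → F[X] := fun i => ∑ s ∈ D, (u i s : F[X]) * f s with hP
    have hPd : ∀ i, (P i).natDegree ≤ N := by
      intro i
      refine Polynomial.natDegree_sum_le_of_forall_le _ _ fun s hs => ?_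
      refine (Polynomial.natDegree_mul_le).trans ?_
      rw [Polynomial.natDegree_natCast, zero_add]
      exact hf s hs
    set Q : F[X] := ∏ i, P i with hQ
    have hQ0 : Q ≠ 0 := Finset.prod_ne_zero_iff.2 fun i _ => hne i
    have hQd : Q.natDegree ≤ M * N := by
      refine (Polynomial.natDegree_prod_le _ _).trans ?_
      calc ∑ i, (P i).natDegree ≤ ∑ _i : Fin M, N := Finset.sum_le_sum fun i _ => hPd i
        _ = M * N := by simp
    set B : Finset F[X] :=
      insert 0 (UniqueFactorizationMonoid.normalizedFactors Q).toFinset with hB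
    have hBc : B.card ≤ M * N + 1 := by
      refine (Finset.card_insert_le _ _).trans ?_
      have := (card_factors Q hQ0).trans hQd
      omega
    obtain ⟨v, hv, hvB⟩ := avoid B f D
    set T : F[X] := ∑ s ∈ D, (v s : F[X]) * f s with hT
    have hex : ∀ p : F[X], ¬ IsUnit p → ∃ s ∈ D, ¬ p ∣ f s := by
      intro p hp
      by_contra hcon
      push Not at hcon
      apply hp
      apply isUnit_of_dvd_one
      rw [← hc]
      exact Finset.dvd_sum fun s hs => dvd_mul_of_dvd_right (hcon s hs) _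
    have hT0 : T ≠ 0 := by
      intro h0
      refine hvB 0 (Finset.mem_insert_self _ _) (hex 0 not_isUnit_zero) ?_
      rw [h0]
    have hTco : ∀ i, IsCoprime (P i) T := by
      intro i
      refine isCoprime_of_prime_dvd (fun h => hT0 h.2) fun z hz hzP hzT => ?_
      have hzQ : z ∣ Q := hzP.trans (Finset.dvd_prod_of_mem P (Finset.mem_univ i))
      obtain ⟨q, hq, hzq⟩ :=
        UniqueFactorizationMonoid.exists_mem_normalizedFactors_of_dvd hQ0 hz.irreducible hzQ
      have hqB : q ∈ B := Finset.mem_insert_of_mem (Multiset.mem_toFinset.2 hq)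
      have hqi := UniqueFactorizationMonoid.irreducible_of_normalized_factor q hq
      exact hvB q hqB (hex q hqi.not_isUnit) ((hzq.dvd_iff_dvd_left).1 hzT)
    have e1 : ∀ i : Fin M, ∑ s ∈ D, ((Fin.snoc (α := fun _ => F[X] → ℕ) u v i.castSucc s : ℕ) :
        F[X]) * f s = P i := by
      intro i
      rw [Fin.snoc_castSucc]
    have e2 : ∑ s ∈ D, ((Fin.snoc (α := fun _ => F[X] → ℕ) u v (Fin.last M) s : ℕ) :
        F[X]) * f s = T := by
      rw [Fin.snoc_last]
    refine ⟨Fin.snoc (α := fun _ => F[X] → ℕ) u v, ?_, ?_, ?_⟩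
    · intro i s
      refine Fin.lastCases ?_ (fun i => ?_) i
      · rw [Fin.snoc_last]
        refine (hv s).trans (hBc.trans ?_)
        nlinarith
      · rw [Fin.snoc_castSucc]
        refine (hu i s).trans ?_
        nlinarith
    · intro i
      refine Fin.lastCases ?_ (fun i => ?_) i
      · rw [e2]
        exact hT0
      · rw [e1]
        exact hne i
    · intro i j
      refine Fin.lastCases ?_ (fun i => ?_) i
      · refine Fin.lastCases ?_ (fun j => ?_) j
        · intro h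
          exact absurd rfl h
        · intro _
          rw [e1, e2]
          exact (hTco j).symm
      · refine Fin.lastCases ?_ (fun j => ?_) j
        · intro _
          rw [e1, e2]
          exact hTco i
        · intro h
          rw [e1, e1]
          exact hco i j fun h' => h (by rw [h'])

end GCX

open GCX in
theorem p_GC : StmtGC := by
  intro F _ _ D N M hex hdeg
  classical
  set I : Ideal F[X] := Ideal.span (D : Set F[X]) with hI
  set γ : F[X] := Submodule.IsPrincipal.generator I with hγ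
  have hIγ : Ideal.span {γ} = I := Ideal.span_singleton_generator I
  obtain ⟨P0, hP0D, hP0⟩ := hex
  have hγ0 : γ ≠ 0 := by
    intro h0
    rw [h0] at hIγ
    have h1 : P0 ∈ I := Ideal.subset_span (by exact_mod_cast hP0D)
    rw [← hIγ, Ideal.mem_span_singleton, zero_dvd_iff] at h1
    exact hP0 h1
  set G : F[X] := γ * C (γ.leadingCoeff)⁻¹ with hG
  have hGm : G.Monic := monic_mul_leadingCoeff_inv hγ0
  have hunit : IsUnit (C (γ.leadingCoeff)⁻¹ : F[X]) :=
    Polynomial.isUnit_C.2 (isUnit_iff_ne_zero.2 (inv_ne_zero (leadingCoeff_ne_zero.2 hγ0)))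
  have hGI : Ideal.span {G} = I := by
    rw [← hIγ, hG]
    exact Ideal.span_singleton_mul_right_unit hunit γ
  have hGD : ∀ Q ∈ D, G ∣ Q := by
    intro Q hQ
    rw [← Ideal.mem_span_singleton, hGI]
    exact Ideal.subset_span (by exact_mod_cast hQ)
  have hG0 : G ≠ 0 := hGm.ne_zero
  set f : F[X] → F[X] := fun s => s /ₘ G with hf
  have hfs : ∀ s ∈ D, s = G * f s := by
    intro s hs
    have h1 := modByMonic_add_div s G
    rw [(modByMonic_eq_zero_iff_dvd hGm).2 (hGD s hs), zero_add] at h1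
    exact h1.symm
  have hfd : ∀ s ∈ D, (f s).natDegree ≤ N := by
    intro s hs
    rw [hf]
    simp only
    rw [natDegree_divByMonic s hGm]
    exact (Nat.sub_le _ _).trans (hdeg s hs)
  obtain ⟨c, hc⟩ : ∃ c : F[X] → F[X], ∑ s ∈ D, c s * f s = 1 := by
    have h1 : G ∈ I := by
      rw [← hGI]
      exact Ideal.mem_span_singleton_self G
    rw [hI, Submodule.mem_span_finset] at h1
    obtain ⟨c, -, hc⟩ := h1
    refine ⟨c, ?_⟩
    have h2 : G * ∑ s ∈ D, c s * f s = G * 1 := by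
      rw [mul_one, Finset.mul_sum]
      conv_rhs => rw [← hc]
      refine Finset.sum_congr rfl fun s hs => ?_
      have h3 := hfs s hs
      rw [smul_eq_mul]
      linear_combination (-(c s)) * h3
    exact mul_left_cancel₀ hG0 h2
  obtain ⟨u, hu, hne, hco⟩ := build D N f c hfd hc M
  refine ⟨G, u, fun i => ∑ s ∈ D, (u i s : F[X]) * f s, hGm, hGD, hu, fun i => ?_, hne, hco⟩
  rw [Finset.mul_sum]
  refine Finset.sum_congr rfl fun s hs => ?_
  have h3 := hfs s hs
  linear_combination ((u i s : F[X])) * h3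

end GSQ

end

section

/-!
# Jensen's inequality with any leading coefficient
-/

open Polynomial

namespace GSQ

theorem p_JenC : StmtJenC := by
  intro Y c N x t B hc ht hx h
  have hc0 : 0 < ‖c‖ := norm_pos_iff.2 hc
  refine GSL.jen Y (c / ‖c‖) N x t (B + Real.log ‖c‖) ?_ ht hx ?_
  · rw [norm_div, Complex.norm_real, norm_norm, div_self hc0.ne']
  · intro y hy
    have h1 := h y hy
    rw [eval_mul, eval_C, norm_mul] at h1 ⊢
    rw [norm_div, Complex.norm_real, norm_norm, div_self hc0.ne', one_mul, neg_add, Real.exp_add,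
      Real.exp_neg (Real.log ‖c‖), Real.exp_log hc0, ← div_eq_mul_inv, le_div_iff₀ hc0]
    linarith

end GSQ

end

section

/-!
# MP_327059_nt, second part: Liouville inequality
-/

open Polynomial

namespace GSQ

namespace LiouX

/-- The logarithm of the value of a product of linear factors. -/
theorem log_eval (x : ℂ) (s : Multiset ℂ) (h : ∀ y ∈ s, x ≠ y) :
    (s.map fun a => X - C a).prod.eval x ≠ 0 ∧
      Real.log ‖(s.map fun a => X - C a).prod.eval x‖ =
        (s.map fun y => Real.log ‖x - y‖).sum := by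
  induction s using Multiset.induction_on with
  | empty => simp
  | cons a s ih =>
    have h1 := ih fun y hy => h y (Multiset.mem_cons_of_mem hy)
    have h2 : x - a ≠ 0 := sub_ne_zero.2 (h a (Multiset.mem_cons_self a s))
    rw [Multiset.map_cons, Multiset.prod_cons, eval_mul, eval_sub, eval_X, eval_C]
    refine ⟨mul_ne_zero h2 h1.1, ?_⟩
    rw [norm_mul, Real.log_mul (norm_ne_zero_iff.2 h2) (norm_ne_zero_iff.2 h1.1), h1.2,
      Multiset.map_cons, Multiset.sum_cons]

/-- The roots of coprime polynomials are different. -/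
theorem roots_ne {P Q : ℂ[X]} (h : IsCoprime P Q) (x : ℂ) (hx : x ∈ P.roots) (y : ℂ)
    (hy : y ∈ Q.roots) : x ≠ y := by
  rintro rfl
  obtain ⟨a, b, hab⟩ := h
  have h1 : P.eval x = 0 := (mem_roots'.1 hx).2
  have h2 : Q.eval x = 0 := (mem_roots'.1 hy).2
  have h3 := congrArg (eval x) hab
  rw [eval_add, eval_mul, eval_mul, h1, h2, eval_one, mul_zero, mul_zero, add_zero] at h3
  exact zero_ne_one h3

/-- The values at the roots for one embedding. -/
theorem one_emb {P Q : ℂ[X]} (c : ℂ) (hc : c ≠ 0) (hQ : Q.Monic) (h : IsCoprime P Q) :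
    (P.roots.map fun x => Real.log ‖(C c * Q).eval x‖).sum =
      P.natDegree * Real.log ‖c‖ +
        (P.roots.map fun x => (Q.roots.map fun y => Real.log ‖x - y‖).sum).sum := by
  have hsplit : (Q.roots.map fun a => X - C a).prod = Q := by
    have := (IsAlgClosed.splits Q).eq_prod_roots
    rw [hQ.leadingCoeff, map_one, one_mul] at this
    exact this.symm
  have h1 : ∀ x ∈ P.roots, Real.log ‖(C c * Q).eval x‖ =
      Real.log ‖c‖ + (Q.roots.map fun y => Real.log ‖x - y‖).sum := by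
    intro x hx
    have h2 := log_eval x Q.roots (roots_ne h x hx)
    rw [hsplit] at h2
    rw [eval_mul, eval_C, norm_mul, Real.log_mul (norm_ne_zero_iff.2 hc)
      (norm_ne_zero_iff.2 h2.1), h2.2]
  rw [Multiset.map_congr rfl h1, Multiset.sum_map_add, Multiset.map_const', Multiset.sum_replicate,
    nsmul_eq_mul]
  congr 2
  rw [(IsAlgClosed.splits P).natDegree_eq_card_roots]

end LiouX

/-- Liouville inequality. -/
theorem p_Liou : StmtSuper → StmtNG → StmtIntRes → StmtLiou := by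
  intro hS hN hI F _ _ Q g D hQ hg hint hD hcop
  have hc : D.leadingCoeff ≠ 0 := leadingCoeff_ne_zero.2 hD
  set c := D.leadingCoeff with hcdef
  set D1 : F[X] := C c⁻¹ * D with hD1
  have hDe : D = C c * D1 := by
    rw [hD1, ← mul_assoc, ← C_mul, mul_inv_cancel₀ hc, C_1, one_mul]
  have hD1m : D1.Monic := by
    rw [Monic, hD1, leadingCoeff_mul, leadingCoeff_C, ← hcdef, inv_mul_cancel₀ hc]
  have hcop1 : IsCoprime Q D1 := by
    rw [hDe] at hcop
    exact hcop.of_mul_right_right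
  have hdeg : D.natDegree = D1.natDegree := by
    rw [hDe, natDegree_C_mul hc]
  obtain ⟨g1, hg1⟩ := hN F D1 hD1m
  have h1 := hI F Q D1 g g1 hQ hD1m hcop1 hg hg1
  have h2 := hS F c D1 g1 hc hD1m hg1 (by rw [← hDe]; exact hint)
  have h3 : ∀ τ : F →+* ℂ, ((Q.map τ).roots.map fun x => Real.log ‖(D.map τ).eval x‖).sum =
      Q.natDegree * Real.log ‖τ c‖ + ((Q.map τ).roots.map fun x =>
        ((D1.map τ).roots.map fun y => Real.log ‖x - y‖).sum).sum := by
    intro τ
    have hc' : τ c ≠ 0 := by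
      rw [Ne, map_eq_zero]
      exact hc
    have hcop' : IsCoprime (Q.map τ) (D1.map τ) := by
      have := hcop1.map (mapRingHom τ)
      simpa using this
    have h4 := LiouX.one_emb (τ c) hc' (hD1m.map τ) hcop'
    rw [natDegree_map] at h4
    rw [← h4]
    have h5 : D.map τ = C (τ c) * D1.map τ := by
      conv_lhs => rw [hDe]
      rw [Polynomial.map_mul, map_C]
    rw [h5]
  rw [Finset.sum_congr rfl fun τ _ => h3 τ, Finset.sum_add_distrib, ← Finset.mul_sum, hdeg]
  have h6 : (Q.natDegree : ℝ) * Real.log g1.leadingCoeff ≤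
      Q.natDegree * ∑ τ : F →+* ℂ, Real.log ‖τ c‖ :=
    mul_le_mul_of_nonneg_left h2 (Nat.cast_nonneg _)
  linarith

end GSQ

end

section

/-!
# Multiplicativity and positivity of the sizes
-/

open Polynomial

namespace GSQ

namespace MulX

lemma log_nonneg {g : ℤ[X]} (h : 0 < g.leadingCoeff) : 0 ≤ Real.log (g.leadingCoeff : ℝ) := by
  refine Real.log_nonneg ?_
  exact_mod_cast h

lemma sum_map_add {α : Type} (s t : Multiset α) (f : α → ℝ) :
    ((s + t).map f).sum = (s.map f).sum + (t.map f).sum := by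
  rw [Multiset.map_add, Multiset.sum_add]

end MulX

open MulX

theorem p_Mul : StmtMul := by
  intro F _ _
  refine ⟨?_, ?_, ?_⟩
  · intro Q g _ hg
    have h1 := log_nonneg hg.pos
    refine ⟨?_, h1⟩
    unfold hF
    refine add_nonneg h1 (Finset.sum_nonneg fun τ _ => ?_)
    refine Multiset.sum_nonneg fun y hy => ?_
    obtain ⟨x, _, rfl⟩ := Multiset.mem_map.1 hy
    exact Real.posLog_nonneg
  · intro Q R g h hQ hR hg hh
    refine ⟨⟨hg.prim.mul hh.prim, ?_, ?_⟩, ?_⟩
    · rw [leadingCoeff_mul]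
      exact mul_pos hg.pos hh.pos
    · rw [Polynomial.map_mul, hg.eq, hh.eq, leadingCoeff_mul]
      simp only [Polynomial.map_mul, Finset.prod_mul_distrib, Int.cast_mul, C_mul]
      ring
    · unfold hF
      have hg0 : ((g.leadingCoeff : ℤ) : ℝ) ≠ 0 := by
        exact_mod_cast hg.pos.ne'
      have hh0 : ((h.leadingCoeff : ℤ) : ℝ) ≠ 0 := by
        exact_mod_cast hh.pos.ne'
      rw [leadingCoeff_mul, Int.cast_mul, Real.log_mul hg0 hh0]
      have hs : ∀ τ : F →+* ℂ, (((Q * R).map τ).roots.map fun x => Real.posLog ‖x‖).sum =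
          ((Q.map τ).roots.map fun x => Real.posLog ‖x‖).sum +
            ((R.map τ).roots.map fun x => Real.posLog ‖x‖).sum := by
        intro τ
        rw [Polynomial.map_mul, roots_mul ((hQ.map τ).mul (hR.map τ)).ne_zero, sum_map_add]
      simp only [hs, Finset.sum_add_distrib]
      ring
  · refine ⟨isPrimitive_one, ?_, ?_⟩
    · rw [leadingCoeff_one]
      exact one_pos
    · simp

end GSQ

end

section

/-!
# MP_327059_nt, QF: existence of the primitive norm polynomial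
-/

open Polynomial

namespace GSQ

namespace NGX

theorem exists_int_poly {f : ℚ[X]} (hf : f.Monic) : ∃ g : ℤ[X], g.IsPrimitive ∧
    0 < g.leadingCoeff ∧ g.map (Int.castRingHom ℚ) = C (g.leadingCoeff : ℚ) * f := by
  obtain ⟨b, hbM, hb⟩ := IsLocalization.integerNormalization_spec (nonZeroDivisors ℤ) f
  set G := IsLocalization.integerNormalization (nonZeroDivisors ℤ) f with hG
  have hb0 : ((b : ℤ) : ℚ) ≠ 0 := by
    have := nonZeroDivisors.ne_zero hbM
    exact_mod_cast this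
  have hmap : G.map (Int.castRingHom ℚ) = C ((b : ℤ) : ℚ) * f := by
    have h1 : (algebraMap ℤ ℚ) = Int.castRingHom ℚ := rfl
    rw [← h1, hb, Algebra.smul_def, Polynomial.algebraMap_apply]
    rfl
  have hG0 : G ≠ 0 := by
    intro h0
    rw [h0, Polynomial.map_zero] at hmap
    have := congrArg Polynomial.leadingCoeff hmap
    rw [leadingCoeff_mul, leadingCoeff_C, hf.leadingCoeff, leadingCoeff_zero, mul_one] at this
    exact hb0 this.symm
  have hcont : G.content ≠ 0 := by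
    rw [Ne, content_eq_zero_iff]
    exact hG0
  have hdec := G.eq_C_content_mul_primPart
  set g0 := G.primPart with hg0
  have hprim : g0.IsPrimitive := G.isPrimitive_primPart
  have hg00 : g0 ≠ 0 := hprim.ne_zero
  have hk : ((G.content : ℤ) : ℚ) ≠ 0 := by exact_mod_cast hcont
  have h2 : C ((G.content : ℤ) : ℚ) * g0.map (Int.castRingHom ℚ) = C ((b : ℤ) : ℚ) * f := by
    rw [← hmap]
    conv_rhs => rw [hdec]
    rw [Polynomial.map_mul, Polynomial.map_C]
    rfl
  have hinj : Function.Injective (Int.castRingHom ℚ) := Int.cast_injective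
  have h3 : ((G.content : ℤ) : ℚ) * (g0.leadingCoeff : ℚ) = ((b : ℤ) : ℚ) := by
    have := congrArg Polynomial.leadingCoeff h2
    rw [leadingCoeff_mul, leadingCoeff_mul, leadingCoeff_C, leadingCoeff_C, hf.leadingCoeff,
      mul_one, leadingCoeff_map_of_injective hinj] at this
    exact this
  have h4 : g0.map (Int.castRingHom ℚ) = C (g0.leadingCoeff : ℚ) * f := by
    have h5 : (C ((G.content : ℤ) : ℚ)) ≠ (0 : ℚ[X]) := by
      rw [Ne, C_eq_zero]
      exact hk
    apply mul_left_cancel₀ h5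
    rw [h2, ← h3, C_mul, mul_assoc]
  rcases lt_or_gt_of_ne (leadingCoeff_ne_zero.mpr hg00) with hneg | hpos
  · refine ⟨-g0, ?_, ?_, ?_⟩
    · intro r hr
      exact hprim r ((dvd_neg).mp hr)
    · rw [leadingCoeff_neg]
      linarith
    · rw [leadingCoeff_neg, Polynomial.map_neg, h4]
      push_cast
      rw [C_neg]
      ring
  · exact ⟨g0, hprim, hpos, h4⟩

end NGX

theorem p_NG (hNr : StmtNr) : StmtNG := by
  intro F _ _ Q hQ
  obtain ⟨⟨f, hf⟩, -⟩ := hNr F Q
  have hZ : (∏ τ : F →+* ℂ, Q.map τ).Monic := monic_prod_of_monic _ _ fun τ _ => hQ.map τ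
  have hfm : f.Monic := by
    apply monic_of_injective (algebraMap ℚ ℂ).injective
    rw [hf]
    exact hZ
  obtain ⟨g, hg1, hg2, hg3⟩ := NGX.exists_int_poly hfm
  refine ⟨g, hg1, hg2, ?_⟩
  have h6 : (Int.castRingHom ℂ) = (algebraMap ℚ ℂ).comp (Int.castRingHom ℚ) := by
    ext
    simp
  rw [h6, ← Polynomial.map_map, hg3, Polynomial.map_mul, hf, map_C]
  simp

end GSQ

end

section

/-!
# MP_327059_nt, second part: local parameters near `Y`
-/

open Polynomial Filter Topology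

namespace GSQ

namespace Near

lemma mul_wz (b : ℂ) (t n : ℤ) (hb : b ^ 2 = t * b - n) (p q : ℤ × ℤ) :
    wv b p * zv t b q = (GSL.Af t n p q : ℂ) + (GSL.Bf p q : ℂ) * b := by
  simp only [wv, zv, GSL.Af, GSL.Bf]
  push_cast
  linear_combination (p.2 : ℂ) * (q.1 : ℂ) * hb

lemma conj_quad (D : CDat) : ((D.t : ℂ) - D.β) ^ 2 = D.t * ((D.t : ℂ) - D.β) - D.n := by
  linear_combination D.quad

lemma conj_sub_ne (D : CDat) : ((D.t : ℂ) - D.β) - D.β ≠ 0 := by
  intro h
  obtain ⟨c, hc, h1⟩ := D.sep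
  have h2 := h1 D.t (-2) (Or.inr (by norm_num))
  have h3 : ((D.t : ℤ) : ℂ) * 1 + ((-2 : ℤ) : ℂ) * D.β = 0 := by
    push_cast
    linear_combination h
  rw [h3, norm_zero, mul_zero] at h2
  linarith

lemma exp_eq (D : CDat) (y e1 : ℂ) (he : Complex.exp e1 = y / D.Y) (p q : ℤ × ℤ) :
    (D.a₁ / D.a₂) ^ (GSL.Af D.t D.n p q) * y ^ (GSL.Bf p q) =
      Complex.exp (wv D.β p * zv D.t D.β q * (D.l - e1 / (((D.t : ℂ) - D.β) - D.β)) +
        wv ((D.t : ℂ) - D.β) p * zv D.t ((D.t : ℂ) - D.β) q *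
          (e1 / (((D.t : ℂ) - D.β) - D.β))) := by
  have hne := conj_sub_ne D
  rw [mul_wz _ _ _ D.quad, mul_wz _ _ _ (conj_quad D)]
  have h1 : ((GSL.Af D.t D.n p q : ℂ) + (GSL.Bf p q : ℂ) * D.β) *
      (D.l - e1 / (((D.t : ℂ) - D.β) - D.β)) +
      ((GSL.Af D.t D.n p q : ℂ) + (GSL.Bf p q : ℂ) * ((D.t : ℂ) - D.β)) *
        (e1 / (((D.t : ℂ) - D.β) - D.β)) =
      (GSL.Af D.t D.n p q : ℂ) * D.l + (GSL.Bf p q : ℂ) * (D.β * D.l + e1) := by
    have h2 : (((D.t : ℂ) - D.β) - D.β) * (e1 / (((D.t : ℂ) - D.β) - D.β)) = e1 :=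
      mul_div_cancel₀ e1 hne
    linear_combination (GSL.Bf p q : ℂ) * h2
  rw [h1, Complex.exp_add, Complex.exp_int_mul, Complex.exp_int_mul, Complex.exp_add, he, D.exp_l]
  have hY : D.Y ≠ 0 := Complex.exp_ne_zero _
  have h3 : Complex.exp (D.β * D.l) * (y / D.Y) = y := by
    change D.Y * (y / D.Y) = y
    exact mul_div_cancel₀ y hY
  rw [h3]

end Near

open Near in
theorem near : StmtNear := by
  intro D
  have hY : D.Y ≠ 0 := Complex.exp_ne_zero _
  have hYn : 0 < ‖D.Y‖ := norm_pos_iff.2 hY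
  have hne := conj_sub_ne D
  have hnn : 0 < ‖((D.t : ℂ) - D.β) - D.β‖ := norm_pos_iff.2 hne
  have hln : 0 < ‖D.l‖ := norm_pos_iff.2 D.l_ne
  have hA : D.A₀.eval D.Y ≠ 0 := D.A₀_ne
  set R : ℂ → ℂ := fun y => D.B₀.eval y / D.A₀.eval y with hR
  have hRY : R D.Y = D.l := D.l_eq.symm
  have hRd : DifferentiableAt ℂ R D.Y :=
    (D.B₀.differentiable D.Y).div (D.A₀.differentiable D.Y) hA
  obtain ⟨K, hK0, hK⟩ : ∃ K : ℝ, 0 < K ∧ ∀ᶠ y in 𝓝 D.Y, ‖R y - D.l‖ ≤ K * ‖y - D.Y‖ := by
    obtain ⟨K, hK0, hK⟩ := (hRd.hasFDerivAt.isBigO_sub).exists_pos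
    refine ⟨K, hK0, ?_⟩
    have h1 := hK.bound
    rw [hRY] at h1
    exact h1
  have hAc : ∀ᶠ y in 𝓝 D.Y, D.A₀.eval y ≠ 0 :=
    (D.A₀.continuous.continuousAt).eventually_ne hA
  have hAb : ∀ᶠ y in 𝓝 D.Y, ‖D.A₀.eval y‖ < ‖D.A₀.eval D.Y‖ + 1 := by
    have hc : ContinuousAt (fun y => ‖D.A₀.eval y‖) D.Y := D.A₀.continuous.norm.continuousAt
    exact hc.eventually_lt_const (by linarith)
  obtain ⟨ρ, hρ0, hρ⟩ := Metric.eventually_nhds_iff.1 (hK.and (hAc.and hAb))
  set Ce : ℝ := 3 / 2 / (‖D.Y‖ * ‖((D.t : ℂ) - D.β) - D.β‖) with hCe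
  have hCe0 : 0 < Ce := by positivity
  set Cs : ℝ := 2 * (Ce + K) / ‖D.l‖ with hCs
  have hCs0 : 0 < Cs := by positivity
  set r₀ : ℝ := min (min (ρ / 2) (1 / 2)) (min (‖D.Y‖ / 2) (min (‖D.l‖ / (2 * Ce)) (1 / Cs)))
    with hr0
  have hr0pos : 0 < r₀ := by
    rw [hr0]
    refine lt_min (lt_min (by positivity) (by norm_num)) (lt_min (by positivity)
      (lt_min (by positivity) (by positivity)))
  have hr0a : r₀ ≤ ρ / 2 := (min_le_left _ _).trans (min_le_left _ _)
  have hr0b : r₀ ≤ 1 / 2 := (min_le_left _ _).trans (min_le_right _ _)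
  have hr0c : r₀ ≤ ‖D.Y‖ / 2 := (min_le_right _ _).trans (min_le_left _ _)
  have hr0d : r₀ ≤ ‖D.l‖ / (2 * Ce) :=
    (min_le_right _ _).trans ((min_le_right _ _).trans (min_le_left _ _))
  have hr0e : r₀ ≤ 1 / Cs :=
    (min_le_right _ _).trans ((min_le_right _ _).trans (min_le_right _ _))
  set C₁ : ℝ := (‖D.Y‖ + 1) + (‖D.A₀.eval D.Y‖ + 1) + Ce + Cs + (‖D.l‖ + Ce) with hC1
  have hA0 : 0 ≤ ‖D.A₀.eval D.Y‖ := norm_nonneg _
  refine ⟨r₀, C₁, hr0pos, by linarith, by positivity, ?_⟩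
  intro y hy
  have hδ0 : 0 ≤ ‖y - D.Y‖ := norm_nonneg _
  have hdist : dist y D.Y < ρ := by
    rw [dist_eq_norm]; linarith
  obtain ⟨h1, h2, h3⟩ := hρ hdist
  have hyn : ‖y‖ ≤ ‖D.Y‖ + 1 := by
    have : ‖y‖ ≤ ‖D.Y‖ + ‖y - D.Y‖ := by
      calc ‖y‖ = ‖D.Y + (y - D.Y)‖ := by congr 1; ring
        _ ≤ _ := norm_add_le _ _
    linarith
  have hy0 : y ≠ 0 := by
    intro h0
    rw [h0, zero_sub, norm_neg] at hy
    linarith
  set z : ℂ := (y - D.Y) / D.Y with hz
  have hzn : ‖z‖ ≤ 1 / 2 := by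
    rw [hz, norm_div, div_le_iff₀ hYn]
    linarith
  have hyz : y / D.Y = 1 + z := by
    rw [hz]; field_simp; ring
  set e1 : ℂ := Complex.log (1 + z) with he1
  have he1n : ‖e1‖ ≤ 3 / 2 * ‖z‖ := Complex.norm_log_one_add_half_le_self hzn
  have hexp : Complex.exp e1 = y / D.Y := by
    rw [he1, hyz, Complex.exp_log]
    rw [← hyz]
    exact div_ne_zero hy0 hY
  set ε' : ℂ := e1 / (((D.t : ℂ) - D.β) - D.β) with hε
  have hεn : ‖ε'‖ ≤ Ce * ‖y - D.Y‖ := by
    rw [hε, norm_div, div_le_iff₀ hnn]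
    refine he1n.trans (le_of_eq ?_)
    rw [hz, norm_div, hCe]
    field_simp
  have hεl : ‖ε'‖ ≤ ‖D.l‖ / 2 := by
    refine hεn.trans ?_
    calc Ce * ‖y - D.Y‖ ≤ Ce * (‖D.l‖ / (2 * Ce)) :=
          mul_le_mul_of_nonneg_left (hy.trans hr0d) hCe0.le
      _ = ‖D.l‖ / 2 := by field_simp
  have hl'n : ‖D.l‖ / 2 ≤ ‖D.l - ε'‖ := by
    have := norm_sub_norm_le D.l ε'
    linarith
  have hl'0 : D.l - ε' ≠ 0 := by
    intro h0
    rw [h0, norm_zero] at hl'n
    linarith
  have hl'p : 0 < ‖D.l - ε'‖ := norm_pos_iff.2 hl'0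
  have h1s : ‖1 - R y / (D.l - ε')‖ ≤ Cs * ‖y - D.Y‖ := by
    have h4 : 1 - R y / (D.l - ε') = ((D.l - R y) - ε') / (D.l - ε') := by
      rw [eq_div_iff hl'0, sub_mul, div_mul_cancel₀ _ hl'0]
      ring
    have h5 : ‖(D.l - R y) - ε'‖ ≤ (Ce + K) * ‖y - D.Y‖ := by
      calc ‖(D.l - R y) - ε'‖ ≤ ‖D.l - R y‖ + ‖ε'‖ := norm_sub_le _ _
        _ ≤ K * ‖y - D.Y‖ + Ce * ‖y - D.Y‖ := by
            rw [norm_sub_rev D.l (R y)]
            exact add_le_add h1 hεn
        _ = _ := by ring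
    rw [h4, norm_div, div_le_iff₀ hl'p]
    calc ‖(D.l - R y) - ε'‖ ≤ (Ce + K) * ‖y - D.Y‖ := h5
      _ = Cs * ‖y - D.Y‖ * (‖D.l‖ / 2) := by rw [hCs]; field_simp
      _ ≤ Cs * ‖y - D.Y‖ * ‖D.l - ε'‖ :=
          mul_le_mul_of_nonneg_left hl'n (by positivity)
  have h1s1 : ‖1 - R y / (D.l - ε')‖ ≤ 1 := by
    refine h1s.trans ?_
    calc Cs * ‖y - D.Y‖ ≤ Cs * (1 / Cs) := mul_le_mul_of_nonneg_left (hy.trans hr0e) hCs0.le
      _ = 1 := by field_simp
  have hCeC : Ce ≤ C₁ := by rw [hC1]; linarith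
  have hCsC : Cs ≤ C₁ := by rw [hC1]; linarith
  refine ⟨hy0, h2, by rw [hC1]; linarith, by rw [hC1]; linarith, D.l - ε', ε',
    R y / (D.l - ε'), ?_, ?_, ?_, ?_, ?_, ?_, ?_⟩
  · rw [div_mul_cancel₀ _ hl'0]
  · exact hεn.trans (mul_le_mul_of_nonneg_right hCeC hδ0)
  · exact h1s.trans (mul_le_mul_of_nonneg_right hCsC hδ0)
  · calc ‖R y / (D.l - ε')‖ = ‖1 - (1 - R y / (D.l - ε'))‖ := by congr 1; ring
      _ ≤ ‖(1 : ℂ)‖ + ‖1 - R y / (D.l - ε')‖ := norm_sub_le _ _
      _ ≤ 2 := by rw [norm_one]; linarith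
  · calc ‖D.l - ε'‖ ≤ ‖D.l‖ + ‖ε'‖ := norm_sub_le _ _
      _ ≤ C₁ := by
          have h6 : Ce * ‖y - D.Y‖ ≤ Ce * 1 := mul_le_mul_of_nonneg_left (by linarith) hCe0.le
          rw [hC1]; linarith
  · have h7 : D.l - ε' - D.l = -ε' := by ring
    rw [h7, norm_neg]
    exact hεn.trans (mul_le_mul_of_nonneg_right hCeC hδ0)
  · intro p q
    exact exp_eq D y e1 hexp p q

end GSQ

end

section

/-!
# MP_327059_nt, QF: the norm polynomial is rational
-/

open Polynomial

namespace GSQ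

namespace NrX

theorem prod_emb {F : Type} [Field F] [NumberField F] (x : F) :
    ∏ τ : F →+* ℂ, τ x = algebraMap ℚ ℂ (Algebra.norm ℚ x) := by
  rw [Algebra.norm_eq_prod_embeddings ℚ ℂ x]
  exact Fintype.prod_equiv (RingHom.equivRatAlgHom F ℂ) _ _ (fun τ => rfl)

theorem eval_prod {F : Type} [Field F] [NumberField F] (P : F[X]) (k : ℕ) :
    (∏ τ : F →+* ℂ, P.map τ).eval (k : ℂ) = algebraMap ℚ ℂ (Algebra.norm ℚ (P.eval (k : F))) := by
  rw [← prod_emb, Polynomial.eval_prod]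
  refine Finset.prod_congr rfl fun τ _ => ?_
  have h : (k : ℂ) = τ (k : F) := by simp
  rw [h, eval_map_apply]

theorem rat_poly (Z : ℂ[X]) (r : ℕ → ℚ) (h : ∀ k : ℕ, Z.eval (k : ℂ) = algebraMap ℚ ℂ (r k)) :
    ∃ f : ℚ[X], f.map (algebraMap ℚ ℂ) = Z := by
  set s : Finset ℕ := Finset.range (Z.natDegree + 1) with hs
  set f : ℚ[X] := Lagrange.interpolate s (fun i => (i : ℚ)) r with hf
  have hinj : Set.InjOn (fun i : ℕ => (i : ℚ)) s := fun a _ b _ hab => by
    simpa using hab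
  have hinjC : Set.InjOn (fun i : ℕ => (i : ℂ)) s := fun a _ b _ hab => by
    simpa using hab
  refine ⟨f, ?_⟩
  refine Polynomial.eq_of_degrees_lt_of_eval_index_eq s hinjC ?_ ?_ ?_
  · rw [degree_map]
    exact Lagrange.degree_interpolate_lt _ hinj
  · rw [hs, Finset.card_range]
    exact (degree_le_natDegree).trans_lt (by exact_mod_cast Nat.lt_succ_self _)
  · intro i hi
    have h1 : (i : ℂ) = algebraMap ℚ ℂ (i : ℚ) := by simp
    rw [h i, h1, eval_map_apply, hf, Lagrange.eval_interpolate_at_node _ hinj hi]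

end NrX

theorem p_Nr : StmtNr := by
  intro F _ _ P
  have h1 := NrX.rat_poly (∏ τ : F →+* ℂ, P.map τ) (fun k => Algebra.norm ℚ (P.eval (k : F)))
    (fun k => NrX.eval_prod P k)
  refine ⟨h1, fun hint => ?_⟩
  obtain ⟨f, hf⟩ := h1
  have hS : (∏ τ : F →+* ℂ, P.map τ) ∈ lifts (algebraMap (integralClosure ℤ ℂ) ℂ) := by
    refine Subsemiring.prod_mem _ fun τ _ => ?_
    rw [lifts_iff_coeff_lifts]
    intro i
    rw [coeff_map]
    exact ⟨⟨τ (P.coeff i), (hint i).map τ.toIntAlgHom⟩, rfl⟩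
  have hci : ∀ i, IsIntegral ℤ (f.coeff i) := by
    intro i
    rw [lifts_iff_coeff_lifts] at hS
    obtain ⟨y, hy⟩ := hS i
    have h2 : IsIntegral ℤ (algebraMap ℚ ℂ (f.coeff i)) := by
      rw [← coeff_map, hf, ← hy]
      exact y.2
    exact (isIntegral_algebraMap_iff (algebraMap ℚ ℂ).injective).1 h2
  have hl : f ∈ lifts (algebraMap ℤ ℚ) := by
    rw [lifts_iff_coeff_lifts]
    intro i
    obtain ⟨y, hy⟩ := IsIntegrallyClosed.isIntegral_iff.1 (hci i)
    exact ⟨y, hy⟩
  obtain ⟨g, hg⟩ := (mem_lifts _).1 hl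
  refine ⟨g, ?_⟩
  have h6 : (Int.castRingHom ℂ) = (algebraMap ℚ ℂ).comp (algebraMap ℤ ℚ) := by
    ext
    simp
  rw [h6, ← Polynomial.map_map, hg, hf]

end GSQ

end

section

/-!
# MP_327059_nt, second part: the generic combinations of the families
-/

open Polynomial Filter Topology

namespace GSQ

namespace OutX

/-- A multiset of complex numbers as a family. -/
theorem fin_of (s : Multiset ℂ) : ∃ (N : ℕ) (x : Fin N → ℂ),
    (∀ f : ℂ → ℝ, (s.map f).sum = ∑ r, f (x r)) ∧
    (s.map fun a => X - C a).prod = ∏ r, (X - C (x r)) ∧ ∀ r, x r ∈ s := by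
  refine ⟨s.toList.length, fun r => s.toList[r.1], fun f => ?_, ?_, fun r => ?_⟩
  · rw [Fin.sum_univ_fun_getElem, Multiset.sum_map_toList]
  · rw [Fin.prod_univ_fun_getElem s.toList fun a : ℂ => (X - C a : ℂ[X]),
      Multiset.prod_map_toList]
  · exact Multiset.mem_toList.1 (List.getElem_mem _)

/-- Monic polynomials over `ℂ` as products. -/
theorem split {Q : ℂ[X]} (hQ : Q.Monic) : (Q.roots.map fun a => X - C a).prod = Q := by
  have := (IsAlgClosed.splits Q).eq_prod_roots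
  rw [hQ.leadingCoeff, map_one, one_mul] at this
  exact this.symm

/-- The size of one conjugate. -/
theorem one_size {c : ℂ} {Q : ℂ[X]} (hc : c ≠ 0) (hQ : Q.Monic) :
    Real.log ‖c‖ + (Q.roots.map fun x => Real.posLog ‖x‖).sum ≤ Real.log (GSL.l1 (C c * Q)) := by
  obtain ⟨N, x, h1, h2, -⟩ := fin_of Q.roots
  have hL : (C c * Q).leadingCoeff = c := by
    rw [leadingCoeff_mul, leadingCoeff_C, hQ.leadingCoeff, mul_one]
  have hne : C c * Q ≠ 0 := by
    rw [← leadingCoeff_ne_zero, hL]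
    exact hc
  obtain ⟨-, -, -, -, -, -, -, -, -, -, h⟩ := GSL.lone
  have h3 := h (C c * Q) hne N x (by rw [hL, ← h2, split hQ])
  rw [hL] at h3
  rw [h1]
  exact h3

theorem one_size' {c : ℂ} {Q : ℂ[X]} (hc : c ≠ 0) (hQ : Q.Monic) :
    Real.log ‖c‖ ≤ Real.log (GSL.l1 (C c * Q)) := by
  have h1 := one_size hc hQ
  have h2 : 0 ≤ (Q.roots.map fun x => Real.posLog ‖x‖).sum := by
    apply Multiset.sum_nonneg
    intro y hy
    obtain ⟨x, -, rfl⟩ := Multiset.mem_map.1 hy
    exact Real.posLog_nonneg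
  linarith

/-- Large values of `V`. -/
theorem large (C₀ c V₀ κ K : ℝ) (M : ℕ) (hc : 0 < c) (hκ : 0 < κ) (hK : 0 < K) :
    ∀ᶠ V : ℝ in atTop, V₀ ≤ V ∧ 1 < V ∧ C₀ ≤ √(Real.log V) ∧ √(Real.log V) ≤ c * Real.log V ∧
      √(V / (2 * Real.pi * √(Real.log V))) ≤ √(V * √(Real.log V) / (2 * Real.pi)) ∧
      2 / κ ≤ √(V * √(Real.log V) / (2 * Real.pi)) ∧
      Real.log (2 * M * √(V * √(Real.log V) / (2 * Real.pi)) + 1) ≤
        κ / 2 * √(V * √(Real.log V) / (2 * Real.pi)) ∧
      K * √(V * √(Real.log V) / (2 * Real.pi)) ≤ κ * V := by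
  have hπ := Real.pi_pos
  have hs : Tendsto (fun V : ℝ => √(Real.log V)) atTop atTop :=
    Real.tendsto_sqrt_atTop.comp Real.tendsto_log_atTop
  have hσ : Tendsto (fun V : ℝ => √(V * √(Real.log V) / (2 * Real.pi))) atTop atTop :=
    Real.tendsto_sqrt_atTop.comp ((tendsto_id.atTop_mul_atTop₀ hs).atTop_div_const (by positivity))
  have hlit := Real.isLittleO_log_id_atTop.bound
    (show 0 < 2 * Real.pi * κ ^ 2 / K ^ 2 by positivity)
  filter_upwards [eventually_ge_atTop V₀, eventually_gt_atTop 1, hs.eventually_ge_atTop C₀,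
    hs.eventually_ge_atTop (1 / c), hs.eventually_ge_atTop 1, hσ.eventually_ge_atTop (2 / κ),
    hσ.eventually_ge_atTop (16 * M / κ ^ 2), hlit] with V h1 h2 h3 h4 h5 h6 h7 h8
  have hV : 0 < V := by linarith
  have hl : 0 < Real.log V := Real.log_pos h2
  set s : ℝ := √(Real.log V) with hsdef
  have hss : s * s = Real.log V := Real.mul_self_sqrt hl.le
  have hs0 : 0 < s := by linarith
  refine ⟨h1, h2, h3, ?_, ?_, h6, ?_, ?_⟩
  · rw [← hss]
    have : 1 ≤ c * s := by
      rw [div_le_iff₀ hc] at h4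
      linarith
    nlinarith
  · apply Real.sqrt_le_sqrt
    rw [div_le_div_iff₀ (by positivity) (by positivity)]
    have h9 : V * 1 ≤ V * (s * s) := by
      apply mul_le_mul_of_nonneg_left _ hV.le
      nlinarith
    nlinarith
  · set σ : ℝ := √(V * s / (2 * Real.pi)) with hσdef
    have hσ0 : 0 < σ := by
      have : 0 < 2 / κ := by positivity
      linarith
    have hM : (0 : ℝ) ≤ M := Nat.cast_nonneg M
    rw [Real.log_le_iff_le_exp (by positivity)]
    have h10 := Real.quadratic_le_exp_of_nonneg (show 0 ≤ κ / 2 * σ by positivity)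
    have h11 : 16 * M ≤ σ * κ ^ 2 := by
      rwa [div_le_iff₀ (by positivity)] at h7
    have h12 : 16 * M * σ ≤ σ * κ ^ 2 * σ := mul_le_mul_of_nonneg_right h11 hσ0.le
    have h13 : 0 ≤ κ / 2 * σ := by positivity
    nlinarith
  · rw [Real.norm_of_nonneg hl.le, id, Real.norm_of_nonneg hV.le] at h8
    have h9 : s ≤ Real.log V := by
      rw [← hss]
      nlinarith
    have h10 : √(V * s / (2 * Real.pi)) ≤ κ * V / K := by
      apply Real.sqrt_le_iff.2
      refine ⟨by positivity, ?_⟩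
      rw [div_le_iff₀ (by positivity)]
      have h11 : s ≤ 2 * Real.pi * κ ^ 2 / K ^ 2 * V := h9.trans h8
      calc V * s ≤ V * (2 * Real.pi * κ ^ 2 / K ^ 2 * V) := mul_le_mul_of_nonneg_left h11 hV.le
        _ = _ := by ring
    rw [le_div_iff₀ hK] at h10
    linarith

/-- `l1` of a combination. -/
theorem l1_comb {F : Type} [Field F] (D : Finset F[X]) (τ : F →+* ℂ) (u : F[X] → ℕ) {U : ℕ}
    (hu : ∀ s, u s ≤ U) {B : ℝ} (hB : ∀ s ∈ D, GSL.l1 (s.map τ) ≤ B) :
    GSL.l1 ((∑ s ∈ D, (u s : F[X]) * s).map τ) ≤ D.card * (U * B) := by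
  obtain ⟨h0, -, hmul, hC, -, -, -, hsum, -, -, -⟩ := GSL.lone
  rw [Polynomial.map_sum]
  refine (hsum F[X] D _).trans ?_
  rw [← nsmul_eq_mul]
  refine Finset.sum_le_card_nsmul _ _ _ fun s hs => ?_
  rw [Polynomial.map_mul, Polynomial.map_natCast]
  refine (hmul _ _).trans ?_
  have h1 : GSL.l1 ((u s : ℂ[X])) = u s := by
    have := hC (u s : ℂ)
    rw [Polynomial.C_eq_natCast] at this
    rw [this]
    simp
  rw [h1]
  have h2 : (u s : ℝ) ≤ U := by exact_mod_cast hu s
  exact mul_le_mul h2 (hB s hs) (h0 _) (Nat.cast_nonneg _)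

/-- Values of a combination. -/
theorem eval_comb {F : Type} [Field F] (D : Finset F[X]) (φ : F →+* ℂ) (u : F[X] → ℕ) {U : ℕ}
    (hu : ∀ s, u s ≤ U) {B : ℝ} (y : ℂ) (hB : ∀ s ∈ D, ‖(s.map φ).eval y‖ ≤ B) :
    ‖((∑ s ∈ D, (u s : F[X]) * s).map φ).eval y‖ ≤ D.card * (U * B) := by
  rw [Polynomial.map_sum, eval_finsetSum]
  refine (norm_sum_le _ _).trans ?_
  rw [← nsmul_eq_mul]
  refine Finset.sum_le_card_nsmul _ _ _ fun s hs => ?_
  rw [Polynomial.map_mul, Polynomial.map_natCast, eval_mul, eval_natCast, norm_mul,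
    Complex.norm_natCast]
  have h2 : (u s : ℝ) ≤ U := by exact_mod_cast hu s
  exact mul_le_mul h2 (hB s hs) (norm_nonneg _) (Nat.cast_nonneg _)

end OutX

open OutX in
theorem p_Out : StmtNG → StmtMul → StmtSuper → StmtJenC → StmtTrans → StmtGC → StmtOut := by
  intro hNG hMul hSuper hJen hTrans hGC F _ _ φ Y hI ε hε hε1 M
  obtain ⟨C₀, c, V₀, hC₀, hc, hV₀, hfam⟩ := hI (ε / 100) (by positivity) (by linarith)
  have hκ : 0 < ε / 100 := by positivity
  set κ : ℝ := ε / 100 with hκdef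
  have hn0 : (0 : ℝ) ≤ Module.finrank ℚ F := Nat.cast_nonneg _
  obtain ⟨V₁, hV₁⟩ := eventually_atTop.1 (large C₀ c V₀ κ
    (4 * (Module.finrank ℚ F + 1)) M hc hκ (by positivity))
  refine ⟨max V₁ 2, lt_max_of_lt_right (by norm_num), fun V hV => ?_⟩
  obtain ⟨h1, h2, h3, h4, h5, h6, h7, h8⟩ := hV₁ V ((le_max_left _ _).trans hV)
  obtain ⟨L, D, hL, hD⟩ := hfam V (√(Real.log V)) h1 h3 h4
  set σ : ℝ := √(V * √(Real.log V) / (2 * Real.pi)) with hσdef
  set δ : ℝ := √(V / (2 * Real.pi * √(Real.log V))) with hδdef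
  have hV0 : 0 < V := by linarith
  have hL0 : 0 < L := by linarith
  have hσ0 : 0 < σ := by
    have : 0 < 2 / κ := by positivity
    linarith
  have hδ0 : 0 ≤ δ := Real.sqrt_nonneg _
  have hLσ : 0 < L * σ := mul_pos hL0 hσ0
  -- the degree
  obtain ⟨P₀, hP₀, hP₀Y⟩ := hD.NV Y (by
    rw [sub_self, norm_zero]
    exact (Real.exp_pos _).le)
  set N : ℕ := D.sup natDegree with hNdef
  have hN : ∀ P ∈ D, P.natDegree ≤ N := fun P hP => Finset.le_sup (f := natDegree) hP
  have hN2 : (N : ℝ) ≤ (1 + κ) * L * δ := by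
    obtain ⟨P, hP, hPe⟩ := Finset.exists_mem_eq_sup D ⟨P₀, hP₀⟩ natDegree
    rw [hNdef, hPe]
    exact hD.deg P hP
  have hP₀0 : P₀ ≠ 0 := by
    rintro rfl
    simp at hP₀Y
  obtain ⟨G, u, P', hGm, hGd, hu, hsum, hP0, hcop⟩ := hGC F D N M ⟨P₀, hP₀, hP₀0⟩ hN
  -- normalisation
  have hc0 : ∀ i, (P' i).leadingCoeff ≠ 0 := fun i => leadingCoeff_ne_zero.2 (hP0 i)
  set P : Fin M → F[X] := fun i => C (P' i).leadingCoeff⁻¹ * P' i with hPdef
  have hPm : ∀ i, (P i).Monic := fun i => by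
    rw [Monic, hPdef]
    simp only
    rw [leadingCoeff_mul, leadingCoeff_C, inv_mul_cancel₀ (hc0 i)]
  have hT : ∀ i, ∑ s ∈ D, (u i s : F[X]) * s = C (P' i).leadingCoeff * (G * P i) := fun i => by
    rw [hsum i, hPdef]
    simp only
    rw [mul_left_comm G, ← mul_assoc (C _) (C _), ← C_mul, mul_inv_cancel₀ (hc0 i), C_1, one_mul]
  obtain ⟨g, hg⟩ := hNG F G hGm
  choose h hh using fun i => hNG F (P i) (hPm i)
  have hτ0 : ∀ (i : Fin M) (τ : F →+* ℂ), τ (P' i).leadingCoeff ≠ 0 := fun i τ => by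
    simpa using hc0 i
  have hGPm : ∀ i, (G * P i).Monic := fun i => hGm.mul (hPm i)
  have hTτ : ∀ (i : Fin M) (τ : F →+* ℂ), (∑ s ∈ D, (u i s : F[X]) * s).map τ =
      C (τ (P' i).leadingCoeff) * (G * P i).map τ := fun i τ => by
    rw [hT i, Polynomial.map_mul, map_C]
  -- the number of terms
  have hB : (D.card : ℝ) * ((M * N + 1 : ℕ) : ℝ) ≤ Real.exp (2 * κ * L * σ) := by
    have e1 : ((M * N + 1 : ℕ) : ℝ) ≤ Real.exp (κ * L * σ) := by
      have hM : (0 : ℝ) ≤ M := Nat.cast_nonneg M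
      have e2 : ((M * N + 1 : ℕ) : ℝ) ≤ L * (2 * M * σ + 1) := by
        push_cast
        have e3 : (M : ℝ) * N ≤ M * ((1 + κ) * L * δ) := mul_le_mul_of_nonneg_left hN2 hM
        have e4 : (1 + κ) * L * δ ≤ 2 * L * σ := by
          have : (1 + κ) * L ≤ 2 * L := by nlinarith
          exact mul_le_mul this h5 hδ0 (by positivity)
        have e5 : (M : ℝ) * ((1 + κ) * L * δ) ≤ M * (2 * L * σ) :=
          mul_le_mul_of_nonneg_left e4 hM
        nlinarith
      have e6 : 2 * M * σ + 1 ≤ Real.exp (κ / 2 * σ) := by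
        rw [← Real.log_le_iff_le_exp (by positivity)]
        exact h7
      have e7 : L ≤ Real.exp (κ / 2 * (L * σ)) := by
        have e8 : L ≤ κ / 2 * (L * σ) := by
          rw [div_le_iff₀ hκ] at h6
          nlinarith
        have e9 := Real.add_one_le_exp (κ / 2 * (L * σ))
        linarith
      have e10 : Real.exp (κ / 2 * σ) ≤ Real.exp (κ / 2 * (L * σ)) := by
        apply Real.exp_le_exp.2
        apply mul_le_mul_of_nonneg_left _ (by positivity)
        exact le_mul_of_one_le_left hσ0.le hL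
      calc ((M * N + 1 : ℕ) : ℝ) ≤ L * (2 * M * σ + 1) := e2
        _ ≤ Real.exp (κ / 2 * (L * σ)) * Real.exp (κ / 2 * (L * σ)) :=
          mul_le_mul e7 (e6.trans e10) (by positivity) (Real.exp_pos _).le
        _ = Real.exp (κ * L * σ) := by
          rw [← Real.exp_add]
          ring_nf
    calc (D.card : ℝ) * ((M * N + 1 : ℕ) : ℝ)
        ≤ Real.exp (κ * L * σ) * Real.exp (κ * L * σ) :=
          mul_le_mul hD.card e1 (Nat.cast_nonneg _) (Real.exp_pos _).le
      _ = Real.exp (2 * κ * L * σ) := by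
          rw [← Real.exp_add]
          ring_nf
  -- the size
  have hl1 : ∀ (i : Fin M) (τ : F →+* ℂ),
      GSL.l1 (C (τ (P' i).leadingCoeff) * (G * P i).map τ) ≤ Real.exp ((1 + 3 * κ) * L * σ) := by
    intro i τ
    rw [← hTτ]
    refine (l1_comb D τ (u i) (hu i) fun s hs => hD.height s hs τ).trans ?_
    rw [← mul_assoc]
    calc (D.card : ℝ) * ((M * N + 1 : ℕ) : ℝ) * Real.exp ((1 + κ) * L * σ)
        ≤ Real.exp (2 * κ * L * σ) * Real.exp ((1 + κ) * L * σ) :=
          mul_le_mul_of_nonneg_right hB (Real.exp_pos _).le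
      _ = _ := by
          rw [← Real.exp_add]
          ring_nf
  have hlog : ∀ (i : Fin M) (τ : F →+* ℂ),
      Real.log (GSL.l1 (C (τ (P' i).leadingCoeff) * (G * P i).map τ)) ≤
        (1 + 3 * κ) * L * σ := by
    intro i τ
    have h0 : 0 ≤ GSL.l1 (C (τ (P' i).leadingCoeff) * (G * P i).map τ) := GSL.lone.1 _
    rcases h0.eq_or_lt with h0 | h0
    · rw [← h0, Real.log_zero]
      positivity
    · rw [Real.log_le_iff_le_exp h0]
      exact hl1 i τ
  have hsup : ∀ i, 0 ≤ Real.log (g * h i).leadingCoeff ∧ Real.log (g * h i).leadingCoeff ≤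
      ∑ τ : F →+* ℂ, Real.log ‖τ (P' i).leadingCoeff‖ := by
    intro i
    have hng := ((hMul F).2.1 G (P i) g (h i) hGm (hPm i) hg (hh i)).1
    refine ⟨((hMul F).1 (G * P i) (g * h i) (hGPm i) hng).2, ?_⟩
    refine hSuper F _ (G * P i) (g * h i) (hc0 i) (hGPm i) hng fun j => ?_
    rw [← hT i, finsetSum_coeff]
    refine IsIntegral.sum _ fun s hs => ?_
    rw [← Polynomial.C_eq_natCast, coeff_C_mul]
    refine IsIntegral.mul ?_ (hD.coeff s hs j)
    have e1 := isIntegral_algebraMap (R := ℤ) (A := F) (x := ((u i s : ℕ) : ℤ))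
    simpa using e1
  have hcard : ((Finset.univ : Finset (F →+* ℂ)).card : ℝ) = Module.finrank ℚ F := by
    rw [Finset.card_univ, NumberField.Embeddings.card]
  have hGne : ∀ x ∈ (G.map φ).roots, x ≠ Y ∧ GSL.cl Y x ≤ (1 + ε) * V := by
    intro x hx
    have hGx : (G.map φ).eval x = 0 := (mem_roots'.1 hx).2
    have hfar : Real.exp (-((1 + κ) * V)) < ‖x - Y‖ := by
      by_contra hcon
      push Not at hcon
      obtain ⟨Q, hQ, hQx⟩ := hD.NV x hcon
      apply hQx
      obtain ⟨R, hR⟩ := hGd Q hQ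
      rw [hR, Polynomial.map_mul, eval_mul, hGx, zero_mul]
    have hpos : 0 < ‖x - Y‖ := (Real.exp_pos _).trans hfar
    refine ⟨?_, ?_⟩
    · rintro rfl
      simp at hpos
    · unfold GSL.cl
      apply max_le (by positivity)
      have e1 := Real.log_lt_log (Real.exp_pos _) hfar
      rw [Real.log_exp] at e1
      have e2 : (1 + κ) * V ≤ (1 + ε) * V := by
        apply mul_le_mul_of_nonneg_right _ hV0.le
        linarith
      linarith
  have hPne : ∀ i, ∀ x ∈ ((P i).map φ).roots, x ≠ Y := by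
    rintro i x hx rfl
    exact hTrans F φ x hI (P i) (hPm i).ne_zero (mem_roots'.1 hx).2
  refine ⟨L, G, g, P, h, hL, ?_⟩
  refine ⟨hGm, hg, hPm, hh, ?_, ?_, ?_, ?_, ?_, ?_⟩
  · intro i j hij
    have := hcop i j hij
    refine IsCoprime.of_isCoprime_of_dvd_left (IsCoprime.of_isCoprime_of_dvd_right this ?_) ?_
    · exact ⟨C (P' j).leadingCoeff, by
        rw [hPdef]
        simp only
        rw [mul_right_comm, ← C_mul, inv_mul_cancel₀ (hc0 j), C_1, one_mul]⟩
    · exact ⟨C (P' i).leadingCoeff, by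
        rw [hPdef]
        simp only
        rw [mul_right_comm, ← C_mul, inv_mul_cancel₀ (hc0 i), C_1, one_mul]⟩
  · intro i
    have e1 : G.natDegree + (P i).natDegree ≤ N := by
      rw [← hGm.natDegree_mul (hPm i), ← natDegree_C_mul (hc0 i), ← hT i]
      refine natDegree_sum_le_of_forall_le _ _ fun s hs => ?_
      refine natDegree_mul_le.trans ?_
      rw [natDegree_natCast, zero_add]
      exact hN s hs
    have e2 : (G.natDegree : ℝ) + (P i).natDegree ≤ N := by exact_mod_cast e1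
    have e3 : (1 + κ) * L * δ ≤ (1 + ε) * L * δ := by
      apply mul_le_mul_of_nonneg_right _ hδ0
      apply mul_le_mul_of_nonneg_right _ hL0.le
      linarith
    linarith
  · intro i
    have hng := ((hMul F).2.1 G (P i) g (h i) hGm (hPm i) hg (hh i)).2
    rw [← hng]
    unfold hF
    have e1 : ∀ τ : F →+* ℂ, Real.log ‖τ (P' i).leadingCoeff‖ +
        ((((G * P i).map τ).roots.map fun x => Real.posLog ‖x‖).sum) ≤ (1 + 3 * κ) * L * σ :=
      fun τ => (one_size (hτ0 i τ) ((hGPm i).map τ)).trans (hlog i τ)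
    have e2 := Finset.sum_le_card_nsmul Finset.univ _ _ fun τ (_ : τ ∈ Finset.univ) => e1 τ
    rw [Finset.sum_add_distrib, nsmul_eq_mul, hcard] at e2
    have e3 := (hsup i).2
    have e4 : (Module.finrank ℚ F : ℝ) * ((1 + 3 * κ) * L * σ) ≤
        (1 + ε) * (Module.finrank ℚ F) * L * σ := by
      have e5 : (1 + 3 * κ) * (Module.finrank ℚ F * (L * σ)) ≤
          (1 + ε) * (Module.finrank ℚ F * (L * σ)) := by
        apply mul_le_mul_of_nonneg_right _ (by positivity)
        linarith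
      linarith
    linarith
  · exact hGne
  · exact hPne
  · intro i z hz1 hz2 m hm1 hm2
    have hmap : ((G * P i).map φ).Monic := (hGPm i).map φ
    have hGφ : (G.map φ) ≠ 0 := (hGm.map φ).ne_zero
    have hPφ : ((P i).map φ) ≠ 0 := ((hPm i).map φ).ne_zero
    have hroots : ((G * P i).map φ).roots = (G.map φ).roots + ((P i).map φ).roots := by
      rw [Polynomial.map_mul, roots_mul (mul_ne_zero hGφ hPφ)]
    obtain ⟨N', x, hx1, hx2, hx3⟩ := fin_of ((G * P i).map φ).roots
    rw [split hmap] at hx2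
    have hxY : ∀ r, x r ≠ Y := by
      intro r
      have := hx3 r
      rw [hroots, Multiset.mem_add] at this
      rcases this with this | this
      · exact (hGne _ this).1
      · exact hPne i _ this
    have hJ := hJen Y (φ (P' i).leadingCoeff) N' x (z * V)
      ((GSL.Fj m z - κ) * (L * V) - 2 * κ * L * σ) (hτ0 i φ) (by positivity) hxY (by
        intro y hy
        rw [← hx2, ← hTτ i φ]
        refine (eval_comb D φ (u i) (hu i) y fun s hs => hD.E2 s hs z hz1 hz2 m hm1 hm2 y hy).trans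
          ?_
        rw [← mul_assoc]
        calc (D.card : ℝ) * ((M * N + 1 : ℕ) : ℝ) * Real.exp (-((GSL.Fj m z - κ) * (L * V)))
            ≤ Real.exp (2 * κ * L * σ) * Real.exp (-((GSL.Fj m z - κ) * (L * V))) :=
              mul_le_mul_of_nonneg_right hB (Real.exp_pos _).le
          _ = _ := by
              rw [← Real.exp_add]
              ring_nf)
    rw [← hx1 (fun x => min (z * V) (GSL.cl Y x)), hroots, Multiset.map_add,
      Multiset.sum_add] at hJ
    have hlow : -((Module.finrank ℚ F : ℝ) * ((1 + 3 * κ) * L * σ)) ≤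
        Real.log ‖φ (P' i).leadingCoeff‖ := by
      classical
      have e1 := (hsup i).1.trans (hsup i).2
      rw [← Finset.add_sum_erase _ _ (Finset.mem_univ φ)] at e1
      have e2 := Finset.sum_le_card_nsmul (Finset.univ.erase φ) _ _
        fun τ (_ : τ ∈ Finset.univ.erase φ) =>
          (one_size' (hτ0 i τ) ((hGPm i).map τ)).trans (hlog i τ)
      rw [nsmul_eq_mul] at e2
      have e3 : ((Finset.univ.erase φ).card : ℝ) ≤ Module.finrank ℚ F := by
        rw [← hcard]
        exact_mod_cast Finset.card_erase_le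
      have e4 : ((Finset.univ.erase φ).card : ℝ) * ((1 + 3 * κ) * L * σ) ≤
          (Module.finrank ℚ F : ℝ) * ((1 + 3 * κ) * L * σ) :=
        mul_le_mul_of_nonneg_right e3 (by positivity)
      linarith
    have hfin : (2 * κ + Module.finrank ℚ F * (1 + 3 * κ)) * (L * σ) ≤ (ε - κ) * (L * V) := by
      have e1 : 2 * κ + Module.finrank ℚ F * (1 + 3 * κ) ≤ 4 * (Module.finrank ℚ F + 1) := by
        have hκ1 : κ ≤ 1 := by linarith
        nlinarith
      have e2 : (2 * κ + Module.finrank ℚ F * (1 + 3 * κ)) * (L * σ) ≤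
          4 * (Module.finrank ℚ F + 1) * (L * σ) := mul_le_mul_of_nonneg_right e1 hLσ.le
      have e3 : L * (4 * (Module.finrank ℚ F + 1) * σ) ≤ L * (κ * V) :=
        mul_le_mul_of_nonneg_left h8 hL0.le
      have e4 : κ * (L * V) ≤ (ε - κ) * (L * V) := by
        apply mul_le_mul_of_nonneg_right _ (by positivity)
        linarith
      linarith
    have hexp : (GSL.Fj m z - ε) * (L * V) =
        ((GSL.Fj m z - κ) * (L * V) - 2 * κ * L * σ) -
          (Module.finrank ℚ F : ℝ) * ((1 + 3 * κ) * L * σ) -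
          ((ε - κ) * (L * V) - (2 * κ + Module.finrank ℚ F * (1 + 3 * κ)) * (L * σ)) := by
      ring
    rw [hexp]
    linarith

end GSQ

end

section

set_option autoImplicit false

/-!
# The mutual energy of two coprime polynomials
-/

open Polynomial Filter Topology

namespace GSQ

namespace PairX

theorem log_le (x y : ℂ) :
    Real.log ‖x - y‖ ≤ Real.log 2 + Real.posLog ‖x‖ + Real.posLog ‖y‖ := by
  have h := Real.posLog_norm_add_le x (-y)
  rw [norm_neg, ← sub_eq_add_neg] at h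
  have h1 : Real.log ‖x - y‖ ≤ Real.posLog ‖x - y‖ := le_max_right _ _
  linarith

theorem log_le' {x y Y : ℂ} (hxy : x ≠ y) (hx : x ≠ Y) (hy : y ≠ Y) :
    Real.log ‖x - y‖ ≤ Real.log 2 + Real.posLog ‖x‖ + Real.posLog ‖y‖ -
      min (GSL.cl Y x) (GSL.cl Y y) := by
  set m := min (GSL.cl Y x) (GSL.cl Y y) with hm
  rcases le_or_gt m 0 with h0 | h0
  · have := log_le x y
    linarith
  · have h1 : ∀ z : ℂ, z ≠ Y → m ≤ GSL.cl Y z → ‖z - Y‖ ≤ Real.exp (-m) := by
      intro z hz hmz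
      have h2 : m ≤ -Real.log ‖z - Y‖ := by
        unfold GSL.cl at hmz
        rcases le_max_iff.1 hmz with h3 | h3
        · linarith
        · exact h3
      have h3 : 0 < ‖z - Y‖ := norm_pos_iff.2 (sub_ne_zero.2 hz)
      rw [← Real.exp_log h3]
      exact Real.exp_le_exp.2 (by linarith)
    have hx1 := h1 x hx (min_le_left _ _)
    have hy1 := h1 y hy (min_le_right _ _)
    have h2 : ‖x - y‖ ≤ 2 * Real.exp (-m) := by
      have h3 : x - y = (x - Y) - (y - Y) := by ring
      rw [h3]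
      exact (norm_sub_le _ _).trans (by linarith)
    have h3 : 0 < ‖x - y‖ := norm_pos_iff.2 (sub_ne_zero.2 hxy)
    have h4 := Real.log_le_log h3 h2
    rw [Real.log_mul (by norm_num) (Real.exp_pos _).ne', Real.log_exp] at h4
    have h5 : 0 ≤ Real.posLog ‖x‖ := Real.posLog_nonneg
    have h6 : 0 ≤ Real.posLog ‖y‖ := Real.posLog_nonneg
    linarith

theorem sum_aux (M N : Multiset ℂ) (f : ℂ → ℝ) (a : ℝ) :
    (M.map fun x => (N.map fun y => a + f x + f y).sum).sum =
      N.card * (M.map f).sum + M.card * (N.map f).sum + M.card * (N.card * a) := by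
  have h1 : ∀ x, (N.map fun y => a + f x + f y).sum = (N.card * f x + (N.map f).sum) +
      N.card * a := by
    intro x
    rw [Multiset.sum_map_add, Multiset.map_const', Multiset.sum_replicate, nsmul_eq_mul]
    ring
  simp_rw [h1]
  rw [Multiset.sum_map_add, Multiset.sum_map_add, Multiset.sum_map_mul_left, Multiset.map_const',
    Multiset.sum_replicate, Multiset.map_const', Multiset.sum_replicate, nsmul_eq_mul,
    nsmul_eq_mul]

theorem dbl_le (M N : Multiset ℂ) (f g : ℂ → ℂ → ℝ) (h : ∀ x ∈ M, ∀ y ∈ N, f x y ≤ g x y) :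
    (M.map fun x => (N.map fun y => f x y).sum).sum ≤
      (M.map fun x => (N.map fun y => g x y).sum).sum :=
  Multiset.sum_map_le_sum_map _ _ fun x hx => Multiset.sum_map_le_sum_map _ _ fun y hy =>
    h x hx y hy

theorem dbl_sub (M N : Multiset ℂ) (f g : ℂ → ℂ → ℝ) :
    (M.map fun x => (N.map fun y => f x y - g x y).sum).sum =
      (M.map fun x => (N.map fun y => f x y).sum).sum -
      (M.map fun x => (N.map fun y => g x y).sum).sum := by
  have h1 : ∀ x, (N.map fun y => f x y - g x y).sum =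
      (N.map fun y => f x y).sum - (N.map fun y => g x y).sum := fun x =>
    Multiset.sum_map_sub
  simp_rw [h1]
  exact Multiset.sum_map_sub

theorem roots_conj {F : Type} [Field F] (φ : F →+* ℂ) (P : F[X]) :
    (P.map ((starRingEnd ℂ).comp φ)).roots = (P.map φ).roots.map (starRingEnd ℂ) := by
  rw [← Polynomial.map_map]
  exact (IsAlgClosed.splits (P.map φ)).roots_map (starRingEnd ℂ)

theorem card_roots {F : Type} [Field F] (φ : F →+* ℂ) {P : F[X]} (hP : P.Monic) :
    (P.map φ).roots.card = P.natDegree := by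
  rw [← (IsAlgClosed.splits (P.map φ)).natDegree_eq_card_roots, hP.natDegree_map]

theorem root_ne {F : Type} [Field F] (φ : F →+* ℂ) {P Q : F[X]} (hPQ : IsCoprime P Q) {x y : ℂ}
    (hx : x ∈ (P.map φ).roots) (hy : y ∈ (Q.map φ).roots) : x ≠ y := by
  rintro rfl
  obtain ⟨a, b, hab⟩ := hPQ
  have h1 := congrArg (fun R : F[X] => (R.map φ).eval x) hab
  simp only [Polynomial.map_add, Polynomial.map_mul, Polynomial.map_one, Polynomial.eval_add,
    Polynomial.eval_mul, Polynomial.eval_one, (Polynomial.mem_roots'.1 hx).2.eq_zero,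
    (Polynomial.mem_roots'.1 hy).2.eq_zero, mul_zero, add_zero] at h1
  exact zero_ne_one h1

end PairX

open PairX in
theorem p_Pair : StmtIntRes → StmtPair := by
  classical
  intro hIR F _ _ φ Y P Q g h hP hQ hPQ hg hh hPY hQY
  have hmain := hIR F P Q g h hP hQ hPQ hg hh
  set E : ℝ := ((P.map φ).roots.map fun x =>
    ((Q.map φ).roots.map fun y => min (GSL.cl Y x) (GSL.cl Y y)).sum).sum with hE
  set S : (F →+* ℂ) → ℝ := fun τ => ((P.map τ).roots.map fun x =>
    ((Q.map τ).roots.map fun y => Real.log ‖x - y‖).sum).sum with hS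
  set A : (F →+* ℂ) → ℝ := fun τ =>
    Q.natDegree * ((P.map τ).roots.map fun x => Real.posLog ‖x‖).sum +
    P.natDegree * ((Q.map τ).roots.map fun x => Real.posLog ‖x‖).sum +
    P.natDegree * (Q.natDegree * Real.log 2) with hA
  have hA' : ∀ τ : F →+* ℂ, A τ = ((P.map τ).roots.map fun x => ((Q.map τ).roots.map fun y =>
      Real.log 2 + Real.posLog ‖x‖ + Real.posLog ‖y‖).sum).sum := by
    intro τ
    rw [sum_aux _ _ (fun z => Real.posLog ‖z‖), card_roots τ hP, card_roots τ hQ]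
  have h1 : ∀ τ, S τ ≤ A τ := by
    intro τ
    rw [hA' τ]
    exact dbl_le _ _ _ _ fun x _ y _ => log_le x y
  have h2 : S φ ≤ A φ - E := by
    rw [hA' φ, hE, ← dbl_sub]
    exact dbl_le _ _ _ _ fun x hx y hy => log_le' (root_ne φ hPQ hx hy) (hPY x hx) (hQY y hy)
  have h3 : S ((starRingEnd ℂ).comp φ) = S φ := by
    simp only [hS, roots_conj, Multiset.map_map, Function.comp_def]
    simp_rw [← map_sub, RCLike.norm_conj]
  have h4 : A ((starRingEnd ℂ).comp φ) = A φ := by
    simp only [hA, roots_conj, Multiset.map_map, Function.comp_def, RCLike.norm_conj]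
  have h5 : ∀ τ, S τ ≤ A τ - (if τ = φ ∨ τ = (starRingEnd ℂ).comp φ then E else 0) := by
    intro τ
    split_ifs with h6
    · rcases h6 with rfl | rfl
      · exact h2
      · rw [h3, h4]; exact h2
    · rw [sub_zero]; exact h1 τ
  have h6 : ∑ τ : F →+* ℂ, (if τ = φ ∨ τ = (starRingEnd ℂ).comp φ then E else 0) =
      nphi φ * E := by
    rw [← Finset.sum_filter, Finset.sum_const, nsmul_eq_mul]
    congr 1
    have h7 : Finset.univ.filter (fun τ : F →+* ℂ => τ = φ ∨ τ = (starRingEnd ℂ).comp φ) =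
        {φ, (starRingEnd ℂ).comp φ} := by
      ext τ; simp
    rw [h7]
    unfold nphi
    split_ifs with h8
    · rw [h8]; simp
    · rw [Finset.card_pair (Ne.symm h8)]
  have h7 : ∑ τ, S τ ≤ ∑ τ, A τ - nphi φ * E := by
    rw [← h6, ← Finset.sum_sub_distrib]
    exact Finset.sum_le_sum fun τ _ => h5 τ
  have h8 : ∑ τ, A τ = Q.natDegree * ∑ τ : F →+* ℂ,
      ((P.map τ).roots.map fun x => Real.posLog ‖x‖).sum + P.natDegree * ∑ τ : F →+* ℂ,
      ((Q.map τ).roots.map fun x => Real.posLog ‖x‖).sum +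
      Module.finrank ℚ F * (P.natDegree * (Q.natDegree * Real.log 2)) := by
    simp only [hA]
    rw [Finset.sum_add_distrib, Finset.sum_add_distrib, ← Finset.mul_sum, ← Finset.mul_sum,
      Finset.sum_const, Finset.card_univ, NumberField.Embeddings.card F ℂ, nsmul_eq_mul]
  have h9 : 0 ≤ (Q.natDegree : ℝ) * Real.log g.leadingCoeff +
      P.natDegree * Real.log h.leadingCoeff + ∑ τ, S τ := hmain
  unfold hF
  linarith

end GSQ

end

section

/-!
# MP_327059_nt, block QF: elementary properties of the function `Psi`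
-/

namespace GSQ

namespace PsiX

theorem min_add {z u v : ℝ} (hz : 0 ≤ z) (hu : 0 ≤ u) (hv : 0 ≤ v) :
    min z (u + v) ≤ min z u + min z v := by
  rcases le_total z u with h | h <;> rcases le_total z v with h' | h'
  · rw [min_eq_left h, min_eq_left h']
    exact (min_le_left _ _).trans (by linarith)
  · rw [min_eq_left h, min_eq_right h']
    exact (min_le_left _ _).trans (by linarith)
  · rw [min_eq_right h, min_eq_left h']
    exact (min_le_left _ _).trans (by linarith)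
  · rw [min_eq_right h, min_eq_right h']
    exact min_le_right _ _

theorem min_mul {z u ε : ℝ} (hz : 0 ≤ z) (he : 0 ≤ ε) :
    min z ((1 + ε) * u) ≤ (1 + ε) * min z u := by
  rcases le_total z u with h | h
  · rw [min_eq_left h]
    refine (min_le_left _ _).trans ?_
    nlinarith
  · rw [min_eq_right h]
    exact min_le_right _ _

theorem min_one {z u : ℝ} (hz : z ≤ 1) : min z (min 1 u) = min z u := by
  rw [← min_assoc, min_eq_left hz]

end PsiX

open PsiX

theorem p_Psi : StmtPsi := by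
  refine ⟨?_, ?_, ?_, ?_, ?_, ?_⟩
  · unfold Psi
    norm_num
  · intro u v _ h
    have hm : ∀ z : ℝ, min z u ≤ min z v := fun z => min_le_min_left z h
    unfold Psi
    linarith [hm 1, hm (1 / 4), hm (1 / 16), hm (1 / 64), hm (1 / 256), hm (1 / 1024),
      hm (1 / 4096)]
  · intro u hu
    have h0 : ∀ z : ℝ, 0 ≤ z → 0 ≤ min z u := fun z hz => le_min hz hu
    have h1 : ∀ z : ℝ, min z u ≤ u := fun z => min_le_right z u
    have a1 := h0 1 (by norm_num)
    have a2 := h0 (1 / 4) (by norm_num)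
    have a3 := h0 (1 / 16) (by norm_num)
    have a4 := h0 (1 / 64) (by norm_num)
    have a5 := h0 (1 / 256) (by norm_num)
    have a6 := h0 (1 / 1024) (by norm_num)
    have a7 := h0 (1 / 4096) (by norm_num)
    unfold Psi
    constructor
    · linarith
    · linarith [h1 1, h1 (1 / 4), h1 (1 / 16), h1 (1 / 64), h1 (1 / 256), h1 (1 / 1024),
        h1 (1 / 4096)]
  · intro u
    unfold Psi
    rw [min_one (z := 1) (u := u) le_rfl, min_one (z := 1 / 4) (u := u) (by norm_num),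
      min_one (z := 1 / 16) (u := u) (by norm_num), min_one (z := 1 / 64) (u := u) (by norm_num),
      min_one (z := 1 / 256) (u := u) (by norm_num),
      min_one (z := 1 / 1024) (u := u) (by norm_num),
      min_one (z := 1 / 4096) (u := u) (by norm_num)]
  · intro u v hu hv
    have hm : ∀ z : ℝ, 0 ≤ z → min z (u + v) ≤ min z u + min z v := fun z hz =>
      min_add hz hu hv
    have a1 := hm 1 (by norm_num)
    have a2 := hm (1 / 4) (by norm_num)
    have a3 := hm (1 / 16) (by norm_num)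
    have a4 := hm (1 / 64) (by norm_num)
    have a5 := hm (1 / 256) (by norm_num)
    have a6 := hm (1 / 1024) (by norm_num)
    have a7 := hm (1 / 4096) (by norm_num)
    unfold Psi
    linarith
  · intro u ε _ he
    have hm : ∀ z : ℝ, 0 ≤ z → min z ((1 + ε) * u) ≤ (1 + ε) * min z u := fun z hz =>
      min_mul hz he
    have a1 := hm 1 (by norm_num)
    have a2 := hm (1 / 4) (by norm_num)
    have a3 := hm (1 / 16) (by norm_num)
    have a4 := hm (1 / 64) (by norm_num)
    have a5 := hm (1 / 256) (by norm_num)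
    have a6 := hm (1 / 1024) (by norm_num)
    have a7 := hm (1 / 4096) (by norm_num)
    unfold Psi
    linarith

end GSQ

end

section

/-!
# MP_327059_nt, second part: Gauss' lemma for a polynomial with integral coefficients
-/

open Polynomial

namespace GSQ

theorem p_Super : StmtNr → StmtSuper := by
  intro hNr F _ _ c Q g hc hQ hg hint
  obtain ⟨f, hf⟩ := (hNr F (C c * Q)).2 hint
  have hinj : Function.Injective (Int.castRingHom ℂ) := fun a b h => by
    have h1 : (a : ℂ) = (b : ℂ) := h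
    exact_mod_cast h1
  -- the norm of `c`
  have hN0 : (∏ τ : F →+* ℂ, τ c) ≠ 0 :=
    Finset.prod_ne_zero_iff.2 fun τ _ => (map_ne_zero τ).2 hc
  have hfe : f.map (Int.castRingHom ℂ) =
      C (∏ τ : F →+* ℂ, τ c) * ∏ τ : F →+* ℂ, Q.map τ := by
    rw [hf, map_prod, ← Finset.prod_mul_distrib]
    refine Finset.prod_congr rfl fun τ _ => ?_
    rw [Polynomial.map_mul, Polynomial.map_C]
  have hmon : (∏ τ : F →+* ℂ, Q.map τ).Monic :=
    monic_prod_of_monic _ _ fun τ _ => hQ.map τ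
  have hlead : (f.leadingCoeff : ℂ) = ∏ τ : F →+* ℂ, τ c := by
    have h1 : (f.map (Int.castRingHom ℂ)).leadingCoeff = ∏ τ : F →+* ℂ, τ c := by
      rw [hfe, leadingCoeff_mul, leadingCoeff_C, hmon.leadingCoeff, mul_one]
    rw [leadingCoeff_map_of_injective hinj] at h1
    exact h1
  -- proportionality
  have hprop : C g.leadingCoeff * f = C f.leadingCoeff * g := by
    apply Polynomial.map_injective (Int.castRingHom ℂ) hinj
    rw [Polynomial.map_mul, Polynomial.map_mul, Polynomial.map_C, Polynomial.map_C, hfe, hg.eq]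
    change C (g.leadingCoeff : ℂ) * _ = C (f.leadingCoeff : ℂ) * _
    rw [hlead]
    ring
  -- contents
  have hf0 : f ≠ 0 := by
    intro h0
    rw [h0, leadingCoeff_zero, Int.cast_zero] at hlead
    exact hN0 hlead.symm
  have hcont : g.leadingCoeff * f.content = |f.leadingCoeff| := by
    have h1 := congrArg Polynomial.content hprop
    rw [content_C_mul, content_C_mul, hg.prim.content_eq_one, mul_one, ← Int.abs_eq_normalize,
      ← Int.abs_eq_normalize, abs_of_pos hg.pos] at h1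
    exact h1
  have hc1 : 1 ≤ f.content := by
    have h1 : f.content ≠ 0 := fun h => hf0 (content_eq_zero_iff.1 h)
    have h2 : 0 ≤ f.content := by
      rw [← normalize_content]
      exact Int.nonneg_of_normalize_eq_self (normalize_idem _)
    omega
  have hle : g.leadingCoeff ≤ |f.leadingCoeff| := by
    rw [← hcont]
    exact le_mul_of_one_le_right hg.pos.le hc1
  have hle2 : (g.leadingCoeff : ℝ) ≤ ∏ τ : F →+* ℂ, ‖τ c‖ := by
    have h1 : (g.leadingCoeff : ℝ) ≤ ((|f.leadingCoeff| : ℤ) : ℝ) := by exact_mod_cast hle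
    refine h1.trans (le_of_eq ?_)
    rw [← norm_prod, ← hlead, Complex.norm_intCast, Int.cast_abs]
  have hpos : (0 : ℝ) < (g.leadingCoeff : ℝ) := by exact_mod_cast hg.pos
  refine (Real.log_le_log hpos hle2).trans (le_of_eq ?_)
  exact Real.log_prod fun τ _ => norm_ne_zero_iff.2 ((map_ne_zero τ).2 hc)

end GSQ

end

section

/-!
# MP_327059_nt, second part, item Trans: `Y` is transcendental
-/

open Polynomial Filter Topology

namespace GSQ

namespace TransX

/-- The bound for the value at any point. -/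
lemma log_eval_le {D : ℂ[X]} {x : ℂ} {A B : ℝ} (hA0 : 0 ≤ A)
    (hA : GSL.l1 D ≤ Real.exp A) (hB : (D.natDegree : ℝ) ≤ B) :
    Real.log ‖D.eval x‖ ≤ A + B * Real.posLog ‖x‖ := by
  obtain ⟨-, -, -, -, -, -, -, -, -, hev, -⟩ := GSL.lone
  have hB0 : 0 ≤ B := (Nat.cast_nonneg _).trans hB
  have hp0 : 0 ≤ B * Real.posLog ‖x‖ := mul_nonneg hB0 Real.posLog_nonneg
  by_cases hx : D.eval x = 0
  · rw [hx, norm_zero, Real.log_zero]
    linarith
  have hpos : 0 < ‖D.eval x‖ := norm_pos_iff.2 hx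
  have hm : (1 : ℝ) ≤ max 1 ‖x‖ := le_max_left _ _
  have hmpos : (0 : ℝ) < max 1 ‖x‖ := by linarith
  have e1 : ‖D.eval x‖ ≤ Real.exp A * (max 1 ‖x‖) ^ D.natDegree :=
    (hev D x).trans (mul_le_mul_of_nonneg_right hA (by positivity))
  have e2 := Real.log_le_log hpos e1
  rw [Real.log_mul (Real.exp_pos _).ne' (by positivity), Real.log_exp, Real.log_pow] at e2
  have e3 : Real.posLog ‖x‖ = Real.log (max 1 ‖x‖) := by
    rw [Real.posLog_eq_log_max_one (norm_nonneg x)]
  rw [e3]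
  have e4 : 0 ≤ Real.log (max 1 ‖x‖) := Real.log_nonneg hm
  have e5 := mul_le_mul_of_nonneg_right hB e4
  linarith

/-- A monic irreducible factor vanishing at `Y`. -/
lemma exists_factor {F : Type} [Field F] (φ : F →+* ℂ) {Y : ℂ} {P : F[X]} (hP : P ≠ 0)
    (hY : (P.map φ).eval Y = 0) :
    ∃ Q : F[X], Q.Monic ∧ Irreducible Q ∧ (Q.map φ).eval Y = 0 := by
  let _ : Algebra F ℂ := φ.toAlgebra
  have halg : IsAlgebraic F Y := ⟨P, hP, by
    rw [← eval_map_algebraMap]
    exact hY⟩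
  have hint : IsIntegral F Y := halg.isIntegral
  refine ⟨minpoly F Y, minpoly.monic hint, minpoly.irreducible hint, ?_⟩
  have h := minpoly.aeval F Y
  rw [← eval_map_algebraMap] at h
  exact h

/-- The sum of the bounds over a multiset. -/
lemma sum_le (R : Multiset ℂ) (f : ℂ → ℝ) (A B : ℝ)
    (h : ∀ x ∈ R, f x ≤ A + B * Real.posLog ‖x‖) :
    (R.map f).sum ≤ (R.card : ℝ) * A + B * (R.map fun x => Real.posLog ‖x‖).sum := by
  refine (Multiset.sum_map_le_sum_map _ _ h).trans (le_of_eq ?_)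
  rw [Multiset.sum_map_add, Multiset.map_const', Multiset.sum_replicate, nsmul_eq_mul,
    Multiset.sum_map_mul_left]

end TransX

open TransX in
theorem p_Trans : StmtNG → StmtMul → StmtLiou → StmtTrans := by
  intro hNG _ hLi F _ _ φ Y hI P hP0 hPY
  obtain ⟨Q, hQm, hQi, hQY⟩ := exists_factor φ hP0 hPY
  obtain ⟨g, hg⟩ := hNG F Q hQm
  have hQ0 : Q.map φ ≠ 0 := (hQm.map φ).ne_zero
  have hYr : Y ∈ (Q.map φ).roots := by
    rw [mem_roots hQ0]
    exact hQY
  obtain ⟨R, hR⟩ := Multiset.exists_cons_of_mem hYr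
  -- constants
  obtain ⟨C, c, V₀, hC, hc, hV₀, hfam⟩ := hI (1 / 4) (by norm_num) (by norm_num)
  obtain ⟨q, hq⟩ : ∃ q : ℝ, q = ∑ τ : F →+* ℂ, ((Q.map τ).roots.card : ℝ) := ⟨_, rfl⟩
  obtain ⟨s, hs⟩ : ∃ s : ℝ, s = ∑ τ : F →+* ℂ,
      ((Q.map τ).roots.map fun x => Real.posLog ‖x‖).sum := ⟨_, rfl⟩
  have hb1 : (1 : ℝ) ≤ (g.leadingCoeff : ℝ) := by
    have := hg.pos
    exact_mod_cast this
  have hlogb : 0 ≤ Real.log (g.leadingCoeff : ℝ) := Real.log_nonneg hb1
  obtain ⟨η, hη⟩ : ∃ η : ℝ, η = Real.log (g.leadingCoeff : ℝ) + s := ⟨_, rfl⟩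
  have hpi := Real.pi_pos
  obtain ⟨K₁, hK₁⟩ : ∃ K₁ : ℝ, K₁ = 5 / 4 * (η * Real.sqrt (1 / (2 * Real.pi * C)) +
    q * Real.sqrt (C / (2 * Real.pi))) := ⟨_, rfl⟩
  obtain ⟨V, hV1, hV2, hV3⟩ : ∃ V : ℝ, V₀ ≤ V ∧ C / c ≤ Real.log V ∧
      300 * K₁ + 1 ≤ Real.sqrt V := by
    have h1 := eventually_ge_atTop V₀
    have h2 := Real.tendsto_log_atTop.eventually_ge_atTop (C / c)
    have h3 := Real.tendsto_sqrt_atTop.eventually_ge_atTop (300 * K₁ + 1)
    obtain ⟨V, hV⟩ := (h1.and (h2.and h3)).exists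
    exact ⟨V, hV.1, hV.2.1, hV.2.2⟩
  have hVpos : 0 < V := by linarith
  obtain ⟨L, Fm, hL, hFm⟩ := hfam V C hV1 le_rfl (by rw [div_le_iff₀ hc] at hV2; linarith)
  obtain ⟨D, hD, hDY⟩ := hFm.NV Y (by simp [(Real.exp_pos _).le])
  obtain ⟨δ, hδ⟩ : ∃ δ, δ = Real.sqrt (V / (2 * Real.pi * C)) := ⟨_, rfl⟩
  obtain ⟨σ, hσ⟩ : ∃ σ, σ = Real.sqrt (V * C / (2 * Real.pi)) := ⟨_, rfl⟩
  rw [← hδ, ← hσ] at hFm
  have hδ0 : 0 ≤ δ := hδ ▸ Real.sqrt_nonneg _
  have hσ0 : 0 ≤ σ := hσ ▸ Real.sqrt_nonneg _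
  have hLpos : 0 < L := by linarith
  have hD0 : D ≠ 0 := by
    rintro rfl
    apply hDY
    rw [Polynomial.map_zero, eval_zero]
  have hcop : IsCoprime Q D := by
    rw [hQi.coprime_iff_not_dvd]
    rintro ⟨E, hE⟩
    apply hDY
    rw [hE, Polynomial.map_mul, eval_mul, hQY, zero_mul]
  have hsum := hLi F Q g D hQm hg (hFm.coeff D hD) hD0 hcop
  have hdeg := hFm.deg D hD
  have hht := hFm.height D hD
  have hA0 : 0 ≤ (1 + 1 / 4) * L * σ := by positivity
  -- the bound for all roots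
  have hgen : ∀ (τ : F →+* ℂ) (x : ℂ), Real.log ‖(D.map τ).eval x‖ ≤
      (1 + 1 / 4) * L * σ + (1 + 1 / 4) * L * δ * Real.posLog ‖x‖ := fun τ x =>
    log_eval_le hA0 (hht τ) (by rw [natDegree_map]; exact hdeg)
  -- the bound for `Y`
  have hYb : Real.log ‖(D.map φ).eval Y‖ ≤ (1 + 1 / 4) * L * σ - 1 / 300 * (L * V) := by
    have e1 := hFm.E1 D hD ((1 - 1 / 4) * V / 4096) (by positivity) le_rfl Y
      (by simp [(Real.exp_pos _).le])
    have e2 := Real.log_le_log (norm_pos_iff.2 hDY) e1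
    rw [Real.log_exp] at e2
    have e3 : 0 < L * V := mul_pos hLpos hVpos
    linarith
  have hU : ∀ τ : F →+* ℂ, ((Q.map τ).roots.map fun x => Real.log ‖(D.map τ).eval x‖).sum ≤
      ((Q.map τ).roots.card : ℝ) * ((1 + 1 / 4) * L * σ) + (1 + 1 / 4) * L * δ *
        ((Q.map τ).roots.map fun x => Real.posLog ‖x‖).sum := fun τ =>
    sum_le _ _ _ _ fun x _ => hgen τ x
  have hUφ : ((Q.map φ).roots.map fun x => Real.log ‖(D.map φ).eval x‖).sum ≤
      ((Q.map φ).roots.card : ℝ) * ((1 + 1 / 4) * L * σ) + (1 + 1 / 4) * L * δ *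
        ((Q.map φ).roots.map fun x => Real.posLog ‖x‖).sum - 1 / 300 * (L * V) := by
    have e1 := sum_le R (fun x => Real.log ‖(D.map φ).eval x‖) _ _ fun x _ => hgen φ x
    have e4 : 0 ≤ (1 + 1 / 4) * L * δ * Real.posLog ‖Y‖ :=
      mul_nonneg (by positivity) Real.posLog_nonneg
    rw [hR, Multiset.map_cons, Multiset.sum_cons, Multiset.map_cons, Multiset.sum_cons,
      Multiset.card_cons, Nat.cast_add, Nat.cast_one, add_mul, one_mul, mul_add]
    linarith
  have htot : ∑ τ : F →+* ℂ, ((Q.map τ).roots.map fun x => Real.log ‖(D.map τ).eval x‖).sum ≤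
      q * ((1 + 1 / 4) * L * σ) + (1 + 1 / 4) * L * δ * s - 1 / 300 * (L * V) := by
    have e1 := Finset.single_le_sum (s := Finset.univ) (a := φ)
      (f := fun τ : F →+* ℂ => ((Q.map τ).roots.card : ℝ) * ((1 + 1 / 4) * L * σ) +
        (1 + 1 / 4) * L * δ * ((Q.map τ).roots.map fun x => Real.posLog ‖x‖).sum -
        ((Q.map τ).roots.map fun x => Real.log ‖(D.map τ).eval x‖).sum)
      (fun τ _ => sub_nonneg.2 (hU τ)) (Finset.mem_univ φ)
    rw [Finset.sum_sub_distrib, Finset.sum_add_distrib, ← Finset.sum_mul, ← Finset.mul_sum,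
      ← hq, ← hs] at e1
    linarith
  have hs2 : 0 ≤ (1 + 1 / 4) * L * (δ * η + q * σ) - 1 / 300 * (L * V) := by
    have e0 : ((D.natDegree : ℕ) : ℝ) * Real.log (g.leadingCoeff : ℝ) ≤
      (1 + 1 / 4) * L * δ * Real.log (g.leadingCoeff : ℝ) :=
      mul_le_mul_of_nonneg_right hdeg hlogb
    have e1 : 0 ≤ (1 + 1 / 4) * L * δ * Real.log (g.leadingCoeff : ℝ) +
        (q * ((1 + 1 / 4) * L * σ) + (1 + 1 / 4) * L * δ * s - 1 / 300 * (L * V)) :=
      hsum.trans (add_le_add e0 htot)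
    rw [hη]
    refine e1.trans (le_of_eq ?_)
    ring
  have hs3 : 1 / 300 * V ≤ (1 + 1 / 4) * (δ * η + q * σ) := by
    have h1 : 0 ≤ L * ((1 + 1 / 4) * (δ * η + q * σ) - 1 / 300 * V) := by
      refine hs2.trans (le_of_eq ?_)
      ring
    have := nonneg_of_mul_nonneg_right h1 hLpos
    linarith
  have hδe : δ = Real.sqrt V * Real.sqrt (1 / (2 * Real.pi * C)) := by
    rw [hδ, ← Real.sqrt_mul hVpos.le]
    congr 1
    ring
  have hσe : σ = Real.sqrt V * Real.sqrt (C / (2 * Real.pi)) := by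
    rw [hσ, ← Real.sqrt_mul hVpos.le]
    congr 1
    ring
  have hs4 : 1 / 300 * V ≤ Real.sqrt V * K₁ := by
    rw [hδe, hσe] at hs3
    refine hs3.trans (le_of_eq ?_)
    rw [hK₁]
    ring
  have hsq : Real.sqrt V * Real.sqrt V = V := Real.mul_self_sqrt hVpos.le
  have hsV : 0 < Real.sqrt V := Real.sqrt_pos.2 hVpos
  have hs5 : 1 / 300 * Real.sqrt V ≤ K₁ := by
    have h1 : 0 ≤ Real.sqrt V * (K₁ - 1 / 300 * Real.sqrt V) := by
      rw [mul_sub, mul_left_comm, hsq]
      linarith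
    have := nonneg_of_mul_nonneg_right h1 hsV
    linarith
  linarith

end GSQ

end
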