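import Mathlib
import Pool.Agent.Work.MP_327059_nt.QF.StmtsA
import Pool.Agent.Work.MP_327059_nt.Bdx.B01
import Pool.Agent.Work.MP_327059_nt.QF.StmtsB

/-! Bundle of small proof modules (one section per former module). -/

section

/-!
# MP_327059_nt, second part : the value of the determinant polynomial
-/

open Polynomial

namespace GSQ

namespace Eval

theorem prod_zpow {ι : Type*} (s : Finset ι) (f : ι → ℤ) {a : ℂ} (ha : a ≠ 0) :
    ∏ i ∈ s, a ^ f i = a ^ ∑ i ∈ s, f i := by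
  classical
  induction s using Finset.induction_on with
  | empty => simp
  | insert b s hb ih => rw [Finset.prod_insert hb, Finset.sum_insert hb, zpow_add₀ ha, ih]

theorem cp_eval (β : ℂ) (t : ℤ) (A₀ B₀ : ℂ[X]) {S L₀ T : ℕ} (r : GSL.Ix S L₀) (s : GSL.Ix S T)
    {y : ℂ} (hy : A₀.eval y ≠ 0) :
    (cp β t A₀ B₀ r s).eval y = A₀.eval y ^ (s.1 : ℕ) *
      GSL.ent0 (B₀.eval y / A₀.eval y) (wv β r.2.1) (zv t β s.2.1) r.1 s.1 := by
  unfold cp GSL.ent0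
  rw [eval_finsetSum, Finset.mul_sum]
  refine Finset.sum_congr rfl fun k hk => ?_
  rw [Finset.mem_range] at hk
  obtain ⟨j, hj⟩ : ∃ j, (s.1 : ℕ) = k + j := Nat.exists_eq_add_of_le (by omega)
  simp only [eval_mul, eval_C, eval_pow]
  rw [hj, Nat.add_sub_cancel_left, pow_add, mul_pow, div_pow]
  field_simp

end Eval

theorem eval : StmtEval := by
  intro D S L₀ T e OT AT hG y hy hA
  have ha1 := D.a₁_ne
  have ha2 := D.a₂_ne
  unfold CDat.DP DP
  rw [eval_finsetSum, Matrix.det_apply, Finset.mul_sum]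
  refine Finset.sum_congr rfl fun π _ => ?_
  obtain ⟨h1, h2⟩ := hG π
  rw [abs_le] at h1 h2
  have hB : ((OT : ℤ) + ∑ r, GSL.Bf r.2.1 (e (π r)).2.1).toNat =
      (OT : ℤ) + ∑ r, GSL.Bf r.2.1 (e (π r)).2.1 := Int.toNat_of_nonneg (by linarith)
  have hA1 : ((AT : ℤ) + ∑ r, GSL.Af D.t D.n r.2.1 (e (π r)).2.1).toNat =
      (AT : ℤ) + ∑ r, GSL.Af D.t D.n r.2.1 (e (π r)).2.1 := Int.toNat_of_nonneg (by linarith)
  have hA2 : ((AT : ℤ) - ∑ r, GSL.Af D.t D.n r.2.1 (e (π r)).2.1).toNat =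
      (AT : ℤ) - ∑ r, GSL.Af D.t D.n r.2.1 (e (π r)).2.1 := Int.toNat_of_nonneg (by linarith)
  have e1 : y ^ ((OT : ℤ) + ∑ r, GSL.Bf r.2.1 (e (π r)).2.1).toNat =
      y ^ OT * ∏ r, y ^ GSL.Bf r.2.1 (e (π r)).2.1 := by
    rw [Eval.prod_zpow _ _ hy, ← zpow_natCast, hB, zpow_add₀ hy, zpow_natCast]
  have e2 : D.a₁ ^ ((AT : ℤ) + ∑ r, GSL.Af D.t D.n r.2.1 (e (π r)).2.1).toNat *
      D.a₂ ^ ((AT : ℤ) - ∑ r, GSL.Af D.t D.n r.2.1 (e (π r)).2.1).toNat =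
      (D.a₁ * D.a₂) ^ AT * ∏ r, (D.a₁ / D.a₂) ^ GSL.Af D.t D.n r.2.1 (e (π r)).2.1 := by
    rw [Eval.prod_zpow _ _ (div_ne_zero ha1 ha2), ← zpow_natCast, ← zpow_natCast, hA1, hA2,
      zpow_add₀ ha1, zpow_sub₀ ha2, zpow_natCast, zpow_natCast, div_zpow, mul_pow]
    field_simp
  have e3 : ∏ r, (cp D.β D.t D.A₀ D.B₀ r (e (π r))).eval y =
      (∏ r, D.A₀.eval y ^ ((e r).1 : ℕ)) *
      ∏ r, GSL.ent0 (D.B₀.eval y / D.A₀.eval y) (wv D.β r.2.1) (zv D.t D.β (e (π r)).2.1) r.1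
        (e (π r)).1 := by
    rw [← Equiv.prod_comp π fun r => D.A₀.eval y ^ ((e r).1 : ℕ), ← Finset.prod_mul_distrib]
    exact Finset.prod_congr rfl fun r _ => Eval.cp_eval D.β D.t D.A₀ D.B₀ _ _ hA
  simp only [eval_mul, eval_C, eval_prod, eval_pow, eval_X]
  rw [e1, e2, e3]
  have e4 : ∏ i, Matrix.of (fun s r : GSL.Ix S L₀ =>
      D.ent (D.B₀.eval y / D.A₀.eval y) y r (e s)) (π i) i =
      (∏ r, GSL.ent0 (D.B₀.eval y / D.A₀.eval y) (wv D.β r.2.1) (zv D.t D.β (e (π r)).2.1) r.1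
        (e (π r)).1) * ((∏ r, (D.a₁ / D.a₂) ^ GSL.Af D.t D.n r.2.1 (e (π r)).2.1) *
          ∏ r, y ^ GSL.Bf r.2.1 (e (π r)).2.1) := by
    rw [← Finset.prod_mul_distrib, ← Finset.prod_mul_distrib]
    rfl
  rw [e4, Units.smul_def, zsmul_eq_mul]
  ring

end GSQ

end

section

/-! The expansion of the entries. -/

open Polynomial

namespace GSQ

namespace Exp

theorem gg_sum (ε' w₂ ζ₂ : ℂ) : HasSum (fun b : ℕ =>
    ((w₂ * ε') ^ b / (b.factorial : ℂ)) * ζ₂ ^ b)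
    (Complex.exp (w₂ * ζ₂ * ε')) := by
  have h := GSL.Exp.expSum (w₂ * ζ₂ * ε')
  refine h.congr_fun ?_
  intro b
  rw [mul_pow, mul_pow, mul_pow]
  ring

end Exp

/-- the summand for fixed `c` -/
noncomputable def Exp.F3 (l' ε' s w w₂ ζ ζ₂ : ℂ) (lam tau c : ℕ) (m : ℕ × ℕ × ℕ) : ℂ :=
  if m.2.2 = c then
      GSL.Exp.ff l' s w ζ lam tau m.1 c * (((w₂ * ε') ^ m.2.1 / (m.2.1.factorial : ℂ)) *
        ζ₂ ^ m.2.1) else 0

theorem Exp.F3_sum (l' ε' s w w₂ ζ ζ₂ : ℂ) (lam tau c : ℕ) :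
    HasSum (Exp.F3 l' ε' s w w₂ ζ ζ₂ lam tau c)
      ((GSL.Exp.cc s lam tau c * GSL.Exp.HH (w * l') ζ (lam - c) (tau - c) *
        Complex.exp (w * l' * ζ)) * Complex.exp (w₂ * ζ₂ * ε')) := by
  have hf := GSL.Exp.ff_sum l' s w ζ lam tau c
  have hg := Exp.gg_sum ε' w₂ ζ₂
  generalize (GSL.Exp.cc s lam tau c * GSL.Exp.HH (w * l') ζ (lam - c) (tau - c) *
        Complex.exp (w * l' * ζ)) = v1 at hf ⊢
  generalize Complex.exp (w₂ * ζ₂ * ε') = v2 at hg ⊢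
  have hfg := GSL.Exp.prodSum hf hg
  have hinj : Function.Injective fun p : ℕ × ℕ => ((p.1, p.2, c) : ℕ × ℕ × ℕ) := by
    rintro ⟨a, b⟩ ⟨a', b'⟩ h
    simp only [Prod.mk.injEq] at h
    exact Prod.ext h.1 h.2.1
  have hz : ∀ m ∉ Set.range (fun p : ℕ × ℕ => ((p.1, p.2, c) : ℕ × ℕ × ℕ)),
      Exp.F3 l' ε' s w w₂ ζ ζ₂ lam tau c m = 0 := by
    intro m hm
    unfold Exp.F3
    rw [if_neg]
    intro hmc
    exact hm ⟨(m.1, m.2.1), by rw [← hmc]⟩
  have hcomp : (Exp.F3 l' ε' s w w₂ ζ ζ₂ lam tau c) ∘ (fun p : ℕ × ℕ => ((p.1, p.2, c) : ℕ × ℕ × ℕ)) =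
      fun p : ℕ × ℕ => GSL.Exp.ff l' s w ζ lam tau p.1 c *
        (((w₂ * ε') ^ p.2 / (p.2.factorial : ℂ)) * ζ₂ ^ p.2) := by
    funext p
    simp only [Function.comp, Exp.F3, if_true]
  rw [← hcomp] at hfg
  exact (hinj.hasSum_iff hz).1 hfg

theorem exp : StmtExp := by
  intro l' ε' s w w₂ ζ ζ₂ lam tau
  have h1 := Exp.F3_sum l' ε' s w w₂ ζ ζ₂ lam tau
  have h2 := hasSum_sum (fun c (_ : c ∈ Finset.range (lam + 1)) => h1 c)
  have e1 : (∑ c ∈ Finset.range (lam + 1), (GSL.Exp.cc s lam tau c *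
      GSL.Exp.HH (w * l') ζ (lam - c) (tau - c) * Complex.exp (w * l' * ζ)) *
      Complex.exp (w₂ * ζ₂ * ε')) =
      GSL.ent0 (s * l') w ζ lam tau *
      Complex.exp (w * ζ * l' + w₂ * ζ₂ * ε') := by
    rw [Complex.exp_add, ← GSL.Exp.alg, Finset.sum_mul]
    refine Finset.sum_congr rfl fun c _ => ?_
    rw [show w * ζ * l' = w * l' * ζ by ring]
    ring
  rw [e1] at h2
  refine h2.congr_fun ?_
  rintro ⟨a, b, c⟩
  simp only [Exp.F3]
  by_cases hc : c ≤ lam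
  · rw [Finset.sum_eq_single c (fun c' _ h => if_neg (fun h' => h h'.symm))
      (fun h => absurd (Finset.mem_range.2 (by omega)) h), if_pos rfl]
    simp only [Pc, Qc, GSL.Exp.ff]
    split_ifs <;> ring
  · rw [Finset.sum_eq_zero]
    · simp only [Pc]
      rw [if_neg (fun h => hc h.1), zero_mul]
    · intro c' hc'
      rw [if_neg]
      intro h
      rw [Finset.mem_range] at hc'
      omega

end GSQ

end

section

/-!
# MP_327059_nt, second part: degree and height of the determinant polynomial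
-/

open Polynomial Filter Topology

namespace GSQ

open GSL (Ix Bf Af circ l1 StmtL1 StmtCount)

namespace Height

lemma l1_cp (hL1 : StmtL1) (β : ℂ) (t n : ℤ) (a₁ a₂ : ℂ) (A₀ B₀ : ℂ[X]) {c R : ℝ} (hcA : l1 A₀ ≤ c) (hcB : l1 B₀ ≤ c)
    (hc : 1 ≤ c) (hR : 1 ≤ R) {S L₀ T : ℕ} (hL : (L₀ : ℝ) ≤ R ^ 2)
    (hw : ∀ p ∈ circ S, ‖wv β p‖ ≤ R) (hz : ∀ p ∈ circ S, ‖zv t β p‖ ≤ R)
    (r : Ix S L₀) (s : Ix S T) :
    l1 (cp β t A₀ B₀ r s) ≤ R ^ ((r.1 : ℕ) + (s.1 : ℕ)) * (2 * c) ^ (s.1 : ℕ) := by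
  obtain ⟨l0, -, lmul, lC, -, lpow, -, lsum, -, -, -⟩ := hL1
  have hw' := hw r.2.1 r.2.2
  have hz' := hz s.2.1 s.2.2
  have hr : ((r.1 : ℕ) : ℝ) ≤ R ^ 2 :=
    le_trans (by exact_mod_cast le_of_lt r.1.2) hL
  generalize hlam : (r.1 : ℕ) = lam at *
  generalize htau : (s.1 : ℕ) = tau at *
  unfold cp
  rw [hlam, htau]
  refine le_trans (lsum ℕ _ _) ?_
  have hc0 : (0 : ℝ) ≤ c := by linarith
  have hR0 : (0 : ℝ) ≤ R := by linarith
  have key : ∀ k ∈ Finset.range (tau + 1),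
      l1 (C ((tau.choose k : ℂ) * (lam.descFactorial k : ℂ) *
        zv t β s.2.1 ^ (lam - k) * wv β r.2.1 ^ (tau - k)) *
        B₀ ^ (tau - k) * A₀ ^ k) ≤ (tau.choose k : ℝ) * (R ^ (lam + tau) * c ^ tau) := by
    intro k hk
    have hk' : k ≤ tau := Nat.lt_succ_iff.mp (Finset.mem_range.mp hk)
    have hA : l1 (A₀ ^ k) ≤ c ^ k :=
      le_trans (lpow _ _) (pow_le_pow_left₀ (l0 _) hcA k)
    have hB : l1 (B₀ ^ (tau - k)) ≤ c ^ (tau - k) :=
      le_trans (lpow _ _) (pow_le_pow_left₀ (l0 _) hcB _)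
    have hcoef : ‖((tau.choose k : ℂ) * (lam.descFactorial k : ℂ) *
        zv t β s.2.1 ^ (lam - k) * wv β r.2.1 ^ (tau - k))‖ ≤
        (tau.choose k : ℝ) * R ^ (lam + tau) := by
      rw [norm_mul, norm_mul, norm_mul, norm_pow, norm_pow, Complex.norm_natCast,
        Complex.norm_natCast]
      by_cases hkl : k ≤ lam
      · have h1 : ((lam.descFactorial k : ℕ) : ℝ) ≤ (R ^ 2) ^ k := by
          calc ((lam.descFactorial k : ℕ) : ℝ) ≤ ((lam ^ k : ℕ) : ℝ) := by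
                exact_mod_cast Nat.descFactorial_le_pow lam k
            _ = (lam : ℝ) ^ k := by push_cast; rfl
            _ ≤ (R ^ 2) ^ k := pow_le_pow_left₀ (Nat.cast_nonneg _) hr k
        have h2 : ‖zv t β s.2.1‖ ^ (lam - k) ≤ R ^ (lam - k) :=
          pow_le_pow_left₀ (norm_nonneg _) hz' _
        have h3 : ‖wv β r.2.1‖ ^ (tau - k) ≤ R ^ (tau - k) :=
          pow_le_pow_left₀ (norm_nonneg _) hw' _
        have h4 : (R ^ 2) ^ k * R ^ (lam - k) * R ^ (tau - k) = R ^ (lam + tau) := by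
          rw [← pow_mul, ← pow_add, ← pow_add]
          congr 1
          omega
        calc (tau.choose k : ℝ) * (lam.descFactorial k : ℝ) * ‖zv t β s.2.1‖ ^ (lam - k) *
              ‖wv β r.2.1‖ ^ (tau - k)
            = (tau.choose k : ℝ) * ((lam.descFactorial k : ℝ) * ‖zv t β s.2.1‖ ^ (lam - k) *
              ‖wv β r.2.1‖ ^ (tau - k)) := by ring
          _ ≤ (tau.choose k : ℝ) * ((R ^ 2) ^ k * R ^ (lam - k) * R ^ (tau - k)) := by
              gcongr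
          _ = _ := by rw [h4]
      · rw [Nat.descFactorial_of_lt (by omega)]
        simp only [Nat.cast_zero, mul_zero, zero_mul]
        positivity
    calc l1 (C ((tau.choose k : ℂ) * (lam.descFactorial k : ℂ) *
        zv t β s.2.1 ^ (lam - k) * wv β r.2.1 ^ (tau - k)) *
        B₀ ^ (tau - k) * A₀ ^ k)
        ≤ l1 (C ((tau.choose k : ℂ) * (lam.descFactorial k : ℂ) *
        zv t β s.2.1 ^ (lam - k) * wv β r.2.1 ^ (tau - k)) *
        B₀ ^ (tau - k)) * l1 (A₀ ^ k) := lmul _ _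
      _ ≤ (l1 (C ((tau.choose k : ℂ) * (lam.descFactorial k : ℂ) *
        zv t β s.2.1 ^ (lam - k) * wv β r.2.1 ^ (tau - k))) *
        l1 (B₀ ^ (tau - k))) * l1 (A₀ ^ k) :=
          mul_le_mul_of_nonneg_right (lmul _ _) (l0 _)
      _ ≤ ((tau.choose k : ℝ) * R ^ (lam + tau) * c ^ (tau - k)) * c ^ k := by
          rw [lC]
          apply mul_le_mul _ hA (l0 _) (by positivity)
          exact mul_le_mul hcoef hB (l0 _) (by positivity)
      _ = (tau.choose k : ℝ) * (R ^ (lam + tau) * (c ^ (tau - k) * c ^ k)) := by ring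
      _ = (tau.choose k : ℝ) * (R ^ (lam + tau) * c ^ tau) := by
          rw [← pow_add, Nat.sub_add_cancel hk']
  refine le_trans (Finset.sum_le_sum key) ?_
  rw [← Finset.sum_mul]
  have h2 : (∑ i ∈ Finset.range (tau + 1), (tau.choose i : ℝ)) = 2 ^ tau := by
    exact_mod_cast Nat.sum_range_choose tau
  rw [h2, mul_pow]
  apply le_of_eq
  ring

lemma natDegree_cp (β : ℂ) (t n : ℤ) (a₁ a₂ : ℂ) (A₀ B₀ : ℂ[X]) {d : ℕ} (hA : A₀.natDegree ≤ d) (hB : B₀.natDegree ≤ d)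
    {S L₀ T : ℕ} (r : Ix S L₀) (s : Ix S T) :
    (cp β t A₀ B₀ r s).natDegree ≤ (s.1 : ℕ) * d := by
  unfold cp
  apply natDegree_sum_le_of_forall_le
  intro k hk
  have hk' : k ≤ (s.1 : ℕ) := Nat.lt_succ_iff.mp (Finset.mem_range.mp hk)
  have h1 : (B₀ ^ ((s.1 : ℕ) - k)).natDegree ≤ ((s.1 : ℕ) - k) * d :=
    le_trans natDegree_pow_le (Nat.mul_le_mul_left _ hB)
  have h2 : (A₀ ^ k).natDegree ≤ k * d :=
    le_trans natDegree_pow_le (Nat.mul_le_mul_left _ hA)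
  refine le_trans natDegree_mul_le ?_
  refine le_trans (Nat.add_le_add natDegree_mul_le le_rfl) ?_
  rw [natDegree_C, zero_add]
  refine le_trans (Nat.add_le_add h1 h2) ?_
  rw [← Nat.add_mul, Nat.sub_add_cancel hk']

/-- One term of the determinant. -/
lemma l1_term (hL1 : StmtL1) (β : ℂ) (t n : ℤ) (a₁ a₂ : ℂ) (A₀ B₀ : ℂ[X]) {c R M : ℝ} (hcA : l1 A₀ ≤ c) (hcB : l1 B₀ ≤ c)
    (hc : 1 ≤ c) (hR : 1 ≤ R) (hM₁ : ‖a₁‖ ≤ M) (hM₂ : ‖a₂‖ ≤ M) (hM : 1 ≤ M)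
    {S L₀ T : ℕ} (hL : (L₀ : ℝ) ≤ R ^ 2)
    (hw : ∀ p ∈ circ S, ‖wv β p‖ ≤ R) (hz : ∀ p ∈ circ S, ‖zv t β p‖ ≤ R)
    (e : Ix S L₀ → Ix S T) (OT AT : ℕ) (hG : Good t n e OT AT) (π : Equiv.Perm (Ix S L₀)) :
    l1 (C (((Equiv.Perm.sign π : ℤ)) : ℂ) * (∏ r, cp β t A₀ B₀ r (e (π r))) *
      X ^ ((OT : ℤ) + ∑ r, Bf r.2.1 (e (π r)).2.1).toNat *
      C (a₁ ^ ((AT : ℤ) + ∑ r, Af t n r.2.1 (e (π r)).2.1).toNat *
        a₂ ^ ((AT : ℤ) - ∑ r, Af t n r.2.1 (e (π r)).2.1).toNat)) ≤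
      R ^ (∑ r : Ix S L₀, (r.1 : ℕ) + ∑ r, ((e r).1 : ℕ)) * (2 * c) ^ (∑ r, ((e r).1 : ℕ)) *
        M ^ (4 * AT) := by
  have hL1' := hL1
  obtain ⟨l0, -, lmul, lC, -, lpow, lXp, lsum, lprod, -, -⟩ := hL1
  have hR0 : (0 : ℝ) ≤ R := by linarith
  have hc0 : (0 : ℝ) ≤ c := by linarith
  have hM0 : (0 : ℝ) ≤ M := by linarith
  have hperm : ∑ r, ((e (π r)).1 : ℕ) = ∑ r, ((e r).1 : ℕ) :=
    Equiv.sum_comp π (fun r => ((e r).1 : ℕ))
  obtain ⟨-, hA⟩ := hG π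
  have hsg : l1 (C (((Equiv.Perm.sign π : ℤ)) : ℂ)) = 1 := by
    rw [lC, Complex.norm_intCast]
    rcases Int.units_eq_one_or (Equiv.Perm.sign π) with h | h <;> rw [h] <;> simp
  have hpr : l1 (∏ r, cp β t A₀ B₀ r (e (π r))) ≤
      R ^ (∑ r : Ix S L₀, (r.1 : ℕ) + ∑ r, ((e r).1 : ℕ)) * (2 * c) ^ (∑ r, ((e r).1 : ℕ)) := by
    refine le_trans (lprod (Ix S L₀) Finset.univ _) ?_
    refine le_trans (Finset.prod_le_prod (fun i _ => l0 _) (fun i _ =>
      l1_cp hL1' β t n a₁ a₂ A₀ B₀ hcA hcB hc hR hL hw hz i (e (π i)))) ?_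
    rw [Finset.prod_mul_distrib, Finset.prod_pow_eq_pow_sum, Finset.prod_pow_eq_pow_sum,
      Finset.sum_add_distrib, hperm]
  have hca : l1 (C (a₁ ^ ((AT : ℤ) + ∑ r, Af t n r.2.1 (e (π r)).2.1).toNat *
        a₂ ^ ((AT : ℤ) - ∑ r, Af t n r.2.1 (e (π r)).2.1).toNat)) ≤ M ^ (4 * AT) := by
    rw [lC, norm_mul, norm_pow, norm_pow]
    rw [abs_le] at hA
    obtain ⟨hA1, hA2⟩ := hA
    have i1 : ((AT : ℤ) + ∑ r, Af t n r.2.1 (e (π r)).2.1).toNat ≤ 2 * AT := by omega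
    have i2 : ((AT : ℤ) - ∑ r, Af t n r.2.1 (e (π r)).2.1).toNat ≤ 2 * AT := by omega
    have j1 : ‖a₁‖ ^ ((AT : ℤ) + ∑ r, Af t n r.2.1 (e (π r)).2.1).toNat ≤ M ^ (2 * AT) :=
      le_trans (pow_le_pow_left₀ (norm_nonneg _) hM₁ _) (pow_le_pow_right₀ hM i1)
    have j2 : ‖a₂‖ ^ ((AT : ℤ) - ∑ r, Af t n r.2.1 (e (π r)).2.1).toNat ≤ M ^ (2 * AT) :=
      le_trans (pow_le_pow_left₀ (norm_nonneg _) hM₂ _) (pow_le_pow_right₀ hM i2)
    calc _ ≤ M ^ (2 * AT) * M ^ (2 * AT) :=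
          mul_le_mul j1 j2 (by positivity) (by positivity)
      _ = M ^ (4 * AT) := by
          rw [← pow_add]
          congr 1
          ring
  refine le_trans (lmul _ _) ?_
  refine mul_le_mul ?_ hca (l0 _) (by positivity)
  refine le_trans (lmul _ _) ?_
  rw [lXp, mul_one]
  refine le_trans (lmul _ _) ?_
  rw [hsg, one_mul]
  exact hpr

lemma natDegree_term (β : ℂ) (t n : ℤ) (a₁ a₂ : ℂ) (A₀ B₀ : ℂ[X]) {d : ℕ} (hA : A₀.natDegree ≤ d) (hB : B₀.natDegree ≤ d)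
    {S L₀ T : ℕ} (e : Ix S L₀ → Ix S T) (OT AT : ℕ) (hG : Good t n e OT AT) :
    (DP β t n a₁ a₂ A₀ B₀ e OT AT).natDegree ≤ (∑ r, ((e r).1 : ℕ)) * d + 2 * OT := by
  unfold DP
  apply natDegree_sum_le_of_forall_le
  intro π _
  have hperm : ∑ r, ((e (π r)).1 : ℕ) = ∑ r, ((e r).1 : ℕ) :=
    Equiv.sum_comp π (fun r => ((e r).1 : ℕ))
  obtain ⟨hO, -⟩ := hG π
  rw [abs_le] at hO
  obtain ⟨hO1, hO2⟩ := hO
  have i1 : ((OT : ℤ) + ∑ r, Bf r.2.1 (e (π r)).2.1).toNat ≤ 2 * OT := by omega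
  refine le_trans natDegree_mul_le ?_
  rw [natDegree_C, add_zero]
  refine le_trans natDegree_mul_le ?_
  refine Nat.add_le_add ?_ (le_trans (natDegree_X_pow_le _) i1)
  refine le_trans natDegree_mul_le ?_
  rw [natDegree_C, zero_add]
  refine le_trans (natDegree_prod_le _ _) ?_
  rw [← hperm, Finset.sum_mul]
  exact Finset.sum_le_sum (fun r _ => natDegree_cp β t n a₁ a₂ A₀ B₀ hA hB r (e (π r)))

lemma l1_DP (hL1 : StmtL1) (β : ℂ) (t n : ℤ) (a₁ a₂ : ℂ) (A₀ B₀ : ℂ[X]) {c R M : ℝ} (hcA : l1 A₀ ≤ c) (hcB : l1 B₀ ≤ c)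
    (hc : 1 ≤ c) (hR : 1 ≤ R) (hM₁ : ‖a₁‖ ≤ M) (hM₂ : ‖a₂‖ ≤ M) (hM : 1 ≤ M)
    {S L₀ T : ℕ} (hL : (L₀ : ℝ) ≤ R ^ 2)
    (hw : ∀ p ∈ circ S, ‖wv β p‖ ≤ R) (hz : ∀ p ∈ circ S, ‖zv t β p‖ ≤ R)
    (e : Ix S L₀ → Ix S T) (OT AT : ℕ) (hG : Good t n e OT AT) :
    l1 (DP β t n a₁ a₂ A₀ B₀ e OT AT) ≤ ((L₀ * (circ S).card).factorial : ℝ) *
      (R ^ (∑ r : Ix S L₀, (r.1 : ℕ) + ∑ r, ((e r).1 : ℕ)) * (2 * c) ^ (∑ r, ((e r).1 : ℕ)) *
        M ^ (4 * AT)) := by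
  have hL1' := hL1
  obtain ⟨-, -, -, -, -, -, -, lsum, -, -, -⟩ := hL1
  unfold DP
  refine le_trans (lsum (Equiv.Perm (Ix S L₀)) Finset.univ _) ?_
  refine le_trans (Finset.sum_le_card_nsmul _ _ _ (fun π _ =>
    l1_term hL1' β t n a₁ a₂ A₀ B₀ hcA hcB hc hR hM₁ hM₂ hM hL hw hz e OT AT hG π)) ?_
  rw [nsmul_eq_mul, Finset.card_univ, Fintype.card_perm, Fintype.card_prod, Fintype.card_fin,
    Fintype.card_coe]

end Height

/-- Degree and height of the determinant polynomial. -/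
theorem height (hL1 : StmtL1) (_hCount : StmtCount) : StmtHeight := by
  intro β t n a₁ a₂ A₀ B₀ CA ε hε hε1
  have l0 : ∀ P : ℂ[X], 0 ≤ l1 P := hL1.1
  obtain ⟨c, hc⟩ : ∃ c : ℝ, c = 1 + l1 A₀ + l1 B₀ := ⟨_, rfl⟩
  obtain ⟨K, hK⟩ : ∃ K : ℝ, K = 1 + |(t : ℝ)| + ‖β‖ := ⟨_, rfl⟩
  obtain ⟨M, hM⟩ : ∃ M : ℝ, M = 1 + ‖a₁‖ + ‖a₂‖ := ⟨_, rfl⟩
  obtain ⟨d, hd⟩ : ∃ d : ℕ, d = A₀.natDegree + B₀.natDegree := ⟨_, rfl⟩
  have hA0 := l0 A₀
  have hB0 := l0 B₀
  have hcA : l1 A₀ ≤ c := by linarith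
  have hcB : l1 B₀ ≤ c := by linarith
  have hc1 : 1 ≤ c := by linarith
  have hK1 : 1 ≤ K := by
    have := abs_nonneg (t : ℝ)
    have := norm_nonneg β
    linarith
  have n1 := norm_nonneg a₁
  have n2 := norm_nonneg a₂
  have hM₁ : ‖a₁‖ ≤ M := by linarith
  have hM₂ : ‖a₂‖ ≤ M := by linarith
  have hM1 : 1 ≤ M := by linarith
  have hlM : 0 ≤ Real.log M := Real.log_nonneg hM1
  have hlK : 0 ≤ Real.log K := Real.log_nonneg hK1
  have hlc : 0 ≤ Real.log (2 * c) := Real.log_nonneg (by linarith)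
  have hev : ∀ᶠ S : ℕ in atTop, 9 ≤ S ∧ 10 / ε ≤ (S : ℝ) ∧
      10 / ε * Real.log K ≤ Real.log (S : ℝ) ∧ 8 / ε * Real.log (2 * c) ≤ Real.log (S : ℝ) := by
    have hlog : Tendsto (fun S : ℕ => Real.log (S : ℝ)) atTop atTop :=
      Real.tendsto_log_atTop.comp tendsto_natCast_atTop_atTop
    filter_upwards [eventually_ge_atTop 9,
      (tendsto_natCast_atTop_atTop (R := ℝ)).eventually_ge_atTop (10 / ε),
      hlog.eventually_ge_atTop (10 / ε * Real.log K),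
      hlog.eventually_ge_atTop (8 / ε * Real.log (2 * c))] with S h1 h2 h3 h4
    exact ⟨h1, h2, h3, h4⟩
  obtain ⟨S₁, hS₁⟩ := eventually_atTop.mp hev
  refine ⟨1 + 8 * CA * Real.log M / ε, ε / (2 * (d + 1)), S₁, by positivity, by positivity, ?_⟩
  intro S L₀ T hS hC₁ hc₁ hT e he OT AT hOT hAT hG
  obtain ⟨hS9, hSε, hSK, hSc⟩ := hS₁ S hS
  have hS9' : (9 : ℝ) ≤ S := by exact_mod_cast hS9
  have hlS : 0 < Real.log (S : ℝ) := Real.log_pos (by linarith)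
  have hL0 : (0 : ℝ) ≤ L₀ := Nat.cast_nonneg _
  have hT0 : (0 : ℝ) ≤ T := Nat.cast_nonneg _
  have hA : (0 : ℝ) ≤ (circ S).card := Nat.cast_nonneg _
  have hd0 : (0 : ℝ) ≤ d := Nat.cast_nonneg _
  have hlSS : Real.log (S : ℝ) ≤ S := by
    have := Real.log_le_sub_one_of_pos (show (0 : ℝ) < S by linarith)
    linarith
  have hS2 : (0 : ℝ) ≤ (S : ℝ) ^ 2 := by positivity
  have hLS : (S : ℝ) ≤ L₀ := by
    by_contra hcon
    push Not at hcon
    have h1 : (L₀ : ℝ) * Real.log S < S * S := by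
      have h2 : (L₀ : ℝ) * Real.log S ≤ L₀ * S := mul_le_mul_of_nonneg_left hlSS hL0
      have h3 : (L₀ : ℝ) * S < S * S := mul_lt_mul_of_pos_right hcon (by linarith)
      linarith
    have h4 : (S : ℝ) ^ 2 ≤ (1 + 8 * CA * Real.log M / ε) * (S : ℝ) ^ 2 := by
      have : 0 ≤ 8 * CA * Real.log M / ε := by positivity
      exact GSL.Height.aux1 this hS2
    linarith only [h1, h4, hC₁]
  have hLS2 : (L₀ : ℝ) ≤ (S : ℝ) ^ 2 := by
    refine le_trans hc₁ ?_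
    have : ε / (2 * (d + 1)) ≤ 1 := by
      rw [div_le_one (by positivity)]
      linarith
    exact GSL.Height.aux2 this hS2
  -- the sums
  have hΘ := GSL.Height.sum_inj e he
  have hΛ := GSL.Height.sum_fst S L₀
  obtain ⟨Th, hTh⟩ : ∃ n : ℕ, n = ∑ r, ((e r).1 : ℕ) := ⟨_, rfl⟩
  obtain ⟨La, hLa⟩ : ∃ n : ℕ, n = ∑ r : Ix S L₀, (r.1 : ℕ) := ⟨_, rfl⟩
  have hTh' : (Th : ℝ) = ∑ r, (((e r).1 : ℕ) : ℝ) := by
    rw [hTh]
    push_cast
    rfl
  have hLa' : (La : ℝ) = ∑ r : Ix S L₀, (((r.1 : ℕ)) : ℝ) := by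
    rw [hLa]
    push_cast
    rfl
  rw [← hTh'] at hΘ
  rw [← hLa'] at hΛ
  constructor
  · have h1 := Height.natDegree_term β t n a₁ a₂ A₀ B₀ (d := d) (by omega) (by omega) e OT AT hG
    rw [← hTh] at h1
    have h2 : ((DP β t n a₁ a₂ A₀ B₀ e OT AT).natDegree : ℝ) ≤ Th * d + 2 * OT := by exact_mod_cast h1
    have h3 : (T : ℝ) ^ 2 ≤ (1 + ε) ^ 2 * (L₀ : ℝ) ^ 2 := GSL.Height.sq_bd hT0 hT
    have h4 : (Th : ℝ) ≤ (circ S).card * (2 * (L₀ : ℝ) ^ 2) := by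
      refine le_trans hΘ ?_
      apply mul_le_mul_of_nonneg_left _ hA
      have h31 : (1 + ε) ^ 2 ≤ 4 := GSL.Height.aux3 hε hε1
      have h32 := mul_le_mul_of_nonneg_right h31 (sq_nonneg (L₀ : ℝ))
      linarith
    have h5 : (d : ℝ) * (2 * L₀) ≤ ε * (S : ℝ) ^ 2 := by
      have h6 : (L₀ : ℝ) * (2 * (d + 1)) ≤ ε * (S : ℝ) ^ 2 := by
        have := mul_le_mul_of_nonneg_right hc₁ (show (0 : ℝ) ≤ 2 * (d + 1) by positivity)
        calc _ ≤ ε / (2 * (d + 1)) * (S : ℝ) ^ 2 * (2 * (d + 1)) := this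
          _ = ε * (S : ℝ) ^ 2 := by field_simp
      exact GSL.Height.aux4 hL0 h6
    have h7 : (Th : ℝ) * d ≤ ε * (S : ℝ) ^ 2 * (L₀ * (circ S).card) := by
      have h8 := mul_le_mul_of_nonneg_right h4 hd0
      have h9 := mul_le_mul_of_nonneg_right h5 (mul_nonneg hL0 hA)
      calc (Th : ℝ) * d ≤ (circ S).card * (2 * (L₀ : ℝ) ^ 2) * d := h8
        _ = (d : ℝ) * (2 * L₀) * (L₀ * (circ S).card) := by ring
        _ ≤ _ := h9
    calc ((DP β t n a₁ a₂ A₀ B₀ e OT AT).natDegree : ℝ) ≤ Th * d + 2 * OT := h2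
      _ ≤ ε * (S : ℝ) ^ 2 * (L₀ * (circ S).card) +
          2 * ((1 + ε) / 2 * S ^ 2 * (L₀ * (circ S).card)) := by linarith
      _ = (1 + 2 * ε) * (L₀ * (circ S).card) * S ^ 2 := by ring
  · have hR : 1 ≤ K * S := GSL.Height.aux5 hK1 hS9'
    have hLR : (L₀ : ℝ) ≤ (K * S) ^ 2 := by
      refine le_trans hLS2 ?_
      rw [mul_pow]
      have : (1 : ℝ) ≤ K ^ 2 := one_le_pow₀ hK1
      exact GSL.Height.aux6 this
    have hw : ∀ p ∈ circ S, ‖wv β p‖ ≤ K * S := fun p hp => by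
      rw [hK]
      exact GSL.Height.norm_wv β t hp
    have hz : ∀ p ∈ circ S, ‖zv t β p‖ ≤ K * S := fun p hp => by
      rw [hK]
      exact GSL.Height.norm_zv β t hp
    refine le_trans (Height.l1_DP hL1 β t n a₁ a₂ A₀ B₀ hcA hcB hc1 hR hM₁ hM₂ hM1 hLR hw hz e OT AT hG) ?_
    rw [← hTh, ← hLa]
    have hfac : (0 : ℝ) < ((L₀ * (circ S).card).factorial : ℝ) := by
      exact_mod_cast Nat.factorial_pos _
    have hR0 : (0 : ℝ) < K * S := by linarith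
    have hB : (0 : ℝ) < ((L₀ * (circ S).card).factorial : ℝ) *
        ((K * S) ^ (La + Th) * (2 * c) ^ Th * M ^ (4 * AT)) := by positivity
    rw [← Real.log_le_iff_le_exp hB]
    rw [Real.log_mul hfac.ne' (by positivity), Real.log_mul (by positivity) (by positivity),
      Real.log_mul (by positivity) (by positivity), Real.log_pow, Real.log_pow, Real.log_pow,
      Real.log_mul (by positivity) (by positivity)]
    have hF : Real.log ((L₀ * (circ S).card).factorial : ℝ) ≤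
        L₀ * (circ S).card * (5 * Real.log S) := by
      rcases Nat.eq_zero_or_pos (L₀ * (circ S).card) with h0 | h0
      · rw [h0]
        simp only [Nat.factorial_zero, Nat.cast_one, Real.log_one]
        positivity
      · have h1 : ((L₀ * (circ S).card).factorial : ℝ) ≤
            ((L₀ * (circ S).card : ℕ) : ℝ) ^ (L₀ * (circ S).card) := by
          exact_mod_cast Nat.factorial_le_pow _
        have h2 : ((L₀ * (circ S).card : ℕ) : ℝ) ≤ (S : ℝ) ^ 5 := by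
          have h3 : ((circ S).card : ℝ) ≤ (2 * S + 1) ^ 2 := by
            exact_mod_cast GSL.Height.card_circ S
          have h4 : ((2 : ℝ) * S + 1) ^ 2 ≤ (S : ℝ) ^ 3 := GSL.Height.aux7 hS9'
          push_cast
          calc (L₀ : ℝ) * (circ S).card ≤ (S : ℝ) ^ 2 * (S : ℝ) ^ 3 :=
                mul_le_mul hLS2 (le_trans h3 h4) hA hS2
            _ = (S : ℝ) ^ 5 := by ring
        have h5 : Real.log ((L₀ * (circ S).card).factorial : ℝ) ≤
            ((L₀ * (circ S).card : ℕ) : ℝ) * Real.log ((L₀ * (circ S).card : ℕ) : ℝ) := by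
          rw [← Real.log_pow]
          exact Real.log_le_log hfac h1
        have h6 : Real.log ((L₀ * (circ S).card : ℕ) : ℝ) ≤ 5 * Real.log S := by
          have := Real.log_le_log (by exact_mod_cast h0) h2
          rw [Real.log_pow] at this
          exact_mod_cast this
        refine le_trans h5 ?_
        have := mul_le_mul_of_nonneg_left h6
          (show (0 : ℝ) ≤ ((L₀ * (circ S).card : ℕ) : ℝ) from Nat.cast_nonneg _)
        push_cast at this ⊢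
        exact this
    have hAT' : (AT : ℝ) ≤ CA * (S : ℝ) ^ 2 * (L₀ * (circ S).card) := by exact_mod_cast hAT
    have hfin := GSL.Height.arith (ε := ε) (A := (circ S).card) (L := L₀) (T := T)
      (lS := Real.log S) (lK := Real.log K) (lc := Real.log (2 * c)) (lM := Real.log M)
      (Λ := La) (Θ := Th) (F := Real.log ((L₀ * (circ S).card).factorial : ℝ)) (CA := CA)
      (S2 := (S : ℝ) ^ 2) (AT := AT) (C₁ := 1 + 8 * CA * Real.log M / ε) hε hε1 hA hL0 hT0 hT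
      hlS.le
      (by
        have := mul_le_mul_of_nonneg_left hSK hε.le
        calc 10 * Real.log K = ε * (10 / ε * Real.log K) := by field_simp
          _ ≤ _ := this)
      hlK
      (by
        have := mul_le_mul_of_nonneg_left hSc hε.le
        calc 8 * Real.log (2 * c) = ε * (8 / ε * Real.log (2 * c)) := by field_simp
          _ ≤ _ := this)
      hlc hlM hΛ hΘ hF
      (by
        have h1 : 10 / ε ≤ L₀ := le_trans hSε hLS
        have := mul_le_mul_of_nonneg_left h1 hε.le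
        calc (10 : ℝ) = ε * (10 / ε) := by field_simp
          _ ≤ _ := this)
      hAT'
      (by
        have : ε * (1 + 8 * CA * Real.log M / ε) = ε + 8 * CA * Real.log M := by
          field_simp
        rw [this]
        linarith)
      hS2 hC₁
    push_cast
    calc _ = Real.log ((L₀ * (circ S).card).factorial : ℝ) +
          (((La : ℝ) + Th) * (Real.log S + Real.log K) + Th * Real.log (2 * c) +
            4 * AT * Real.log M) := by ring
      _ ≤ _ := hfin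

end GSQ

end

section

/-!
# MP_327059_nt, second part, item Map: base change of the determinant polynomial
-/

open Polynomial

namespace GSQ

namespace Map

variable {R R' : Type} [CommRing R] [CommRing R'] (f : R →+* R')

lemma wv_map (β : R) (p : ℤ × ℤ) : f (wv β p) = wv (f β) p := by
  unfold wv
  rw [map_add, map_mul, map_intCast, map_intCast]

lemma zv_map (t : ℤ) (β : R) (q : ℤ × ℤ) : f (zv t β q) = zv t (f β) q := by
  unfold zv
  rw [map_add, map_sub, map_mul, map_mul, map_intCast, map_intCast, map_intCast]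

lemma cp_map (β : R) (t : ℤ) (A₀ B₀ : R[X]) {S L₀ T : ℕ} (r : GSL.Ix S L₀) (s : GSL.Ix S T) :
    (cp β t A₀ B₀ r s).map f = cp (f β) t (A₀.map f) (B₀.map f) r s := by
  unfold cp
  rw [Polynomial.map_sum]
  refine Finset.sum_congr rfl fun k _ => ?_
  rw [Polynomial.map_mul, Polynomial.map_mul, Polynomial.map_pow, Polynomial.map_pow, map_C,
    map_mul f, map_mul f, map_mul f, map_pow f, map_pow f, wv_map, zv_map, map_natCast,
    map_natCast]

end Map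

open Map in
theorem map' : StmtMap := by
  intro R R' _ _ f β t n a₁ a₂ A₀ B₀ S L₀ T e OT AT
  unfold DP
  rw [Polynomial.map_sum]
  refine Finset.sum_congr rfl fun π _ => ?_
  rw [Polynomial.map_mul, Polynomial.map_mul, Polynomial.map_mul, Polynomial.map_pow, map_X,
    map_C, map_C, Polynomial.map_prod, map_mul f, map_pow f, map_pow f, map_intCast]
  congr 3
  exact Finset.prod_congr rfl fun r _ => cp_map f β t A₀ B₀ r (e (π r))

end GSQ

end

section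

/-!
# MP_327059_nt, second part: numerics
-/

namespace GSQ

namespace NumX

/-- A concave cubic is bounded below on an interval by its values at the endpoints. -/
theorem cubic (A m a p r s : ℝ) (h0 : 0 ≤ p) (h1 : p ≤ s) (h2 : s ≤ r) (hpr : p < r)
    (ha : 0 ≤ a) (hp : A ≤ m * p - a * p ^ 3) (hr : A ≤ m * r - a * r ^ 3) :
    A ≤ m * s - a * s ^ 3 := by
  have h3 : 0 ≤ (r - s) * (m * p - a * p ^ 3 - A) :=
    mul_nonneg (by linarith) (by linarith)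
  have h4 : 0 ≤ (s - p) * (m * r - a * r ^ 3 - A) :=
    mul_nonneg (by linarith) (by linarith)
  have h5 : 0 ≤ a * ((r - s) * (s - p) * (r - p) * (r + s + p)) := by
    refine mul_nonneg ha (mul_nonneg (mul_nonneg (mul_nonneg ?_ ?_) ?_) ?_) <;> linarith
  have h6 : (r - p) * (m * s - a * s ^ 3 - A) = (r - s) * (m * p - a * p ^ 3 - A) +
      (s - p) * (m * r - a * r ^ 3 - A) + a * ((r - s) * (s - p) * (r - p) * (r + s + p)) := by
    ring
  have h7 : 0 ≤ (r - p) * (m * s - a * s ^ 3 - A) := by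
    rw [h6]
    linarith
  have h8 := nonneg_of_mul_nonneg_right h7 (by linarith : 0 < r - p)
  linarith

/-- The last computation. -/
theorem concl (A s w v F : ℝ) (hA : 3218 / 10000 ≤ A) (hs : 1 / 64 ≤ s) (hw : 0 < w)
    (hv : v ≤ 1512 / 1000 * A * (s * w)) (hF : A * s ≤ F) :
    v / (38 / 25 * w) + 1 / 1000000 ≤ F := by
  have h1 : v / (38 / 25 * w) ≤ 1512 / 1520 * (A * s) := by
    rw [div_le_iff₀ (by positivity)]
    calc v ≤ 1512 / 1000 * A * (s * w) := hv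
      _ = 1512 / 1520 * (A * s) * (38 / 25 * w) := by ring
  have h2 : 3218 / 10000 * (1 / 64) ≤ A * s := mul_le_mul hA hs (by norm_num) (by linarith)
  linarith

/-- The chord of a square. -/
theorem sq_le (p r t : ℝ) (h1 : p ≤ t) (h2 : t ≤ r) : t ^ 2 ≤ (p + r) * t - p * r := by
  nlinarith [mul_nonneg (sub_nonneg.2 h1) (sub_nonneg.2 h2)]

theorem psi_le (u : ℝ) : Psi u ≤ 31 * u ∧ Psi u ≤ 25 / 2 * u + 37 / 8192 ∧
    Psi u ≤ 17 / 2 * u + 69 / 8192 ∧ Psi u ≤ 9 / 2 * u + 197 / 8192 ∧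
    Psi u ≤ 2 * u + 517 / 8192 ∧ Psi u ≤ u + 1029 / 8192 ∧ Psi u ≤ 1 / 2 * u + 2053 / 8192 := by
  have a1 := min_le_right (1 : ℝ) u
  have a2 := min_le_right (1 / 4 : ℝ) u
  have a3 := min_le_right (1 / 16 : ℝ) u
  have a4 := min_le_right (1 / 64 : ℝ) u
  have a5 := min_le_right (1 / 256 : ℝ) u
  have a6 := min_le_right (1 / 1024 : ℝ) u
  have a7 := min_le_right (1 / 4096 : ℝ) u
  have b2 := min_le_left (1 / 4 : ℝ) u
  have b3 := min_le_left (1 / 16 : ℝ) u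
  have b4 := min_le_left (1 / 64 : ℝ) u
  have b5 := min_le_left (1 / 256 : ℝ) u
  have b6 := min_le_left (1 / 1024 : ℝ) u
  have b7 := min_le_left (1 / 4096 : ℝ) u
  unfold Psi
  refine ⟨?_, ?_, ?_, ?_, ?_, ?_, ?_⟩ <;> linarith

theorem small (t : ℝ) (h0 : 0 ≤ t) (h1 : t ≤ 1 / 64) :
    Psi (t ^ 2) ≤ 1512 / 1000 * (3218 / 10000) * t := by
  have h := (psi_le (t ^ 2)).1
  have h2 := sq_le 0 (1 / 64) t h0 h1
  linarith

theorem l0 (t : ℝ) (h0 : 0 ≤ t) (h1 : t ≤ 3 / 128) :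
    Psi (t ^ 2) ≤ 1512 / 1000 * (3218 / 10000) * t := by
  rcases le_total t (1 / 64) with h | h
  · exact small t h0 h
  · have h3 := (psi_le (t ^ 2)).2.1
    have h2 := sq_le _ _ t h h1
    linarith

theorem l1 (t : ℝ) (h0 : 0 ≤ t) (h1 : t ≤ 1 / 32) :
    Psi (t ^ 2) ≤ 1512 / 1000 * (3646 / 10000) * t := by
  rcases le_total t (3 / 128) with h | h
  · have := l0 t h0 h
    linarith
  · have h3 := (psi_le (t ^ 2)).2.1
    have h2 := sq_le _ _ t h h1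
    linarith

theorem l2 (t : ℝ) (h0 : 0 ≤ t) (h1 : t ≤ 3 / 64) :
    Psi (t ^ 2) ≤ 1512 / 1000 * (3928 / 10000) * t := by
  rcases le_total t (1 / 32) with h | h
  · have := l1 t h0 h
    linarith
  · have h3 := (psi_le (t ^ 2)).2.2.1
    have h2 := sq_le _ _ t h h1
    linarith

theorem l3 (t : ℝ) (h0 : 0 ≤ t) (h1 : t ≤ 1 / 16) :
    Psi (t ^ 2) ≤ 1512 / 1000 * (4406 / 10000) * t := by
  rcases le_total t (3 / 64) with h | h
  · have := l2 t h0 h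
    linarith
  · have h3 := (psi_le (t ^ 2)).2.2.1
    have h2 := sq_le _ _ t h h1
    linarith

theorem l4 (t : ℝ) (h0 : 0 ≤ t) (h1 : t ≤ 3 / 32) :
    Psi (t ^ 2) ≤ 1512 / 1000 * (4617 / 10000) * t := by
  rcases le_total t (1 / 16) with h | h
  · have := l3 t h0 h
    linarith
  · have h3 := (psi_le (t ^ 2)).2.2.2.1
    have h2 := sq_le _ _ t h h1
    linarith

theorem l5 (t : ℝ) (h0 : 0 ≤ t) (h1 : t ≤ 1) :
    Psi (t ^ 2) ≤ 1512 / 1000 * (1 / 2) * t := by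
  obtain ⟨-, -, -, p4, p5, p6, p7⟩ := psi_le (t ^ 2)
  rcases le_total t (3 / 32) with h | h
  · have := l4 t h0 h
    linarith
  rcases le_total t (1 / 8) with h' | h'
  · have h2 := sq_le _ _ t h h'
    linarith
  rcases le_total t (1 / 4) with h'' | h''
  · have h2 := sq_le _ _ t h' h''
    linarith
  rcases le_total t (1 / 2) with h3 | h3
  · have h2 := sq_le _ _ t h'' h3
    linarith
  · have h2 := sq_le _ _ t h3 h1
    linarith

/-- The lower bound for `Fj`. -/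
theorem fj_ge (A a p r s : ℝ) (m : ℕ) (h0 : 0 ≤ p) (h1 : p ≤ s) (h2 : s ≤ r) (hpr : p < r)
    (ha : 0 ≤ a) (ham : (m : ℝ) * (m + 1) ^ 2 * (m + 2) / 24 = a)
    (hp : A ≤ m * p - a * p ^ 3) (hr : A ≤ m * r - a * r ^ 3) :
    A * s ≤ GSL.Fj m (s ^ 2) := by
  have h3 := cubic A m a p r s h0 h1 h2 hpr ha hp hr
  have h4 : A * s ≤ (m * s - a * s ^ 3) * s := mul_le_mul_of_nonneg_right h3 (by linarith)
  refine h4.trans (le_of_eq ?_)
  unfold GSL.Fj
  rw [← ham]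
  ring

/-- One interval. -/
theorem interval (A a p r s w : ℝ) (m : ℕ) (hm1 : 1 ≤ m) (hm2 : m ≤ 28) (h1 : p ≤ s) (h2 : s ≤ r)
    (hpr : p < r) (hp0 : 1 / 64 ≤ p) (hA : 3218 / 10000 ≤ A) (hw : 0 < w) (hw1 : w ≤ 1)
    (ha : 0 ≤ a) (ham : (m : ℝ) * (m + 1) ^ 2 * (m + 2) / 24 = a)
    (hp : A ≤ m * p - a * p ^ 3) (hr : A ≤ m * r - a * r ^ 3)
    (hPsi : ∀ t : ℝ, 0 ≤ t → t ≤ r → Psi (t ^ 2) ≤ 1512 / 1000 * A * t) :
    ∃ m : ℕ, 1 ≤ m ∧ m ≤ 28 ∧
      Psi ((s * w) ^ 2) / (38 / 25 * w) + 1 / 1000000 ≤ GSL.Fj m (s ^ 2) := by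
  have hs : 0 ≤ s := by linarith
  refine ⟨m, hm1, hm2, concl A s w _ _ hA (by linarith) hw (hPsi _ (by positivity) ?_)
    (fj_ge A a p r s m (by linarith) h1 h2 hpr ha ham hp hr)⟩
  calc s * w ≤ s * 1 := mul_le_mul_of_nonneg_left hw1 hs
    _ ≤ r := by linarith

theorem main (s w : ℝ) (hs : 1 / 64 ≤ s) (hs1 : s ≤ 1) (hw : 0 < w) (hw1 : w ≤ 1) :
    ∃ m : ℕ, 1 ≤ m ∧ m ≤ 28 ∧
      Psi ((s * w) ^ 2) / (38 / 25 * w) + 1 / 1000000 ≤ GSL.Fj m (s ^ 2) := by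
  have l5' : ∀ r : ℝ, r ≤ 1 → ∀ t : ℝ, 0 ≤ t → t ≤ r →
      Psi (t ^ 2) ≤ 1512 / 1000 * (1 / 2) * t := fun r hr t h0 h1 => l5 t h0 (h1.trans hr)
  rcases le_total s (3 / 128) with h1 | h1
  · exact interval (3218 / 10000) 22113 (1 / 64) (3 / 128) s w 26 (by norm_num) (by norm_num)
      hs h1 (by norm_num) (by norm_num) (by norm_num) hw hw1 (by norm_num) (by norm_num)
      (by norm_num) (by norm_num) l0
  rcases le_total s (1 / 32) with h2 | h2
  · exact interval (3646 / 10000) 8085 (3 / 128) (1 / 32) s w 20 (by norm_num) (by norm_num)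
      h1 h2 (by norm_num) (by norm_num) (by norm_num) hw hw1 (by norm_num) (by norm_num)
      (by norm_num) (by norm_num) l1
  rcases le_total s (3 / 64) with h3 | h3
  · exact interval (3928 / 10000) 3468 (1 / 32) (3 / 64) s w 16 (by norm_num) (by norm_num)
      h2 h3 (by norm_num) (by norm_num) (by norm_num) hw hw1 (by norm_num) (by norm_num)
      (by norm_num) (by norm_num) l2
  rcases le_total s (1 / 16) with h4 | h4
  · exact interval (4406 / 10000) 1183 (3 / 64) (1 / 16) s w 12 (by norm_num) (by norm_num)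
      h3 h4 (by norm_num) (by norm_num) (by norm_num) hw hw1 (by norm_num) (by norm_num)
      (by norm_num) (by norm_num) l3
  rcases le_total s (3 / 32) with h5 | h5
  · exact interval (4617 / 10000) (825 / 2) (1 / 16) (3 / 32) s w 9 (by norm_num) (by norm_num)
      h4 h5 (by norm_num) (by norm_num) (by norm_num) hw hw1 (by norm_num) (by norm_num)
      (by norm_num) (by norm_num) l4
  rcases le_total s (1 / 8) with h6 | h6
  · exact interval (1 / 2) 168 (3 / 32) (1 / 8) s w 7 (by norm_num) (by norm_num)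
      h5 h6 (by norm_num) (by norm_num) (by norm_num) hw hw1 (by norm_num) (by norm_num)
      (by norm_num) (by norm_num) (l5' _ (by norm_num))
  rcases le_total s (3 / 16) with h7 | h7
  · exact interval (1 / 2) (105 / 2) (1 / 8) (3 / 16) s w 5 (by norm_num) (by norm_num)
      h6 h7 (by norm_num) (by norm_num) (by norm_num) hw hw1 (by norm_num) (by norm_num)
      (by norm_num) (by norm_num) (l5' _ (by norm_num))
  rcases le_total s (1 / 4) with h8 | h8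
  · exact interval (1 / 2) 25 (3 / 16) (1 / 4) s w 4 (by norm_num) (by norm_num)
      h7 h8 (by norm_num) (by norm_num) (by norm_num) hw hw1 (by norm_num) (by norm_num)
      (by norm_num) (by norm_num) (l5' _ (by norm_num))
  rcases le_total s (3 / 8) with h9 | h9
  · exact interval (1 / 2) 10 (1 / 4) (3 / 8) s w 3 (by norm_num) (by norm_num)
      h8 h9 (by norm_num) (by norm_num) (by norm_num) hw hw1 (by norm_num) (by norm_num)
      (by norm_num) (by norm_num) (l5' _ (by norm_num))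
  rcases le_total s (5 / 8) with h10 | h10
  · exact interval (1 / 2) 3 (3 / 8) (5 / 8) s w 2 (by norm_num) (by norm_num)
      h9 h10 (by norm_num) (by norm_num) (by norm_num) hw hw1 (by norm_num) (by norm_num)
      (by norm_num) (by norm_num) (l5' _ (by norm_num))
  · exact interval (1 / 2) (1 / 2) (5 / 8) 1 s w 1 (by norm_num) (by norm_num)
      h10 hs1 (by norm_num) (by norm_num) (by norm_num) hw hw1 (by norm_num) (by norm_num)
      (by norm_num) (by norm_num) (l5' _ (by norm_num))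

end NumX

theorem p_Num : StmtPsi → StmtNum := by
  intro hPsi η₁ h0 h1 q hq0 hq1
  obtain ⟨w, hw, hw1, rfl⟩ : ∃ w : ℝ, 0 < w ∧ w ≤ 1 ∧ η₁ = w ^ 2 :=
    ⟨Real.sqrt η₁, Real.sqrt_pos.2 h0, Real.sqrt_le_one.2 h1, (Real.sq_sqrt h0.le).symm⟩
  rw [Real.sqrt_sq hw.le]
  have hu : 0 ≤ q * w ^ 2 := by positivity
  refine ⟨div_nonneg (hPsi.2.2.1 _ hu).1 (by positivity), ?_⟩
  rcases le_total q (1 / 4096) with hq | hq
  · left
    refine ⟨hq, ?_⟩
    rw [div_le_iff₀ (by positivity)]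
    refine (hPsi.2.2.1 _ hu).2.trans ?_
    have h3 : q * w ^ 2 ≤ q * w := by
      refine mul_le_mul_of_nonneg_left ?_ hq0
      nlinarith
    have h4 : 0 ≤ q * w := by positivity
    calc 31 * (q * w ^ 2) ≤ 31 * (q * w) := by linarith
      _ ≤ 41 / 2 * (38 / 25) * (q * w) := by linarith
      _ = 41 / 2 * q * (38 / 25 * w) := by ring
  · right
    refine ⟨hq, ?_⟩
    obtain ⟨s, hs, hs1, rfl⟩ : ∃ s : ℝ, 1 / 64 ≤ s ∧ s ≤ 1 ∧ q = s ^ 2 := by
      refine ⟨Real.sqrt q, ?_, Real.sqrt_le_one.2 hq1, (Real.sq_sqrt hq0).symm⟩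
      refine Real.le_sqrt_of_sq_le ?_
      norm_num at hq ⊢
      exact hq
    rw [← mul_pow]
    exact NumX.main s w hs hs1 hw hw1

end GSQ

end
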