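import Mathlib
import Pool.Agent.Work.MP_327059_nt.QF.StmtsB
import Pool.Agent.Work.MP_327059_nt.Bd.B05
import Pool.Agent.Work.MP_327059_nt.QF.StmtsA
import Pool.Agent.Work.MP_327059_nt.Bd.B07

/-! Bundle of small proof modules (one section per former module). -/

section

/-!
# MP_327059_nt, second part: the product formula for the resultant
-/

set_option autoImplicit false

open Polynomial

namespace GSQ

namespace IntResX

theorem ex_fin {n : ℕ} (s : Multiset ℂ) (h : Multiset.card s = n) :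
    ∃ x : Fin n → ℂ, s = Finset.univ.val.map x := by
  obtain ⟨l, rfl⟩ := Quot.exists_rep s
  have h' : l.length = n := h
  subst h'
  refine ⟨l.get, ?_⟩
  rw [Fin.univ_val_map, List.ofFn_get]
  rfl

/-- Monomials in the roots. -/
theorem mono {ι κ : Type} [Fintype ι] [DecidableEq ι] {P : ℂ[X]}
    (hP : ∀ i, IsIntegral ℤ (P.coeff i)) (hP0 : P ≠ 0) (x : ι → ℂ)
    (hx : P = C P.leadingCoeff * ∏ r, (X - C (x r))) (f : κ → ι) (T : Finset κ) (m : ℕ)
    (hT : ∀ r, (T.filter fun k => f k = r).card ≤ m) :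
    IsIntegral ℤ (P.leadingCoeff ^ m * ∏ k ∈ T, x (f k)) := by
  have h := GSL.ded P hP hP0 ι x hx m (∏ k ∈ T, MvPolynomial.X (f k)) ?_ ?_
  · rw [map_prod] at h
    simpa only [MvPolynomial.eval_X] using h
  · intro e
    have h1 : (∏ k ∈ T, MvPolynomial.X (f k) : MvPolynomial ι ℂ) =
        MvPolynomial.map (Int.castRingHom ℂ) (∏ k ∈ T, MvPolynomial.X (f k)) := by
      rw [map_prod]
      simp only [MvPolynomial.map_X]
    rw [h1, MvPolynomial.coeff_map]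
    exact isIntegral_algebraMap (R := ℤ) (A := ℂ)
  · intro r
    refine (MvPolynomial.degreeOf_prod_le _ _ _).trans ?_
    refine le_trans (le_of_eq ?_) (hT r)
    rw [Finset.card_filter]
    refine Finset.sum_congr rfl fun k _ => ?_
    rw [MvPolynomial.degreeOf_X]
    by_cases hk : f k = r
    · rw [if_pos hk, if_pos hk.symm]
    · rw [if_neg hk, if_neg (fun h => hk h.symm)]

/-- Products of differences of roots of two polynomials. -/
theorem integral {ι ι' κ : Type} [Fintype ι] [Fintype ι'] [Fintype κ] [DecidableEq ι]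
    [DecidableEq ι'] [DecidableEq κ] {P Q : ℂ[X]} (hP : ∀ i, IsIntegral ℤ (P.coeff i))
    (hP0 : P ≠ 0) (hQ : ∀ i, IsIntegral ℤ (Q.coeff i)) (hQ0 : Q ≠ 0) (x : ι → ℂ) (y : ι' → ℂ)
    (hx : P = C P.leadingCoeff * ∏ r, (X - C (x r)))
    (hy : Q = C Q.leadingCoeff * ∏ r, (X - C (y r))) (f : κ → ι) (g : κ → ι') (p q : ℕ)
    (hf : ∀ r, (Finset.univ.filter fun k => f k = r).card ≤ q)
    (hg : ∀ r, (Finset.univ.filter fun k => g k = r).card ≤ p) :
    IsIntegral ℤ (P.leadingCoeff ^ q * Q.leadingCoeff ^ p * ∏ k, (x (f k) - y (g k))) := by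
  simp_rw [sub_eq_add_neg]
  rw [Finset.prod_add, Finset.mul_sum]
  refine IsIntegral.sum _ fun T _ => ?_
  have h1 := mono hP hP0 x hx f T q fun r =>
    (Finset.card_le_card (Finset.filter_subset_filter _ (Finset.subset_univ T))).trans (hf r)
  have h2 := mono hQ hQ0 y hy g (Finset.univ \ T) p fun r =>
    (Finset.card_le_card (Finset.filter_subset_filter _ (Finset.subset_univ _))).trans (hg r)
  have h3 : IsIntegral ℤ ((-1 : ℂ) ^ (Finset.univ \ T).card) :=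
    (isIntegral_one.neg).pow _
  have h4 := (h1.mul h2).mul h3
  have h5 : ∏ k ∈ Finset.univ \ T, -y (g k) =
      (-1) ^ (Finset.univ \ T).card * ∏ k ∈ Finset.univ \ T, y (g k) := Finset.prod_neg _
  rw [h5]
  refine (congrArg (IsIntegral ℤ) ?_).mp h4
  ring

/-- The roots of the conjugates, enumerated. -/
theorem roots {F : Type} [Field F] [NumberField F] {P : F[X]} (hP : P.Monic) {p : ℕ}
    (hp : P.natDegree = p) :
    ∃ x : (F →+* ℂ) × Fin p → ℂ, ∀ τ : F →+* ℂ,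
      (P.map τ).roots = Finset.univ.val.map (fun i => x (τ, i)) ∧
      P.map τ = ∏ i, (X - C (x (τ, i))) := by
  have h : ∀ τ : F →+* ℂ, ∃ x : Fin p → ℂ, (P.map τ).roots = Finset.univ.val.map x := by
    intro τ
    refine ex_fin _ ?_
    rw [← (IsAlgClosed.splits (P.map τ)).natDegree_eq_card_roots, natDegree_map, hp]
  choose x hx using h
  refine ⟨fun q => x q.1 q.2, fun τ => ⟨hx τ, ?_⟩⟩
  have h1 := (IsAlgClosed.splits (P.map τ)).eq_prod_roots_of_monic (hP.map τ)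
  rw [hx τ, Multiset.map_map] at h1
  exact h1

theorem ng_eq {F : Type} [Field F] [NumberField F] {P : F[X]} {g : ℤ[X]} (hg : IsNG P g)
    {p : ℕ} {x : (F →+* ℂ) × Fin p → ℂ} (hx : ∀ τ : F →+* ℂ,
      P.map τ = ∏ i, (X - C (x (τ, i)))) :
    (g.map (Int.castRingHom ℂ)).leadingCoeff = (g.leadingCoeff : ℂ) ∧
    g.map (Int.castRingHom ℂ) ≠ 0 ∧ (∀ i, IsIntegral ℤ ((g.map (Int.castRingHom ℂ)).coeff i)) ∧
    g.map (Int.castRingHom ℂ) = C (g.map (Int.castRingHom ℂ)).leadingCoeff *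
      ∏ r, (X - C (x r)) := by
  have h1 : (g.map (Int.castRingHom ℂ)).leadingCoeff = (g.leadingCoeff : ℂ) := by
    rw [leadingCoeff_map_of_injective Int.cast_injective]
    rfl
  have h2 : g.map (Int.castRingHom ℂ) ≠ 0 := by
    rw [← leadingCoeff_ne_zero, h1]
    exact_mod_cast hg.pos.ne'
  refine ⟨h1, h2, fun i => ?_, ?_⟩
  · rw [coeff_map]
    exact isIntegral_algebraMap (R := ℤ) (A := ℂ)
  · rw [h1, hg.eq, Fintype.prod_prod_type]
    congr 1
    exact Finset.prod_congr rfl fun τ _ => hx τ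

theorem norm_rat {F : Type} [Field F] [NumberField F] (r : F) :
    ((Algebra.norm ℚ r : ℚ) : ℂ) = ∏ τ : F →+* ℂ, τ r := by
  have h := Algebra.norm_eq_prod_embeddings ℚ ℂ r
  have h2 : ∏ τ : F →+* ℂ, τ r = ∏ σ : F →ₐ[ℚ] ℂ, σ r :=
    Fintype.prod_equiv (RingHom.equivRatAlgHom F ℂ) _ _ fun τ => rfl
  rw [h2, ← h]
  rfl

theorem one_le {r : ℚ} (h : IsIntegral ℤ ((r : ℚ) : ℂ)) (h0 : r ≠ 0) : 1 ≤ ‖((r : ℚ) : ℂ)‖ := by
  have h1 : IsIntegral ℤ r := by
    have h2 : IsIntegral ℤ (algebraMap ℚ ℂ r) := h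
    exact (isIntegral_algebraMap_iff (algebraMap ℚ ℂ).injective).1 h2
  obtain ⟨n, hn⟩ := IsIntegrallyClosed.isIntegral_iff.1 h1
  have hn' : (n : ℚ) = r := hn
  have hn0 : n ≠ 0 := by
    intro h3
    rw [h3] at hn'
    exact h0 (by rw [← hn']; simp)
  rw [← hn']
  have h4 : (((n : ℚ) : ℚ) : ℂ) = ((n : ℤ) : ℂ) := by push_cast; rfl
  rw [h4, Complex.norm_intCast]
  exact_mod_cast Int.one_le_abs hn0

theorem prod_prod (s t : Multiset ℂ) : ((s ×ˢ t).map fun ij => ij.1 - ij.2).prod =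
    (s.map fun a => (t.map fun b => a - b).prod).prod := by
  show (Multiset.map (fun ij : ℂ × ℂ => ij.1 - ij.2) (s.bind fun a => t.map (Prod.mk a))).prod = _
  rw [Multiset.map_bind, Multiset.prod_bind]
  congr 2
  funext a
  rw [Multiset.map_map]
  rfl

theorem res {F : Type} [Field F] [NumberField F] {P Q : F[X]} (hP : P.Monic) (hQ : Q.Monic)
    {p q : ℕ} {x : (F →+* ℂ) × Fin p → ℂ} {y : (F →+* ℂ) × Fin q → ℂ} (τ : F →+* ℂ)
    (hx : (P.map τ).roots = Finset.univ.val.map (fun i => x (τ, i)))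
    (hy : (Q.map τ).roots = Finset.univ.val.map (fun i => y (τ, i))) :
    ∏ i, ∏ j, (x (τ, i) - y (τ, j)) = τ (resultant P Q) := by
  have h1 := resultant_eq_prod_roots_sub (P.map τ) (Q.map τ) (hP.map τ) (hQ.map τ)
    (IsAlgClosed.splits _) (IsAlgClosed.splits _)
  rw [natDegree_map, natDegree_map, resultant_map_map] at h1
  rw [h1, hx, hy, prod_prod, Multiset.map_map]
  refine congrArg Multiset.prod (Multiset.map_congr rfl fun i _ => ?_)
  simp only [Function.comp_apply]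
  rw [Multiset.map_map]
  rfl

theorem cnt1 {E : Type} [Fintype E] [DecidableEq E] (p q : ℕ) (r : E × Fin p) :
    (Finset.univ.filter fun k : E × (Fin p × Fin q) => (k.1, k.2.1) = r).card ≤ q := by
  have h1 := Finset.card_le_card_of_injOn (s := Finset.univ.filter
    fun k : E × (Fin p × Fin q) => (k.1, k.2.1) = r) (t := Finset.univ)
    (fun k => k.2.2) (fun k _ => Finset.mem_coe.2 (Finset.mem_univ _)) (by
      rintro ⟨a, b, c⟩ h2 ⟨a', b', c'⟩ h3 h4
      simp only [Finset.coe_filter, Finset.mem_univ, true_and, Set.mem_ofPred_eq] at h2 h3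
      rw [← h2] at h3
      simp only [Prod.mk.injEq] at h3 ⊢
      exact ⟨h3.1.symm, h3.2.symm, h4⟩)
  rwa [Finset.card_univ, Fintype.card_fin] at h1

theorem cnt2 {E : Type} [Fintype E] [DecidableEq E] (p q : ℕ) (r : E × Fin q) :
    (Finset.univ.filter fun k : E × (Fin p × Fin q) => (k.1, k.2.2) = r).card ≤ p := by
  have h1 := Finset.card_le_card_of_injOn (s := Finset.univ.filter
    fun k : E × (Fin p × Fin q) => (k.1, k.2.2) = r) (t := Finset.univ)
    (fun k => k.2.1) (fun k _ => Finset.mem_coe.2 (Finset.mem_univ _)) (by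
      rintro ⟨a, b, c⟩ h2 ⟨a', b', c'⟩ h3 h4
      simp only [Finset.coe_filter, Finset.mem_univ, true_and, Set.mem_ofPred_eq] at h2 h3
      rw [← h2] at h3
      simp only [Prod.mk.injEq] at h3 ⊢
      exact ⟨h3.1.symm, h4, h3.2.symm⟩)
  rwa [Finset.card_univ, Fintype.card_fin] at h1

/-- The arithmetic core. -/
theorem core {E : Type} [Fintype E] {p q : ℕ} (g h : ℤ[X]) (hg0 : 0 < g.leadingCoeff)
    (hh0 : 0 < h.leadingCoeff) (x : E × Fin p → ℂ) (y : E × Fin q → ℂ)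
    (ge : g.map (Int.castRingHom ℂ) = C (g.map (Int.castRingHom ℂ)).leadingCoeff *
      ∏ r, (X - C (x r)))
    (he : h.map (Int.castRingHom ℂ) = C (h.map (Int.castRingHom ℂ)).leadingCoeff *
      ∏ r, (X - C (y r)))
    (r : ℚ) (hr0 : r ≠ 0) (hr : ((r : ℚ) : ℂ) = ∏ τ : E, ∏ i, ∏ j, (x (τ, i) - y (τ, j))) :
    0 ≤ (q : ℝ) * Real.log g.leadingCoeff + p * Real.log h.leadingCoeff +
      ∑ τ : E, ∑ i, ∑ j, Real.log ‖x (τ, i) - y (τ, j)‖ := by
  classical
  have ga : (g.map (Int.castRingHom ℂ)).leadingCoeff = (g.leadingCoeff : ℂ) := by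
    rw [leadingCoeff_map_of_injective Int.cast_injective]
    rfl
  have ha : (h.map (Int.castRingHom ℂ)).leadingCoeff = (h.leadingCoeff : ℂ) := by
    rw [leadingCoeff_map_of_injective Int.cast_injective]
    rfl
  have g0 : g.map (Int.castRingHom ℂ) ≠ 0 := by
    rw [← leadingCoeff_ne_zero, ga]
    exact_mod_cast hg0.ne'
  have h0 : h.map (Int.castRingHom ℂ) ≠ 0 := by
    rw [← leadingCoeff_ne_zero, ha]
    exact_mod_cast hh0.ne'
  have gi : ∀ i, IsIntegral ℤ ((g.map (Int.castRingHom ℂ)).coeff i) := by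
    intro i
    rw [coeff_map]
    exact isIntegral_algebraMap (R := ℤ) (A := ℂ)
  have hi : ∀ i, IsIntegral ℤ ((h.map (Int.castRingHom ℂ)).coeff i) := by
    intro i
    rw [coeff_map]
    exact isIntegral_algebraMap (R := ℤ) (A := ℂ)
  have hint := integral gi g0 hi h0 x y ge he
    (fun k : E × (Fin p × Fin q) => (k.1, k.2.1))
    (fun k : E × (Fin p × Fin q) => (k.1, k.2.2)) p q (cnt1 p q) (cnt2 p q)
  rw [ga, ha, Fintype.prod_prod_type] at hint
  have hprod : ∏ τ : E, ∏ k : Fin p × Fin q, (x (τ, k.1) - y (τ, k.2)) = ((r : ℚ) : ℂ) := by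
    rw [hr]
    refine Finset.prod_congr rfl fun τ _ => ?_
    rw [Fintype.prod_prod_type]
  have hrat : (g.leadingCoeff : ℂ) ^ q * (h.leadingCoeff : ℂ) ^ p * ((r : ℚ) : ℂ) =
      (((g.leadingCoeff : ℚ) ^ q * (h.leadingCoeff : ℚ) ^ p * r : ℚ) : ℂ) := by
    push_cast
    rfl
  have h1 : IsIntegral ℤ
      (((g.leadingCoeff : ℚ) ^ q * (h.leadingCoeff : ℚ) ^ p * r : ℚ) : ℂ) := by
    rw [← hrat, ← hprod]
    exact hint
  have hgp : (0 : ℝ) < g.leadingCoeff := by exact_mod_cast hg0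
  have hhp : (0 : ℝ) < h.leadingCoeff := by exact_mod_cast hh0
  have hgq : (g.leadingCoeff : ℚ) ≠ 0 := by exact_mod_cast hg0.ne'
  have hhq : (h.leadingCoeff : ℚ) ≠ 0 := by exact_mod_cast hh0.ne'
  have h2 := one_le h1 (mul_ne_zero (mul_ne_zero (pow_ne_zero _ hgq) (pow_ne_zero _ hhq)) hr0)
  rw [← hrat] at h2
  have h3 := Real.log_nonneg h2
  have hn1 : ‖(g.leadingCoeff : ℂ)‖ = g.leadingCoeff := by
    rw [Complex.norm_intCast, abs_of_pos hgp]
  have hn2 : ‖(h.leadingCoeff : ℂ)‖ = h.leadingCoeff := by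
    rw [Complex.norm_intCast, abs_of_pos hhp]
  have hrC : ((r : ℚ) : ℂ) ≠ 0 := by exact_mod_cast hr0
  have hne : ∀ (τ : E) i j, x (τ, i) - y (τ, j) ≠ 0 := by
    intro τ i j h4
    apply hrC
    rw [hr]
    exact Finset.prod_eq_zero (Finset.mem_univ τ) (Finset.prod_eq_zero (Finset.mem_univ i)
      (Finset.prod_eq_zero (Finset.mem_univ j) h4))
  have hlog : Real.log ‖((r : ℚ) : ℂ)‖ = ∑ τ : E, ∑ i, ∑ j, Real.log ‖x (τ, i) - y (τ, j)‖ := by
    rw [hr, norm_prod, Real.log_prod]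
    · refine Finset.sum_congr rfl fun τ _ => ?_
      rw [norm_prod, Real.log_prod]
      · refine Finset.sum_congr rfl fun i _ => ?_
        rw [norm_prod, Real.log_prod]
        intro j _
        exact norm_ne_zero_iff.2 (hne τ i j)
      · intro i _
        exact norm_ne_zero_iff.2 (Finset.prod_ne_zero_iff.2 fun j _ => hne τ i j)
    · intro τ _
      exact norm_ne_zero_iff.2 (Finset.prod_ne_zero_iff.2 fun i _ =>
        Finset.prod_ne_zero_iff.2 fun j _ => hne τ i j)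
  rw [norm_mul, norm_mul, norm_pow, norm_pow, hn1, hn2,
    Real.log_mul (by positivity) (norm_ne_zero_iff.2 hrC),
    Real.log_mul (by positivity) (by positivity), Real.log_pow, Real.log_pow, hlog] at h3
  exact h3

end IntResX

open IntResX in
theorem p_IntRes : StmtNr → StmtIntRes := by
  intro _ F _ _ P Q g h hP hQ hco hg hh
  obtain ⟨x, hx⟩ := IntResX.roots hP rfl
  obtain ⟨y, hy⟩ := IntResX.roots hQ rfl
  obtain ⟨ga, g0, gi, ge⟩ := ng_eq hg fun τ => (hx τ).2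
  obtain ⟨ha, h0, hi, he⟩ := ng_eq hh fun τ => (hy τ).2
  have hR0 : Algebra.norm ℚ (resultant P Q) ≠ 0 :=
    Algebra.norm_ne_zero_iff.2 (resultant_ne_zero P Q hco)
  have h1 := core g h hg.pos hh.pos x y ge he (Algebra.norm ℚ (resultant P Q)) hR0 (by
    rw [norm_rat]
    exact Finset.prod_congr rfl fun τ _ => (res hP hQ τ (hx τ).1 (hy τ).1).symm)
  refine h1.trans (le_of_eq ?_)
  congr 1
  refine Finset.sum_congr rfl fun τ _ => ?_
  rw [(hx τ).1, (hy τ).1]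
  simp only [Multiset.map_map]
  rfl

end GSQ

end

section

/-!
# MP_327059_nt, second part: non vanishing (`StmtNV`)
-/

open Polynomial Filter Topology

namespace GSQ

namespace NV

theorem sep1 (β : ℂ) (t : ℤ) (h : Sep 1 β) : Sep (β - t) 1 := by
  obtain ⟨c, hc, h⟩ := h
  have ht : 0 < 1 + |(t : ℝ)| := by positivity
  refine ⟨c / (1 + |(t : ℝ)|), by positivity, fun a b hab => ?_⟩
  rw [div_le_iff₀ ht]
  have h1 := h (b - t * a) a (by
    by_cases ha : a = 0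
    · left
      rw [ha, mul_zero, sub_zero]
      rcases hab with h0 | h0
      · exact absurd ha h0
      · exact h0
    · exact Or.inr ha)
  have e : (((b - t * a : ℤ) : ℂ) * 1 + a * β) = a * (β - t) + b * 1 := by
    push_cast; ring
  rw [e] at h1
  have h2 : |((b - t * a : ℤ) : ℝ)| + |(a : ℝ)| ≤ (|(a : ℝ)| + |(b : ℝ)|) * (1 + |(t : ℝ)|) := by
    push_cast
    have h3 : |(b : ℝ) - t * a| ≤ |(b : ℝ)| + |(t : ℝ)| * |(a : ℝ)| := by
      refine (abs_sub _ _).trans ?_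
      rw [abs_mul]
    have h4 : 0 ≤ |(t : ℝ)| * |(b : ℝ)| := by positivity
    nlinarith [abs_nonneg (a : ℝ), abs_nonneg (b : ℝ)]
  calc c ≤ (|((b - t * a : ℤ) : ℝ)| + |(a : ℝ)|) * ‖(a * (β - t) + b * 1 : ℂ)‖ := h1
    _ ≤ ((|(a : ℝ)| + |(b : ℝ)|) * (1 + |(t : ℝ)|)) * ‖(a * (β - t) + b * 1 : ℂ)‖ :=
        mul_le_mul_of_nonneg_right h2 (norm_nonneg _)
    _ = _ := by ring

theorem sep2 (β l : ℂ) (hl : l ≠ 0) (h : Sep 1 β) : Sep l (β * l) := by
  obtain ⟨c, hc, h⟩ := h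
  have hl0 : 0 < ‖l‖ := norm_pos_iff.2 hl
  refine ⟨c * ‖l‖, by positivity, fun a b hab => ?_⟩
  have e : ((a : ℂ) * l + b * (β * l)) = (a * 1 + b * β) * l := by ring
  rw [e, norm_mul, ← mul_assoc]
  exact mul_le_mul_of_nonneg_right (h a b hab) hl0.le

end NV

open GSL.NV

theorem nv (hC : GSL.StmtCount) (hE : StmtEval) (hRk : GSL.StmtRank) (hD : StmtDiff)
    (hH : StmtHermLat) (hI : GSL.StmtInterp) (hCo : GSL.StmtCoef) : StmtNV := by
  intro D ε hε hε1
  obtain ⟨θ, hθdef⟩ : ∃ θ, θ = ε / 100 := ⟨_, rfl⟩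
  have hθ : 0 < θ := by rw [hθdef]; positivity
  have hθ1 : θ ≤ 1 / 100 := by rw [hθdef]; linarith
  have hθ1' : θ < 1 := by linarith
  obtain ⟨Sd, hSd1, hDiff⟩ := hD D θ hθ hθ1'
  have him1 := NV.sep1 D.β D.t D.sep
  have him2 := NV.sep2 D.β D.l D.l_ne D.sep
  obtain ⟨Sh, hHerm⟩ := hH (D.β - D.t) 1 him1 θ hθ hθ1'
  obtain ⟨Sk, hHerm'⟩ := hH D.l (D.β * D.l) him2 θ hθ hθ1'
  -- constants
  obtain ⟨CU, hCU⟩ : ∃ x, x = ‖D.β - D.t‖ + ‖(1 : ℂ)‖ := ⟨_, rfl⟩
  obtain ⟨CV, hCV⟩ : ∃ x, x = ‖D.l‖ + ‖D.β * D.l‖ := ⟨_, rfl⟩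
  obtain ⟨C, hCdef⟩ : ∃ x, x = CU + CV + 1 := ⟨_, rfl⟩
  have hCU0 : 0 ≤ CU := by rw [hCU]; positivity
  have hCV0 : 0 ≤ CV := by rw [hCV]; positivity
  have hC1 : 1 ≤ C := by rw [hCdef]; linarith
  have hCUC : CU ≤ C := by rw [hCdef]; linarith
  have hCVC : CV ≤ C := by rw [hCdef]; linarith
  obtain ⟨K, hKdef⟩ : ∃ x, x = |Real.log (4 * C)| + |Real.log (2 * Real.pi)| + 1 := ⟨_, rfl⟩
  have hab1 := abs_nonneg (Real.log (4 * C))
  have hab2 := abs_nonneg (Real.log (2 * Real.pi))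
  have hK1 : 1 ≤ K := by rw [hKdef]; linarith
  have hK4C : Real.log (4 * C) ≤ K := by
    rw [hKdef]; have := le_abs_self (Real.log (4 * C)); linarith
  have hKpi : Real.log (2 * Real.pi) ≤ K := by
    rw [hKdef]; have := le_abs_self (Real.log (2 * Real.pi)); linarith
  obtain ⟨Sa, hbig⟩ := ev_big hC hθ C K
  refine ⟨1, 1, max (max Sd Sh) (max Sk Sa), one_pos, one_pos, ?_⟩
  intro S L₀ T hS hLo hL2 hT1 hT2 OT AT hgood γ hγ
  by_contra hcon
  push Not at hcon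
  have hSd : Sd ≤ S := (le_max_left _ _).trans ((le_max_left _ _).trans hS)
  have hSh : Sh ≤ S := (le_max_right _ _).trans ((le_max_left _ _).trans hS)
  have hSk : Sk ≤ S := (le_max_left _ _).trans ((le_max_right _ _).trans hS)
  have hSa : Sa ≤ S := (le_max_right _ _).trans ((le_max_right _ _).trans hS)
  have hB := hbig S hSa
  obtain ⟨Λ, hΛdef⟩ : ∃ x, x = Real.log S := ⟨_, rfl⟩
  obtain ⟨V, hVdef⟩ : ∃ x, x = GSL.Vf S L₀ := ⟨_, rfl⟩
  obtain ⟨A, hAdef⟩ : ∃ x : ℝ, x = ((GSL.circ S).card : ℝ) := ⟨_, rfl⟩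
  obtain ⟨L, hLdef⟩ : ∃ x : ℝ, x = L₀ * A := ⟨_, rfl⟩
  rw [one_mul, ← hΛdef] at hLo
  rw [one_mul] at hL2
  have hF : Facts θ C K S L₀ T Λ V A L :=
    facts hθ hθ1 hε hB hK1 hΛdef hVdef hAdef hLdef hLo hT1
  have hS1 := hF.S1
  have hS0 : (0 : ℝ) < S := by linarith
  have hV0 := hF.V0
  have hLpos : 0 < L := by linarith [hF.L1]
  have hA0 : 0 < A := by
    have h2 : (0 : ℝ) < (S : ℝ) ^ 2 := by positivity
    linarith [hF.AS]
  have hL0 : (0 : ℝ) < L₀ := by linarith [hF.LS]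
  obtain ⟨R, hR1, hRlog, hR2, hRB⟩ := factsR hθ hθ1 hB hC1 hΛdef hF
  obtain ⟨hr1, hr2, hr3⟩ := factsr hB hC1 hCVC hKpi hΛdef hLdef hL2 hF
  -- comparison with the entries at `γ`
  have hT2' : (T : ℝ) ≤ 2 * L₀ := by
    have : (1 + ε) * (L₀ : ℝ) ≤ 2 * L₀ := mul_le_mul_of_nonneg_right (by linarith) hL0.le
    linarith
  obtain ⟨hγ0, hAγ, hdiff⟩ := hDiff S L₀ T hSd (by rw [← hΛdef]; exact hLo) hL2
    hT2' ((1 + ε) * V) (by
      rw [← hVdef]; have := mul_pos hε hV0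
      have : (1 + ε) * V = V + ε * V := by ring
      linarith) γ (by rw [hVdef]; exact hγ)
  obtain ⟨X, hX⟩ : ∃ X, X = D.B₀.eval γ / D.A₀.eval γ := ⟨_, rfl⟩
  rw [← hX, ← hVdef] at hdiff
  -- rank
  obtain ⟨p, r0, hpr0, hp1, hps⟩ := exists_rel hRk (fun (r : GSL.Ix S L₀) (c : GSL.Ix S T) => D.ent X γ r c)
    (by
      intro e he
      have h1 := hE D S L₀ T e OT AT (hgood e he) γ hγ0 hAγ
      rw [hcon e he, ← hX] at h1
      have h2 : γ ^ OT * (D.a₁ * D.a₂) ^ AT * (∏ r, D.A₀.eval γ ^ ((e r).1 : ℕ)) ≠ 0 := by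
        refine mul_ne_zero (mul_ne_zero (pow_ne_zero _ hγ0)
          (pow_ne_zero _ (mul_ne_zero D.a₁_ne D.a₂_ne))) ?_
        exact Finset.prod_ne_zero_iff.2 fun r _ => pow_ne_zero _ hAγ
      rcases mul_eq_zero.1 h1.symm with h3 | h3
      · exact absurd h3 h2
      · exact h3)
  -- derivatives at the nodes
  have hder := der_bound (t := D.t) p hp1 (fun (r : GSL.Ix S L₀) (c : GSL.Ix S T) => D.ent X γ r c) hps _ hdiff
  rw [← hAdef, ← hLdef] at hder
  -- interpolation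
  obtain ⟨h, hdeg, hint, hbd⟩ := hHerm S hSh T hF.T1
  have hCS0 : 0 < C * S := by positivity
  have hcardA : ((Fintype.card {q : ℤ × ℤ // q ∈ GSL.circ S} : ℕ) : ℝ) = A := by
    rw [Fintype.card_coe, hAdef]
  have hN : (((T * Fintype.card {q : ℤ × ℤ // q ∈ GSL.circ S} : ℕ)) : ℝ) = T * A := by
    rw [Nat.cast_mul, hcardA]
  have hFb : ∀ z : ℂ, ‖z‖ ≤ C * S → ‖F D.β D.l p z‖ ≤
      Real.exp (-((1 + ε / 2) * V) + 11 * (θ * V)) := by
    intro z hz
    have h1 := hI {q : ℤ × ℤ // q ∈ GSL.circ S}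
      (fun j => (j.1.1 * (D.β - D.t) + j.1.2 * 1 : ℂ)) T h (C * S) R
      (L * Real.exp (-((1 + ε) * V) + θ * V)) (Real.exp (3 * (θ * V)))
      (Real.exp (T * (GSL.circ S).card * (Real.log (C * S) - (1 - θ) * Real.log S)))
      (Real.exp (T * (GSL.circ S).card * (Real.log R - (1 - θ) * Real.log S))) hF.T1
      ?_ hCS0 (by linarith) ?_ hint ?_ ?_ (by positivity) (by positivity)
      (F D.β D.l p) (F_diff _ _ _) ?_ ?_ z hz
    · refine h1.trans ?_
      have h2 := num1 (N := T * Fintype.card {q : ℤ × ℤ // q ∈ GSL.circ S}) (R := R) (r := C * S) hθ hθ1 hε hε1 hV0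
        (by linarith [hF.Λ1] : 0 < Λ) hLpos hC1 ?_ ?_ hF.LV1 hF.LV2 hK1 hK4C hF.KL hF.e2 hCS0
        ?_ (by linarith) hRlog hR2
      · rw [hN] at h2
        rw [hcardA, ← hAdef, ← hΛdef]
        exact h2
      · rw [hN, hLdef, ← mul_assoc]
        exact mul_le_mul_of_nonneg_right hT1 hA0.le
      · rw [hN, hLdef, ← mul_assoc]
        exact mul_le_mul_of_nonneg_right hT2 hA0.le
      · rw [Real.log_mul (by positivity) hS0.ne', hΛdef]
    · -- injectivity
      intro i j hij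
      have h2 := hint i 0 hF.T1 i 0 hF.T1
      have h3 := hint i 0 hF.T1 j 0 hF.T1
      simp only [Function.iterate_zero, id_eq, and_self, and_true, if_true] at h2 h3
      have h4 : (i.1.1 * (D.β - D.t) + i.1.2 * 1 : ℂ) = j.1.1 * (D.β - D.t) + j.1.2 * 1 := hij
      rw [h4, h3] at h2
      by_contra hne
      rw [if_neg (Ne.symm hne)] at h2
      exact zero_ne_one h2
    · intro i
      have h2 := lin_bound (D.β - D.t) 1 i.2
      rw [← hCU] at h2
      exact h2.trans (mul_le_mul_of_nonneg_right hCUC hS0.le)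
    · intro i tau htau w hw
      refine hbd (C * S) ?_ ?_ i tau htau w hw
      · exact le_mul_of_one_le_left hS0.le hC1
      · rw [← hCU]; exact mul_le_mul_of_nonneg_right hCUC hS0.le
    · intro i tau htau w hw
      refine hbd R ?_ ?_ i tau htau w hw
      · have : (S : ℝ) ≤ C * S := le_mul_of_one_le_left hS0.le hC1
        linarith
      · rw [← hCU]
        have : CU * (S : ℝ) ≤ C * S := mul_le_mul_of_nonneg_right hCUC hS0.le
        linarith
    · intro w hw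
      refine (F_bound D.β D.l p hp1 R hR1 w hw).trans ?_
      rw [← hAdef, ← hLdef, ← hCV]
      refine le_trans ?_ hRB
      refine mul_le_mul_of_nonneg_left (mul_le_mul_of_nonneg_left (Real.exp_le_exp.2 ?_)
        (by positivity)) hLpos.le
      exact mul_le_mul_of_nonneg_right (mul_le_mul_of_nonneg_right hCVC hS0.le) (by linarith)
    · intro i tau htau
      have h2 := hder (⟨tau, htau⟩, i)
      rw [zv_eq] at h2
      exact h2
  -- coefficients
  obtain ⟨h', hdeg', hint', hbd'⟩ := hHerm' S hSk L₀ (by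
    have : (1 : ℝ) ≤ L₀ := by linarith [hF.LS]
    exact_mod_cast this)
  have hfin := hCo {q : ℤ × ℤ // q ∈ GSL.circ S}
    (fun j => (j.1.1 * D.l + j.1.2 * (D.β * D.l) : ℂ)) L₀ h' (L / (C * S)) (C * S)
    (Real.exp (-((1 + ε / 2) * V) + 11 * (θ * V)))
    (Real.exp (L₀ * (GSL.circ S).card * (Real.log (L / (C * S)) - (1 - θ) * Real.log S)))
    (by
      have : (1 : ℝ) ≤ L₀ := by linarith [hF.LS]
      exact_mod_cast this) hCS0 (by positivity)
    (by rw [hcardA, ← hLdef, div_mul_cancel₀ _ hCS0.ne'])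
    hdeg' hint' (fun i tau htau z hz => hbd' _ hr1 (by rw [← hCV]; exact hr2) i tau htau z hz)
    (Real.exp_pos _).le (fun i k => p (k, i))
    (fun z hz => by rw [← F_double]; exact hFb z hz) r0.2 r0.1
  have hr0 : p (r0.1, r0.2) = 1 := hpr0
  rw [hr0, norm_one, hcardA, ← hAdef, ← hLdef, ← hΛdef] at hfin
  have hlt := num2 (r₁ := L / (C * S)) hθ hθ1 hθdef hε hV0 hLpos hF.LV1 hK1 hF.KL hr3
  linarith


end GSQ

end

section

/-!
# MP_327059_nt, second part: the exponents of `Y` and `α`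
-/

open Filter Topology

namespace GSQ

theorem ot (hC : GSL.StmtCount) : StmtOT := by
  intro t n ε hε hε1
  set κ := Real.sqrt (1 + ε) with hκ
  have hκ1 : 1 < κ := by
    rw [hκ]
    exact Real.lt_sqrt_of_sq_lt (by linarith)
  have hκ2 : κ * κ = 1 + ε := Real.mul_self_sqrt (by linarith)
  have hκ0 : 0 < κ := by linarith
  have ev : ∀ᶠ S : ℕ in atTop, GSL.OT.M2 S ≤ κ / 2 * ((S : ℝ) ^ 2 * (GSL.circ S).card) := by
    have h1 := hC.2.div hC.1 Real.pi_pos.ne'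
    have h2 : Real.pi / 2 / Real.pi < κ / 2 := by
      have : Real.pi / 2 / Real.pi = 1 / 2 := by
        have := Real.pi_pos.ne'
        field_simp
      rw [this]
      linarith
    have h3 := hC.1.eventually (eventually_gt_nhds (show (0 : ℝ) < Real.pi from Real.pi_pos))
    filter_upwards [h1.eventually (eventually_le_nhds h2), h3, eventually_ge_atTop 1]
      with S g1 g2 g3
    have hS0 : (0 : ℝ) < S := by exact_mod_cast g3
    have hS2 : (0 : ℝ) < (S : ℝ) ^ 2 := by positivity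
    have hS4 : (0 : ℝ) < (S : ℝ) ^ 4 := by positivity
    rw [Pi.div_apply, div_le_iff₀ g2, div_le_iff₀ hS4] at g1
    have e : κ / 2 * (((GSL.circ S).card : ℝ) / (S : ℝ) ^ 2) * (S : ℝ) ^ 4 =
        κ / 2 * ((S : ℝ) ^ 2 * (GSL.circ S).card) := by
      field_simp
    rw [e] at g1
    exact g1
  obtain ⟨S₁, hS₁⟩ := eventually_atTop.1 ev
  refine ⟨S₁, 1 + t.natAbs + n.natAbs, fun S hS L₀ T hT e he π => ⟨?_, ?_⟩⟩
  · have hM := hS₁ S hS
    have hM0 := GSL.OT.M2_nonneg S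
    -- real bound
    have hinj : Function.Injective fun r => e (π r) := he.comp π.injective
    have hq : ∑ r : GSL.Ix S L₀, (((e (π r)).2.1.1 : ℝ) ^ 2 + ((e (π r)).2.1.2 : ℝ) ^ 2) ≤
        T * GSL.OT.M2 S := by
      rw [← GSL.OT.sum_Ix S T]
      have h1 : ∑ r : GSL.Ix S L₀, (((e (π r)).2.1.1 : ℝ) ^ 2 + ((e (π r)).2.1.2 : ℝ) ^ 2) =
          ∑ s ∈ Finset.univ.map ⟨fun r => e (π r), hinj⟩,
            ((s.2.1.1 : ℝ) ^ 2 + (s.2.1.2 : ℝ) ^ 2) := by
        rw [Finset.sum_map]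
        rfl
      rw [h1]
      exact Finset.sum_le_sum_of_subset_of_nonneg (Finset.subset_univ _)
        fun _ _ _ => by positivity
    have hpt : ∀ r : GSL.Ix S L₀, |((GSL.Bf r.2.1 (e (π r)).2.1 : ℤ) : ℝ)| ≤
        κ / 2 * ((r.2.1.1 : ℝ) ^ 2 + (r.2.1.2 : ℝ) ^ 2) +
        1 / (2 * κ) * (((e (π r)).2.1.1 : ℝ) ^ 2 + ((e (π r)).2.1.2 : ℝ) ^ 2) := by
      intro r
      unfold GSL.Bf
      push_cast
      have key : ∀ a b : ℝ, |a * b| ≤ κ / 2 * a ^ 2 + 1 / (2 * κ) * b ^ 2 := by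
        intro a b
        have h2 : κ / 2 * a ^ 2 + 1 / (2 * κ) * b ^ 2 =
            (κ * |a| - |b|) ^ 2 / (2 * κ) + |a * b| := by
          rw [abs_mul, ← sq_abs a, ← sq_abs b]
          field_simp
          ring
        rw [h2]
        have : 0 ≤ (κ * |a| - |b|) ^ 2 / (2 * κ) := by positivity
        linarith
      refine (abs_add_le _ _).trans ?_
      have k1 := key r.2.1.1 (e (π r)).2.1.1
      have k2 := key r.2.1.2 (e (π r)).2.1.2
      linarith
    have hsum : |((∑ r : GSL.Ix S L₀, GSL.Bf r.2.1 (e (π r)).2.1 : ℤ) : ℝ)| ≤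
        (1 + ε) / 2 * S ^ 2 * (L₀ * (GSL.circ S).card) := by
      push_cast
      calc |∑ r : GSL.Ix S L₀, ((GSL.Bf r.2.1 (e (π r)).2.1 : ℤ) : ℝ)|
          ≤ ∑ r : GSL.Ix S L₀, |((GSL.Bf r.2.1 (e (π r)).2.1 : ℤ) : ℝ)| :=
            Finset.abs_sum_le_sum_abs _ _
        _ ≤ ∑ r : GSL.Ix S L₀, (κ / 2 * ((r.2.1.1 : ℝ) ^ 2 + (r.2.1.2 : ℝ) ^ 2) +
            1 / (2 * κ) * (((e (π r)).2.1.1 : ℝ) ^ 2 + ((e (π r)).2.1.2 : ℝ) ^ 2)) :=
            Finset.sum_le_sum fun r _ => hpt r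
        _ = κ / 2 * (L₀ * GSL.OT.M2 S) + 1 / (2 * κ) *
            ∑ r : GSL.Ix S L₀, (((e (π r)).2.1.1 : ℝ) ^ 2 + ((e (π r)).2.1.2 : ℝ) ^ 2) := by
            rw [Finset.sum_add_distrib, ← Finset.mul_sum, ← Finset.mul_sum, GSL.OT.sum_Ix]
        _ ≤ κ / 2 * (L₀ * GSL.OT.M2 S) + 1 / (2 * κ) * (T * GSL.OT.M2 S) := by gcongr
        _ ≤ κ / 2 * (L₀ * GSL.OT.M2 S) + 1 / (2 * κ) * ((κ * κ * L₀) * GSL.OT.M2 S) := by
            rw [hκ2]
            gcongr
        _ = κ * L₀ * GSL.OT.M2 S := by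
            field_simp
            ring
        _ ≤ κ * L₀ * (κ / 2 * ((S : ℝ) ^ 2 * (GSL.circ S).card)) := by gcongr
        _ = (κ * κ) / 2 * S ^ 2 * (L₀ * (GSL.circ S).card) := by ring
        _ = _ := by rw [hκ2]
    set Z : ℤ := ∑ r : GSL.Ix S L₀, GSL.Bf r.2.1 (e (π r)).2.1 with hZ
    have h5 : ((|Z|.toNat : ℕ) : ℝ) ≤ (1 + ε) / 2 * S ^ 2 * (L₀ * (GSL.circ S).card) := by
      have h6 : ((|Z|.toNat : ℕ) : ℤ) = |Z| := Int.toNat_of_nonneg (abs_nonneg _)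
      have h7 : ((|Z|.toNat : ℕ) : ℝ) = ((|Z| : ℤ) : ℝ) := by rw [← h6]; norm_cast
      rw [h7]
      push_cast
      exact hsum
    have h8 := Nat.le_floor h5
    have h9 : ((|Z|.toNat : ℕ) : ℤ) = |Z| := Int.toNat_of_nonneg (abs_nonneg _)
    rw [← h9]
    exact_mod_cast h8
  · calc |∑ r : GSL.Ix S L₀, GSL.Af t n r.2.1 (e (π r)).2.1|
        ≤ ∑ r : GSL.Ix S L₀, |GSL.Af t n r.2.1 (e (π r)).2.1| := Finset.abs_sum_le_sum_abs _ _
      _ ≤ ∑ _r : GSL.Ix S L₀, ((1 + t.natAbs + n.natAbs : ℕ) : ℤ) * (S : ℤ) ^ 2 :=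
          Finset.sum_le_sum fun r _ => GSL.OT.af_le _ _ r.2.2 (e (π r)).2.2
      _ = ((L₀ * (GSL.circ S).card : ℕ) : ℤ) *
          (((1 + t.natAbs + n.natAbs : ℕ) : ℤ) * (S : ℤ) ^ 2) := by
          rw [Finset.sum_const, Finset.card_univ, GSL.OT.card_Ix, nsmul_eq_mul]
      _ = _ := by
          push_cast
          ring
      _ ≤ _ := le_refl _

end GSQ

end
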